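import Pool.Agent.Sedf.Defs

namespace Pool.Agent.Sedf

section
variable (F : Type*) [Field F] [Fintype F] [DecidableEq F]

/-- indicator of the nonzero squares -/
def sI (y : F) : ℤ := if quadraticChar F y = 1 then 1 else 0

/-- indicator of the nonsquares -/
def tI (y : F) : ℤ := if quadraticChar F y = -1 then 1 else 0

/-- number of ways to write `g` as a square minus a nonsquare -/
def fI (g : F) : ℤ := ∑ y, sI F y * tI F (y - g)

variable {F}

theorem fI_mul (h1 : quadraticChar F (-1) = 1) (c g : F) (hc : c ≠ 0) :
    fI F (c * g) = fI F g := by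
  rcases quadraticChar_dichotomy hc with h | h
  · unfold fI
    symm
    refine Fintype.sum_equiv (Equiv.mulLeft₀ c hc) _ _ fun y => ?_
    have e1 : (Equiv.mulLeft₀ c hc) y = c * y := rfl
    rw [e1, ← mul_sub]
    unfold sI tI
    rw [map_mul, map_mul, h, one_mul, one_mul]
  · unfold fI
    symm
    refine Fintype.sum_equiv ((Equiv.subRight g).trans (Equiv.mulLeft₀ (-c) (neg_ne_zero.mpr hc)))
      _ _ fun y => ?_
    have e1 : ((Equiv.subRight g).trans (Equiv.mulLeft₀ (-c) (neg_ne_zero.mpr hc))) y
        = (-1) * c * (y - g) := by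
      show (-c) * (y - g) = _
      ring
    rw [e1]
    have e2 : (-1) * c * (y - g) - c * g = (-1) * c * y := by ring
    rw [e2]
    unfold sI tI
    rw [map_mul, map_mul, map_mul, map_mul, h1, h, mul_comm]
    congr 1
    · congr 1
      rw [eq_iff_iff]
      constructor
      · intro h; rw [h]; norm_num
      · intro h; linarith
    · congr 1
      rw [eq_iff_iff]
      constructor
      · intro h; rw [h]; norm_num
      · intro h; linarith

theorem sI_add_tI (y : F) : sI F y + tI F y = if y = 0 then 0 else 1 := by
  by_cases hy : y = 0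
  · simp [sI, tI, hy]
  · rcases quadraticChar_dichotomy hy with h | h <;> simp [sI, tI, hy, h]

theorem sI_sub_tI (y : F) : sI F y - tI F y = quadraticChar F y := by
  by_cases hy : y = 0
  · simp [sI, tI, hy]
  · rcases quadraticChar_dichotomy hy with h | h <;> simp [sI, tI, h]

theorem sums (hF : ringChar F ≠ 2) :
    2 * ∑ y, sI F y = (Fintype.card F : ℤ) - 1 ∧ 2 * ∑ y, tI F y = (Fintype.card F : ℤ) - 1 := by
  have h1 : ∑ y, sI F y + ∑ y, tI F y = (Fintype.card F : ℤ) - 1 := by
    rw [← Finset.sum_add_distrib]
    simp only [sI_add_tI]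
    rw [Finset.sum_ite]
    simp only [Finset.sum_const_zero, zero_add, Finset.sum_const, nsmul_eq_mul, mul_one]
    have : (Finset.univ.filter (fun x : F => ¬ x = 0)) = Finset.univ.erase 0 := by
      ext x; simp
    rw [this, Finset.card_erase_of_mem (Finset.mem_univ _), Finset.card_univ, Nat.cast_sub
      Fintype.card_pos]
    simp
  have h2 : ∑ y, sI F y - ∑ y, tI F y = 0 := by
    rw [← Finset.sum_sub_distrib]
    simp only [sI_sub_tI]
    exact quadraticChar_sum_zero hF
  constructor <;> linarith

theorem fI_zero : fI F 0 = 0 := by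
  unfold fI
  refine Finset.sum_eq_zero fun y _ => ?_
  rw [sub_zero]
  unfold sI tI
  by_cases h : quadraticChar F y = 1
  · rw [h]; norm_num
  · rw [if_neg h, zero_mul]

theorem fI_eq {l : ℕ} (hl : 1 ≤ l) (hq : Fintype.card F = 4 * l + 1) (g : F) (hg : g ≠ 0) :
    fI F g = l := by
  have hF : ringChar F ≠ 2 := by
    intro h
    have := FiniteField.even_card_iff_char_two.mp h
    omega
  have h1 : quadraticChar F (-1) = 1 := by
    rw [quadraticChar_neg_one hF, hq]
    have : ((4 * l + 1 : ℕ) : ZMod 4) = 1 := by
      push_cast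
      have : (4 : ZMod 4) = 0 := rfl
      rw [this, zero_mul, zero_add]
    rw [this]
    rfl
  have h2 : ∀ x : F, x ≠ 0 → fI F x = fI F 1 := by
    intro x hx
    have := fI_mul h1 x 1 hx
    rwa [mul_one] at this
  obtain ⟨hs, ht⟩ := sums hF
  have h3 : ∑ x, fI F x = (∑ y, sI F y) * (∑ y, tI F y) := by
    unfold fI
    rw [Finset.sum_comm, Finset.sum_mul]
    refine Finset.sum_congr rfl fun y _ => ?_
    rw [← Finset.mul_sum]
    congr 1
    exact Fintype.sum_equiv (Equiv.subLeft y) _ _ fun x => rfl
  have h4 : ∑ x, fI F x = ((Fintype.card F : ℤ) - 1) * fI F 1 := by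
    rw [← Finset.add_sum_erase _ _ (Finset.mem_univ (0 : F)), fI_zero, zero_add,
      Finset.sum_congr rfl (fun x hx => h2 x (Finset.ne_of_mem_erase hx)), Finset.sum_const,
      Finset.card_erase_of_mem (Finset.mem_univ _), Finset.card_univ, nsmul_eq_mul,
      Nat.cast_sub Fintype.card_pos]
    simp
  rw [h2 g hg]
  rw [h3] at h4
  have h5 : (2 * ∑ y, sI F y) * (2 * ∑ y, tI F y) = 4 * (((Fintype.card F : ℤ) - 1) * fI F 1) := by
    rw [← h4]; ring
  rw [hs, ht, hq] at h5
  push_cast at h5
  have hl' : (l : ℤ) ≠ 0 := by positivity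
  have h6 : (16 * (l : ℤ)) * l = (16 * l) * fI F 1 := by linear_combination h5
  have := mul_left_cancel₀ (by positivity) h6
  exact this.symm

/-- the Paley family -/
def paley (F : Type*) [Field F] [Fintype F] [DecidableEq F] : Fin 2 → Finset (Multiplicative F)
  | 0 => Finset.univ.filter fun y => quadraticChar F (Multiplicative.toAdd y) = 1
  | 1 => Finset.univ.filter fun y => quadraticChar F (Multiplicative.toAdd y) = -1

theorem ind_paley0 (y : Multiplicative F) : ind (paley F 0) y = sI F (Multiplicative.toAdd y) := by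
  simp [ind, paley, sI]

theorem ind_paley1 (y : Multiplicative F) : ind (paley F 1) y = tI F (Multiplicative.toAdd y) := by
  simp [ind, paley, tI]

theorem paley_sedf {l : ℕ} (hl : 1 ≤ l) (hq : Fintype.card F = 4 * l + 1) :
    IsSEDF 2 (2 * l) l (paley F) := by
  have hF : ringChar F ≠ 2 := by
    intro h
    have := FiniteField.even_card_iff_char_two.mp h
    omega
  obtain ⟨hs, ht⟩ := sums hF
  rw [hq] at hs ht
  push_cast at hs ht
  have hdisj : Disjoint (paley F 0) (paley F 1) := by
    rw [Finset.disjoint_left]
    intro y h0 h1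
    simp only [paley, Finset.mem_filter, Finset.mem_univ, true_and] at h0 h1
    rw [h0] at h1
    norm_num at h1
  refine ⟨fun i => ?_, fun i j hij => ?_, fun i g hg => ?_⟩
  · have h1 := sum_ind (paley F i)
    fin_cases i
    · have h2 : ∑ y, ind (paley F 0) y = ∑ y, sI F y := by
        refine Fintype.sum_equiv Multiplicative.toAdd _ _ fun y => ind_paley0 y
      have h3 : ((paley F 0).card : ℤ) = 2 * l := by
        rw [← sum_ind, h2]; linarith
      exact_mod_cast h3
    · have h2 : ∑ y, ind (paley F 1) y = ∑ y, tI F y := by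
        refine Fintype.sum_equiv Multiplicative.toAdd _ _ fun y => ind_paley1 y
      have h3 : ((paley F 1).card : ℤ) = 2 * l := by
        rw [← sum_ind, h2]; linarith
      exact_mod_cast h3
  · fin_cases i <;> fin_cases j
    · exact absurd rfl hij
    · exact hdisj
    · exact hdisj.symm
    · exact absurd rfl hij
  · have hg' : Multiplicative.toAdd g ≠ 0 := fun h => hg (by
      have : g = Multiplicative.ofAdd 0 := by rw [← h]; rfl
      rw [this]; rfl)
    have key : ((Nat.card {p : Multiplicative F × Multiplicative F × Fin 2 //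
      p.2.2 ≠ i ∧ p.1 ∈ paley F i ∧ p.2.1 ∈ paley F p.2.2 ∧ p.1 * p.2.1⁻¹ = g} : ℕ) : ℤ) = l := by
      rw [card_eq_sum]
      simp only [Fin.sum_univ_two]
      fin_cases i
      · simp only [Fin.zero_eta]
        rw [← fI_eq hl hq _ hg']
        unfold fI
        refine Fintype.sum_equiv Multiplicative.toAdd _ _ fun y => ?_
        rw [ind_paley0, ind_paley0, ind_paley1]
        have : Multiplicative.toAdd (g⁻¹ * y) = Multiplicative.toAdd y - Multiplicative.toAdd g := by
          rw [toAdd_mul, toAdd_inv]; ring
        rw [this]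
        ring
      · simp only [Fin.mk_one]
        rw [← fI_eq hl hq _ (neg_ne_zero.mpr hg')]
        unfold fI
        refine Fintype.sum_equiv (Multiplicative.toAdd.trans
          (Equiv.subRight (Multiplicative.toAdd g))) _ _ fun y => ?_
        rw [ind_paley0, ind_paley1, ind_paley1]
        have : Multiplicative.toAdd (g⁻¹ * y) = Multiplicative.toAdd y - Multiplicative.toAdd g := by
          rw [toAdd_mul, toAdd_inv]; ring
        rw [this]
        have e1 : (Multiplicative.toAdd.trans (Equiv.subRight (Multiplicative.toAdd g))) y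
          = Multiplicative.toAdd y - Multiplicative.toAdd g := rfl
        rw [e1, sub_neg_eq_add, sub_add_cancel]
        ring
    exact_mod_cast key

end

end Pool.Agent.Sedf
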