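import Mathlib

set_option autoImplicit false

namespace Pool.Agent.Sedf.Abx

open Module

/-- Every minimal nonzero left invariant subspace of the space of all functions `G → ℂ` has
dimension at most `D` (for a finite group: all irreducible complex representations of `G` have
degree at most `D`). -/
def IrrLe (G : Type*) [Group G] (D : ℕ) : Prop :=
  ∀ U : Submodule ℂ (G → ℂ), U ≠ ⊥ → (∀ x : G, ∀ u ∈ U, (fun g => u (x * g)) ∈ U) →
    (∀ W : Submodule ℂ (G → ℂ), W ≤ U → W ≠ ⊥ → (∀ x : G, ∀ w ∈ W, (fun g => w (x * g)) ∈ W) →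
      W = U) → finrank ℂ U ≤ D

end Pool.Agent.Sedf.Abx
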