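import Pool.Agent.Sedf.Evm
import Pool.Agent.Sedf.Irl

set_option autoImplicit false

/-!
# Strong external difference families in groups with irreducible representations of bounded degree
(MP_4124fc_co, fourth theorem)

`eigx`: on the eigenspace `E` of `S Sᴴ` for `a > 0` (over `ℂ`) let `U` be a minimal nonzero left
invariant subspace; the idempotents act on `Hom_G (U, E)`, whose dimension is at most `dim U`.
-/

namespace Pool.Agent.Sedf.Abx

open Module Matrix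

/-- complex form of the rank count -/
theorem ranksC {E : Type*} [AddCommGroup E] [Module ℂ E] [FiniteDimensional ℂ E] {m : ℕ}
    (P : Fin m → E →ₗ[ℂ] E) (hP : ∀ i, P i * P i = P i) {c : ℝ} (hc : 1 < c)
    (hs : ∑ i, P i = (c : ℂ) • (1 : E →ₗ[ℂ] E)) (he : 0 < finrank ℂ E) :
    (finrank ℂ E : ℝ) + 1 ≤ c * finrank ℂ E := by
  have htr : ∀ i, LinearMap.trace ℂ E (P i) = (finrank ℂ (LinearMap.range (P i)) : ℂ) := by
    intro i
    have h : LinearMap.IsProj (LinearMap.range (P i)) (P i) :=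
      LinearMap.IsIdempotentElem.isProj_range (P i) (hP i)
    exact h.trace
  have hsum : ((∑ i, finrank ℂ (LinearMap.range (P i)) : ℕ) : ℂ) = ((c * finrank ℂ E : ℝ) : ℂ) := by
    rw [Nat.cast_sum, ← Finset.sum_congr rfl (fun i _ => htr i), ← map_sum, hs, map_smul,
      LinearMap.trace_one]
    push_cast
    rfl
  have hsum' : ((∑ i, finrank ℂ (LinearMap.range (P i)) : ℕ) : ℝ) = c * finrank ℂ E := by
    exact_mod_cast hsum
  have he' : (0 : ℝ) < finrank ℂ E := by exact_mod_cast he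
  have hlt : (finrank ℂ E : ℝ) < ((∑ i, finrank ℂ (LinearMap.range (P i)) : ℕ) : ℝ) := by
    rw [hsum']; nlinarith
  have hlt' : finrank ℂ E + 1 ≤ ∑ i, finrank ℂ (LinearMap.range (P i)) := by
    have := Nat.cast_lt.mp hlt
    omega
  rw [← hsum']
  exact_mod_cast hlt'

/-- a common eigenvector of a commuting family, on an invariant subspace -/
theorem common {V : Type*} [AddCommGroup V] [Module ℂ V] [FiniteDimensional ℂ V] {X : Type*}
    (T : X → V →ₗ[ℂ] V) (hT : ∀ x y, T x * T y = T y * T x) (E : Submodule ℂ V) (hE : E ≠ ⊥)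
    (hinv : ∀ x, ∀ v ∈ E, T x v ∈ E) : ∃ chi : X → ℂ, ∃ v ∈ E, v ≠ 0 ∧ ∀ x, T x v = chi x • v := by
  classical
  -- an invariant nonzero subspace of minimal dimension
  have hex : ∃ n : ℕ, ∃ W : Submodule ℂ V, W ≤ E ∧ W ≠ ⊥ ∧ (∀ x, ∀ v ∈ W, T x v ∈ W) ∧
      finrank ℂ W = n := ⟨_, E, le_rfl, hE, hinv, rfl⟩
  obtain ⟨W, hWE, hW0, hWi, hWn⟩ := Nat.find_spec hex
  have hmin : ∀ W' : Submodule ℂ V, W' ≤ W → W' ≠ ⊥ → (∀ x, ∀ v ∈ W', T x v ∈ W') → W' = W := by
    intro W' h1 h2 h3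
    apply Submodule.eq_of_le_of_finrank_le h1
    rw [hWn]
    exact Nat.find_min' hex ⟨W', h1.trans hWE, h2, h3, rfl⟩
  have hsc : ∀ x, ∃ μ : ℂ, ∀ v ∈ W, T x v = μ • v := by
    intro x
    have : Nontrivial W := Submodule.nontrivial_iff_ne_bot.mpr hW0
    obtain ⟨μ, hμ⟩ := Module.End.exists_eigenvalue ((T x).restrict (hWi x))
    obtain ⟨w, hw⟩ := hμ.exists_hasEigenvector
    refine ⟨μ, ?_⟩
    have hker : ∀ v, v ∈ LinearMap.ker (T x - μ • (1 : V →ₗ[ℂ] V)) ↔ T x v = μ • v := by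
      intro v
      rw [LinearMap.mem_ker, LinearMap.sub_apply, LinearMap.smul_apply, Module.End.one_apply,
        sub_eq_zero]
    have hW' := hmin (W ⊓ LinearMap.ker (T x - μ • (1 : V →ₗ[ℂ] V))) inf_le_left ?_ ?_
    · intro v hv
      rw [← hW'] at hv
      exact (hker v).mp hv.2
    · intro h0
      have h1 : (w : V) ∈ W ⊓ LinearMap.ker (T x - μ • (1 : V →ₗ[ℂ] V)) := by
        refine ⟨w.2, (hker _).mpr ?_⟩
        have := hw.apply_eq_smul
        exact congrArg Subtype.val this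
      rw [h0, Submodule.mem_bot] at h1
      exact hw.2 (Subtype.ext h1)
    · intro y v hv
      refine ⟨hWi y v hv.1, (hker _).mpr ?_⟩
      have h2 := (hker v).mp hv.2
      have h3 : T x (T y v) = T y (T x v) := by
        have := congrArg (fun f => f v) (hT x y)
        simpa using this
      rw [h3, h2, map_smul]
  choose chi hchi using hsc
  obtain ⟨v, hv, hv0⟩ := Submodule.exists_mem_ne_zero_of_ne_bot hW0
  exact ⟨chi, v, hWE hv, hv0, fun x => hchi x v hv⟩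

section sp

variable {G : Type*} [Group G] [Fintype G]

/-- left translation of functions -/
noncomputable def tr (x : G) : (G → ℂ) →ₗ[ℂ] (G → ℂ) where
  toFun w := fun g => w (x * g)
  map_add' _ _ := rfl
  map_smul' _ _ := rfl

/-- a matrix commuting with all left translations -/
def Lin (K : Matrix G G ℝ) : Prop := ∀ x g h, K (x * g) (x * h) = K g h

theorem lin_mul {K L : Matrix G G ℝ} (hK : Lin K) (hL : Lin L) : Lin (K * L) := by
  intro x g h
  rw [Matrix.mul_apply, Matrix.mul_apply]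
  exact (Fintype.sum_equiv (Equiv.mulLeft x) _ _ fun y => by
    rw [Equiv.coe_mulLeft, hK, hL]).symm

theorem lin_conj {K : Matrix G G ℝ} (hK : Lin K) : Lin Kᴴ := by
  intro x g h
  rw [Matrix.conjTranspose_apply, Matrix.conjTranspose_apply, hK]

theorem lin_add {K L : Matrix G G ℝ} (hK : Lin K) (hL : Lin L) : Lin (K + L) := by
  intro x g h
  rw [Matrix.add_apply, Matrix.add_apply, hK, hL]

theorem lin_sub {K L : Matrix G G ℝ} (hK : Lin K) (hL : Lin L) : Lin (K - L) := by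
  intro x g h
  rw [Matrix.sub_apply, Matrix.sub_apply, hK, hL]

theorem lin_smul {K : Matrix G G ℝ} (c : ℝ) (hK : Lin K) : Lin (c • K) := by
  intro x g h
  rw [Matrix.smul_apply, Matrix.smul_apply, hK]

theorem tr_mulVec {K : Matrix G G ℝ} (hK : Lin K) (x : G) (w : G → ℂ) :
    K.map Complex.ofRealHom *ᵥ (tr x w) = tr x (K.map Complex.ofRealHom *ᵥ w) := by
  funext g
  change ∑ h, (K g h : ℂ) * w (x * h) = ∑ h, (K (x * g) h : ℂ) * w h
  exact Fintype.sum_equiv (Equiv.mulLeft x) _ _ fun y => by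
    rw [Equiv.coe_mulLeft, hK]

/-- the left invariant subspaces of the space of functions -/
def LInv (U : Submodule ℂ (G → ℂ)) : Prop := ∀ x : G, ∀ u ∈ U, tr x u ∈ U

/-- a minimal nonzero left invariant subspace -/
def IsIrr (U : Submodule ℂ (G → ℂ)) : Prop :=
  U ≠ ⊥ ∧ LInv U ∧ ∀ W : Submodule ℂ (G → ℂ), W ≤ U → W ≠ ⊥ → LInv W → W = U

omit [Fintype G] in
theorem irrle_iff {D : ℕ} : IrrLe G D ↔
    ∀ U : Submodule ℂ (G → ℂ), IsIrr U → finrank ℂ U ≤ D :=
  ⟨fun h U hU => h U hU.1 hU.2.1 hU.2.2, fun h U h1 h2 h3 => h U ⟨h1, h2, h3⟩⟩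

theorem exists_irr (E : Submodule ℂ (G → ℂ)) (hE : E ≠ ⊥) (hinv : LInv E) :
    ∃ U : Submodule ℂ (G → ℂ), U ≤ E ∧ IsIrr U := by
  classical
  have hex : ∃ n : ℕ, ∃ W : Submodule ℂ (G → ℂ), W ≤ E ∧ W ≠ ⊥ ∧ LInv W ∧
      finrank ℂ W = n := ⟨_, E, le_rfl, hE, hinv, rfl⟩
  obtain ⟨W, hWE, hW0, hWi, hWn⟩ := Nat.find_spec hex
  refine ⟨W, hWE, hW0, hWi, fun W' h1 h2 h3 => ?_⟩
  apply Submodule.eq_of_le_of_finrank_le h1
  rw [hWn]
  exact Nat.find_min' hex ⟨W', h1.trans hWE, h2, h3, rfl⟩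

theorem tr_tr (x y : G) (w : G → ℂ) : tr x (tr y w) = tr (y * x) w := by
  funext g
  change w (y * (x * g)) = w (y * x * g)
  rw [mul_assoc]

/-- an abelian subgroup of index `D` bounds the degrees by `D` -/
theorem irrle_of_abelian (H : Subgroup G) (hH : ∀ x ∈ H, ∀ y ∈ H, x * y = y * x) :
    IrrLe G H.index := by
  classical
  rw [irrle_iff]
  intro U hU
  obtain ⟨chi, u, huU, hu0, hchi⟩ := common (X := H) (fun x => tr (x : G))
    (fun x y => by
      refine LinearMap.ext fun w => ?_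
      change tr (x : G) (tr (y : G) w) = tr (y : G) (tr (x : G) w)
      rw [tr_tr, tr_tr, hH x x.2 y y.2])
    U hU.1 (fun x w hw => hU.2.1 _ w hw)
  have hinv : LInv (Submodule.span ℂ (Set.range fun g : G => tr g u)) := by
    intro x w hw
    induction hw using Submodule.span_induction with
    | mem w hw =>
      obtain ⟨g, rfl⟩ := hw
      change tr x (tr g u) ∈ _
      rw [tr_tr]
      exact Submodule.subset_span ⟨g * x, rfl⟩
    | zero => rw [map_zero]; exact Submodule.zero_mem _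
    | add a b _ _ ha hb => rw [map_add]; exact Submodule.add_mem _ ha hb
    | smul c a _ ha => rw [map_smul]; exact Submodule.smul_mem _ _ ha
  have h1 : Submodule.span ℂ (Set.range fun g : G => tr g u) = U := by
    apply hU.2.2
    · rw [Submodule.span_le]
      rintro _ ⟨g, rfl⟩
      exact hU.2.1 g u huU
    · intro h0
      have h2 : tr 1 u ∈ Submodule.span ℂ (Set.range fun g : G => tr g u) :=
        Submodule.subset_span ⟨1, rfl⟩
      rw [h0, Submodule.mem_bot] at h2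
      apply hu0
      funext g
      have := congrFun h2 g
      change u (1 * g) = 0 at this
      rwa [one_mul] at this
    · exact hinv
  have h2 : Submodule.span ℂ (Set.range fun g : G => tr g u) ≤
      Submodule.span ℂ (Set.range fun q : G ⧸ H => tr (q.out)⁻¹ u) := by
    rw [Submodule.span_le]
    rintro _ ⟨g, rfl⟩
    obtain ⟨h, hh⟩ := QuotientGroup.mk_out_eq_mul H g⁻¹
    have h3 : g = (h : G) * ((QuotientGroup.mk g⁻¹ : G ⧸ H).out)⁻¹ := by
      rw [hh]; group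
    have h4 : tr g u = chi h • tr ((QuotientGroup.mk g⁻¹ : G ⧸ H).out)⁻¹ u := by
      have h5 : tr g u = tr ((h : G) * ((QuotientGroup.mk g⁻¹ : G ⧸ H).out)⁻¹) u := by rw [← h3]
      rw [h5, ← tr_tr, hchi, map_smul]
    change tr g u ∈ _
    rw [h4]
    exact Submodule.smul_mem _ _ (Submodule.subset_span ⟨_, rfl⟩)
  rw [← h1]
  calc finrank ℂ (Submodule.span ℂ (Set.range fun g : G => tr g u))
      ≤ finrank ℂ (Submodule.span ℂ (Set.range fun q : G ⧸ H => tr (q.out)⁻¹ u)) :=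
        Submodule.finrank_mono h2
    _ ≤ Fintype.card (G ⧸ H) := by
        exact finrank_range_le_card _
    _ = H.index := by rw [Fintype.card_eq_nat_card]; rfl

/-- ROW eigx. -/
theorem eigx [DecidableEq G] {D : ℕ} (hD : IrrLe G D) {m : ℕ}
    (hm : 3 ≤ m) {l : ℝ} (hl : 0 < l) (s : Matrix G G ℝ) (k : Fin m → Matrix G G ℝ)
    (hsi : Lin s) (hki : ∀ i, Lin (k i)) (hc : ∀ i, k i * s = s * k i)
    (hq : ∀ i, k i * k i = (l • (1 : Matrix G G ℝ) + (1 / 4 : ℝ) • s) * s)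
    (hs : ∑ i, k i = (-(((m : ℝ) - 2) / 2)) • s) {a : ℝ} (ha : 0 < a) {v : G → ℝ} (hv : v ≠ 0)
    (hsv : s *ᵥ v = a • v) :
    ∃ g : ℝ, 0 < g ∧ g ^ 2 * (4 * l + a) = ((m : ℝ) - 2) ^ 2 * a ∧
      (D : ℝ) * g ≤ D * (m - 2) - 2 := by
  have hm' : (3 : ℝ) ≤ m := by exact_mod_cast hm
  obtain ⟨r, hr⟩ : ∃ r : ℝ, r = √(l * a + a ^ 2 / 4) := ⟨_, rfl⟩
  have hla : 0 < l * a := mul_pos hl ha
  have hpos : 0 < l * a + a ^ 2 / 4 := by positivity
  have hr0 : 0 < r := by rw [hr]; exact Real.sqrt_pos.mpr hpos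
  have hr2 : r ^ 2 = l * a + a ^ 2 / 4 := by rw [hr]; exact Real.sq_sqrt hpos.le
  have hra : a / 2 < r := by
    by_contra hcon
    have h1 : r ≤ a / 2 := not_lt.mp hcon
    nlinarith
  obtain ⟨g, hg⟩ : ∃ g : ℝ, g = ((m : ℝ) - 2) * a / (2 * r) := ⟨_, rfl⟩
  have hgr : g * (2 * r) = ((m : ℝ) - 2) * a := by rw [hg]; field_simp
  have hg0 : 0 < g := by
    rw [hg]; apply div_pos
    · exact mul_pos (by linarith) ha
    · positivity
  have hg1 : g < (m : ℝ) - 2 := by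
    rw [hg, div_lt_iff₀ (by positivity)]
    have : a < 2 * r := by linarith
    exact mul_lt_mul_of_pos_left this (by linarith)
  have hg2 : g ^ 2 * (4 * l + a) = ((m : ℝ) - 2) ^ 2 * a := by
    have h1 : (g * (2 * r)) ^ 2 = (((m : ℝ) - 2) * a) ^ 2 := by rw [hgr]
    have h2 : (g ^ 2 * (4 * l + a)) * a = (((m : ℝ) - 2) ^ 2 * a) * a := by
      have h3 : (g * (2 * r)) ^ 2 = g ^ 2 * (4 * r ^ 2) := by ring
      rw [h3, hr2] at h1
      linear_combination h1
    exact mul_right_cancel₀ ha.ne' h2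
  -- complexification
  obtain ⟨sc, hsc⟩ : ∃ sc : Matrix G G ℂ, sc = s.map Complex.ofRealHom := ⟨_, rfl⟩
  obtain ⟨kc, hkc⟩ : ∃ kc : Fin m → Matrix G G ℂ, ∀ i, kc i = (k i).map Complex.ofRealHom :=
    ⟨_, fun i => rfl⟩
  have hcc : ∀ i, kc i * sc = sc * kc i := by
    intro i
    rw [hkc, hsc, ← Matrix.map_mul, ← Matrix.map_mul, hc]
  have hqc : ∀ i, kc i * kc i = ((l : ℂ) • (1 : Matrix G G ℂ) + (1 / 4 : ℂ) • sc) * sc := by
    intro i
    rw [hkc, hsc, ← Matrix.map_mul, hq, Matrix.map_mul]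
    congr 1
    ext x y
    by_cases hxy : x = y <;> simp [hxy]
  have hsumc : ∑ i, kc i = (-(((m : ℂ) - 2) / 2)) • sc := by
    ext x y
    have h1 := congrFun (congrFun hs x) y
    rw [Matrix.sum_apply, Matrix.smul_apply, smul_eq_mul] at h1
    rw [Matrix.sum_apply, Matrix.smul_apply, smul_eq_mul, hsc]
    simp only [hkc, Matrix.map_apply]
    rw [← map_sum, h1]
    simp
  have hmemE : ∀ w : G → ℂ, w ∈ Module.End.eigenspace (Matrix.toLin' sc) (a : ℂ) ↔
      sc *ᵥ w = (a : ℂ) • w := by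
    intro w
    rw [Module.End.mem_eigenspace_iff, Matrix.toLin'_apply]
  have hE : Module.End.eigenspace (Matrix.toLin' sc) (a : ℂ) ≠ ⊥ := by
    intro h0
    have h1 : (fun x => ((v x : ℝ) : ℂ)) ∈ Module.End.eigenspace (Matrix.toLin' sc) (a : ℂ) := by
      rw [hmemE]
      funext x
      have h2 := congrFun hsv x
      rw [hsc]
      change ∑ y, ((s x y : ℝ) : ℂ) * ((v y : ℝ) : ℂ) = (a : ℂ) * ((v x : ℝ) : ℂ)
      have h3 : ∑ y, s x y * v y = a * v x := h2
      rw [← Complex.ofReal_mul, ← h3]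
      push_cast
      rfl
    rw [h0, Submodule.mem_bot] at h1
    apply hv
    funext x
    have := congrFun h1 x
    exact Complex.ofReal_eq_zero.mp this
  obtain ⟨U, hUE, hU⟩ := exists_irr _ hE (fun x w hw => by
      rw [hmemE] at hw ⊢
      rw [hsc, tr_mulVec hsi, ← hsc, hw, map_smul])
  obtain ⟨W, hWdef⟩ : ∃ W : Submodule ℂ (U →ₗ[ℂ] (G → ℂ)), ∀ f, f ∈ W ↔
      ((∀ u, sc *ᵥ (f u) = (a : ℂ) • f u) ∧
        ∀ (x : G) (u : U), f ⟨tr x u, hU.2.1 x u u.2⟩ = tr x (f u)) :=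
    ⟨{ carrier := {f | (∀ u, sc *ᵥ (f u) = (a : ℂ) • f u) ∧
        ∀ (x : G) (u : U), f ⟨tr x u, hU.2.1 x u u.2⟩ = tr x (f u)}
       add_mem' := fun {f g} hf hg => ⟨fun u => by
          rw [LinearMap.add_apply, Matrix.mulVec_add, hf.1, hg.1, smul_add], fun x u => by
          rw [LinearMap.add_apply, LinearMap.add_apply, hf.2, hg.2, map_add]⟩
       zero_mem' := ⟨fun u => by
          rw [LinearMap.zero_apply, Matrix.mulVec_zero, smul_zero], fun x u => by
          rw [LinearMap.zero_apply, LinearMap.zero_apply, map_zero]⟩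
       smul_mem' := fun c f hf => ⟨fun u => by
          rw [LinearMap.smul_apply, Matrix.mulVec_smul, hf.1, smul_comm], fun x u => by
          rw [LinearMap.smul_apply, LinearMap.smul_apply, hf.2, map_smul]⟩ }, fun f => Iff.rfl⟩
  have hdim : finrank ℂ W ≤ D := by
    let R : W →ₗ[ℂ] (U →ₗ[ℂ] ℂ) :=
      { toFun := fun f => (LinearMap.proj (1 : G)).comp (f : U →ₗ[ℂ] (G → ℂ))
        map_add' := fun _ _ => rfl
        map_smul' := fun _ _ => rfl }
    have hinj : Function.Injective R := by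
      rw [injective_iff_map_eq_zero]
      intro f hf
      apply Subtype.ext
      refine LinearMap.ext fun u => ?_
      funext g
      have h1 : ((f : U →ₗ[ℂ] (G → ℂ)) ⟨tr g u, hU.2.1 g u u.2⟩) 1 = 0 :=
        congrFun (congrArg DFunLike.coe hf) _
      rw [((hWdef _).mp f.2).2] at h1
      change ((f : U →ₗ[ℂ] (G → ℂ)) u) (g * 1) = 0 at h1
      rw [mul_one] at h1
      exact h1
    have h2 := LinearMap.finrank_le_finrank_of_injective hinj
    have h3 : finrank ℂ (U →ₗ[ℂ] ℂ) = finrank ℂ U := Subspace.dual_finrank_eq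
    rw [h3] at h2
    exact h2.trans (irrle_iff.mp hD U hU)
  have hfr : 0 < finrank ℂ W := by
    refine (finrank_pos_iff_exists_ne_zero (R := ℂ) (M := W)).mpr ?_
    refine ⟨⟨U.subtype, (hWdef _).mpr ⟨fun u => (hmemE _).mp (hUE u.2), fun x u => rfl⟩⟩, ?_⟩
    intro h0
    obtain ⟨u, hu, hu0⟩ := Submodule.exists_mem_ne_zero_of_ne_bot hU.1
    have h1 := congrArg Subtype.val h0
    have h2 := congrArg (fun f : U →ₗ[ℂ] (G → ℂ) => f ⟨u, hu⟩) h1
    exact hu0 h2
  have hmap : ∀ i, ∀ f ∈ W, (Matrix.toLin' (kc i)).comp f ∈ W := by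
    intro i f hf
    rw [hWdef] at hf ⊢
    refine ⟨fun u => ?_, fun x u => ?_⟩
    · rw [LinearMap.comp_apply, Matrix.toLin'_apply, Matrix.mulVec_mulVec, ← hcc i,
        ← Matrix.mulVec_mulVec, hf.1, Matrix.mulVec_smul]
    · rw [LinearMap.comp_apply, LinearMap.comp_apply, hf.2, Matrix.toLin'_apply,
        Matrix.toLin'_apply, hkc, ← tr_mulVec (hki i)]
  obtain ⟨K, hK⟩ : ∃ K : Fin m → (W →ₗ[ℂ] W), ∀ i f,
      ((K i f : _) : U →ₗ[ℂ] (G → ℂ)) = (Matrix.toLin' (kc i)).comp (f : U →ₗ[ℂ] (G → ℂ)) :=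
    ⟨fun i => { toFun := fun f => ⟨(Matrix.toLin' (kc i)).comp (f : U →ₗ[ℂ] (G → ℂ)), hmap i f f.2⟩
                map_add' := fun f g => Subtype.ext (LinearMap.comp_add _ _ _)
                map_smul' := fun c f => Subtype.ext (LinearMap.comp_smul _ _ _) },
      fun i f => rfl⟩
  have hr2c : ((r : ℂ)) ^ 2 = l * a + a ^ 2 / 4 := by exact_mod_cast hr2
  have hr0c : (r : ℂ) ≠ 0 := by exact_mod_cast hr0.ne'
  have hKK : ∀ i, K i * K i = ((r : ℂ) ^ 2) • (1 : W →ₗ[ℂ] W) := by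
    intro i
    refine LinearMap.ext fun f => ?_
    apply Subtype.ext
    refine LinearMap.ext fun u => ?_
    have hx := ((hWdef _).mp f.2).1 u
    rw [Module.End.mul_apply, hK, hK, LinearMap.comp_apply, LinearMap.comp_apply,
      Matrix.toLin'_apply, Matrix.toLin'_apply, Matrix.mulVec_mulVec, hqc,
      ← Matrix.mulVec_mulVec, hx,
      Matrix.mulVec_smul, Matrix.add_mulVec, Matrix.smul_mulVec, Matrix.smul_mulVec, hx,
      Matrix.one_mulVec, LinearMap.smul_apply, Module.End.one_apply, Submodule.coe_smul,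
      LinearMap.smul_apply, hr2c]
    module
  have hKs : ∑ i, K i = (-(((m : ℂ) - 2) / 2) * a) • (1 : W →ₗ[ℂ] W) := by
    refine LinearMap.ext fun f => ?_
    apply Subtype.ext
    refine LinearMap.ext fun u => ?_
    have hx := ((hWdef _).mp f.2).1 u
    rw [LinearMap.sum_apply, Submodule.coe_sum, Finset.sum_congr rfl (fun i _ => hK i f),
      LinearMap.sum_apply]
    simp only [LinearMap.comp_apply, Matrix.toLin'_apply]
    rw [← Matrix.sum_mulVec, hsumc, Matrix.smul_mulVec, hx, LinearMap.smul_apply,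
      Module.End.one_apply, Submodule.coe_smul, LinearMap.smul_apply, smul_smul]
  have hP : ∀ i, ((1 / 2 : ℂ) • (1 + (r : ℂ)⁻¹ • K i)) * ((1 / 2 : ℂ) • (1 + (r : ℂ)⁻¹ • K i))
      = (1 / 2 : ℂ) • (1 + (r : ℂ)⁻¹ • K i) := by
    intro i
    have h1 : (1 + (r : ℂ)⁻¹ • K i) * (1 + (r : ℂ)⁻¹ • K i) = (2 : ℂ) • (1 + (r : ℂ)⁻¹ • K i) := by
      rw [mul_add, add_mul, add_mul, one_mul, mul_one, one_mul, smul_mul_smul_comm, hKK, smul_smul]
      have : (r : ℂ)⁻¹ * (r : ℂ)⁻¹ * (r : ℂ) ^ 2 = 1 := by field_simp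
      rw [this]
      module
    rw [smul_mul_smul_comm, h1, smul_smul]
    norm_num
  have hgc : (g : ℂ) * (2 * r) = ((m : ℂ) - 2) * a := by exact_mod_cast hgr
  have hsum : ∑ i, (1 / 2 : ℂ) • (1 + (r : ℂ)⁻¹ • K i) = ((((m : ℝ) - g) / 2 : ℝ) : ℂ) •
      (1 : W →ₗ[ℂ] W) := by
    rw [← Finset.smul_sum, Finset.sum_add_distrib, ← Finset.smul_sum, hKs, Finset.sum_const,
      Finset.card_univ, Fintype.card_fin, ← Nat.cast_smul_eq_nsmul ℂ, smul_smul, ← add_smul,
      smul_smul]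
    congr 1
    push_cast
    have h2 : (r : ℂ)⁻¹ * (-(((m : ℂ) - 2) / 2) * a) = -(g : ℂ) := by
      have h3 : (-(((m : ℂ) - 2) / 2) * a) = (r : ℂ) * (-(g : ℂ)) := by
        linear_combination (1 / 2 : ℂ) * hgc
      rw [h3, ← mul_assoc, inv_mul_cancel₀ hr0c, one_mul]
    linear_combination (1 / 2 : ℂ) * h2
  have hfin := ranksC (E := W) _ hP (c := ((m : ℝ) - g) / 2) (by linarith) hsum hfr
  refine ⟨g, hg0, hg2, ?_⟩
  have hd : (finrank ℂ W : ℝ) ≤ D := by exact_mod_cast hdim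
  nlinarith [mul_le_mul_of_nonneg_right hd (sub_pos.mpr hg1).le]

end sp

section fin

variable {G : Type*} [Group G] [Fintype G] {m k l : ℕ} {A : Fin m → Finset G}

theorem lin_rmat (f : G → ℤ) : Lin (rmat f) := by
  intro x g h
  simp only [rmat]
  congr 2
  group

theorem lin_PP : Lin (PP G) := fun _ _ _ => rfl

theorem lin_SM : Lin (SM k A * (SM k A)ᴴ) := by
  have h : Lin (SM k A) := lin_sub (lin_rmat _) (lin_smul _ lin_PP)
  exact lin_mul h (lin_conj h)

/-- `frm` with matrices commuting with the left translations -/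
theorem frmx [DecidableEq G] (hA : IsSEDF m k l A) (hm : 3 ≤ m) (hl : 1 ≤ l) :
    ∃ K : Fin m → Matrix G G ℝ,
      (∀ i, K i * (SM k A * (SM k A)ᴴ) = (SM k A * (SM k A)ᴴ) * K i) ∧
      (∀ i, K i * K i = ((l : ℝ) • (1 : Matrix G G ℝ) + (1 / 4 : ℝ) • (SM k A * (SM k A)ᴴ)) *
        (SM k A * (SM k A)ᴴ)) ∧
      ∑ i, K i = (-(((m : ℝ) - 2) / 2)) • (SM k A * (SM k A)ᴴ) ∧ ∀ i, Lin (K i) := by
  set n : ℝ := (Fintype.card G : ℝ) with hn
  have hlpos : (0 : ℝ) < l := by exact_mod_cast hl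
  obtain ⟨M, hM⟩ : ∃ M : Fin m → Matrix G G ℝ, ∀ i, M i = rmat (ind (A i)) :=
    ⟨_, fun i => rfl⟩
  obtain ⟨T, hT⟩ : ∃ T : Matrix G G ℝ, T = rmat (fun g => ∑ j, ind (A j) g) := ⟨_, rfl⟩
  have hsumM : ∑ i, M i = T := by
    ext h y
    simp only [hM, hT, Matrix.sum_apply, rmat]
    push_cast; rfl
  have hMP : ∀ i, M i * PP G = (k : ℝ) • PP G := by
    intro i; rw [hM]; simp only [rmat_mul_PP, sum_ind, hA.1]; simp
  have hPM : ∀ i, PP G * M i = (k : ℝ) • PP G := by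
    intro i; rw [hM]; simp only [PP_mul_rmat, sum_ind, hA.1]; simp
  have hTs : ((∑ u : G, ∑ j, ind (A j) u : ℤ) : ℝ) = m * k := by
    rw [Finset.sum_comm]
    simp only [sum_ind, hA.1]
    simp
  have hTP : T * PP G = (m * k : ℝ) • PP G := by rw [hT, rmat_mul_PP, hTs]
  have hPT : PP G * T = (m * k : ℝ) • PP G := by rw [hT, PP_mul_rmat, hTs]
  have hpar : (k : ℝ) * (m * k - k) = l * (n - 1) := by
    have := param hA ⟨0, by omega⟩
    rw [hn]
    exact_mod_cast this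
  have hmain : ∀ i, M i * Tᴴ = M i * (M i)ᴴ + (l : ℝ) • (n • PP G - 1) := by
    intro i; rw [hM, hT, hn]; exact main_identity hA i
  obtain ⟨S', hS'⟩ : ∃ S' : Matrix G G ℝ, S' = T - (m * k : ℝ) • PP G := ⟨_, rfl⟩
  have hSM : SM k A = S' := by rw [hS', hT, SM]
  rw [hSM]
  obtain ⟨al, hal⟩ : ∃ al : Fin m → Matrix G G ℝ, ∀ i, al i = M i - (k : ℝ) • PP G :=
    ⟨_, fun i => rfl⟩
  have hS'P : S' * PP G = 0 := by
    rw [hS', Matrix.sub_mul, hTP, Matrix.smul_mul, PP_mul_PP, sub_self]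
  have halP : ∀ i, al i * PP G = 0 := by
    intro i
    simp only [hal, Matrix.sub_mul, hMP, Matrix.smul_mul, PP_mul_PP, sub_self]
  have hPS' : PP G * S'ᴴ = 0 := by
    have := congrArg Matrix.conjTranspose hS'P
    rw [Matrix.conjTranspose_mul, PP_conjTranspose, Matrix.conjTranspose_zero] at this
    exact this
  have hPal : ∀ i, PP G * (al i)ᴴ = 0 := by
    intro i
    have := congrArg Matrix.conjTranspose (halP i)
    rw [Matrix.conjTranspose_mul, PP_conjTranspose, Matrix.conjTranspose_zero] at this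
    exact this
  have hS'H : S'ᴴ = Tᴴ - (m * k : ℝ) • PP G := by
    rw [hS', Matrix.conjTranspose_sub, Matrix.conjTranspose_smul, PP_conjTranspose]; simp
  have halH : ∀ i, (al i)ᴴ = (M i)ᴴ - (k : ℝ) • PP G := by
    intro i
    simp only [hal, Matrix.conjTranspose_sub, Matrix.conjTranspose_smul, PP_conjTranspose]
    simp
  have key : ∀ i, al i * S'ᴴ = al i * (al i)ᴴ - (l : ℝ) • (1 - PP G) := by
    intro i
    have e1 : al i * S'ᴴ = M i * Tᴴ - (m * k * k : ℝ) • PP G := by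
      have : al i * S'ᴴ = M i * S'ᴴ := by
        rw [hal]; simp only [Matrix.sub_mul, Matrix.smul_mul, hPS', smul_zero, sub_zero]
      rw [this, hS'H, Matrix.mul_sub, Matrix.mul_smul, hMP, smul_smul]
    have e2 : al i * (al i)ᴴ = M i * (M i)ᴴ - (k * k : ℝ) • PP G := by
      have : al i * (al i)ᴴ = M i * (al i)ᴴ := by
        have h0 : al i * (al i)ᴴ = (M i - (k : ℝ) • PP G) * (al i)ᴴ := by rw [← hal]
        rw [h0]
        simp only [Matrix.sub_mul, Matrix.smul_mul, hPal, smul_zero, sub_zero]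
      rw [this, halH, Matrix.mul_sub, Matrix.mul_smul, hMP, smul_smul]
    rw [e1, e2, hmain]
    have hc : (m * k * k : ℝ) = l * (n - 1) + k * k := by rw [← hpar]; ring
    rw [hc]
    module
  have key' : ∀ i, S' * (al i)ᴴ = al i * (al i)ᴴ - (l : ℝ) • (1 - PP G) := by
    intro i
    have := congrArg Matrix.conjTranspose (key i)
    rw [Matrix.conjTranspose_mul, Matrix.conjTranspose_conjTranspose, Matrix.conjTranspose_sub,
      Matrix.conjTranspose_mul, Matrix.conjTranspose_conjTranspose, Matrix.conjTranspose_smul,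
      Matrix.conjTranspose_sub, PP_conjTranspose] at this
    simpa using this
  set r : ℝ := Real.sqrt l with hr
  have hrr : r * r = l := Real.mul_self_sqrt hlpos.le
  obtain ⟨b, hb⟩ : ∃ b : Fin m → Matrix G G ℝ,
      ∀ i, b i = al i - (1 / 2 : ℝ) • S' + r • PP G := ⟨_, fun i => rfl⟩
  have hbH : ∀ i, (b i)ᴴ = (al i)ᴴ - (1 / 2 : ℝ) • S'ᴴ + r • PP G := by
    intro i
    rw [hb]
    simp only [Matrix.conjTranspose_add, Matrix.conjTranspose_sub, Matrix.conjTranspose_smul,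
      PP_conjTranspose]
    simp
  have hbS : ∀ i, b i * S'ᴴ = al i * S'ᴴ - (1 / 2 : ℝ) • (S' * S'ᴴ) := by
    intro i
    rw [hb]
    simp only [Matrix.add_mul, Matrix.sub_mul, Matrix.smul_mul, hPS', smul_zero, add_zero]
  have hSb : ∀ i, S' * (b i)ᴴ = S' * (al i)ᴴ - (1 / 2 : ℝ) • (S' * S'ᴴ) := by
    intro i
    rw [hbH]
    simp only [Matrix.mul_add, Matrix.mul_sub, Matrix.mul_smul, hS'P, smul_zero, add_zero]
  have hQ : ∀ i, b i * (b i)ᴴ = (l : ℝ) • (1 : Matrix G G ℝ) + (1 / 4 : ℝ) • (S' * S'ᴴ) := by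
    intro i
    have e1 : b i * (b i)ᴴ = al i * (al i)ᴴ - (1 / 2 : ℝ) • (al i * S'ᴴ)
        - (1 / 2 : ℝ) • (S' * (al i)ᴴ) + (1 / 4 : ℝ) • (S' * S'ᴴ) + (r * r) • PP G := by
      have f1 : b i * (b i)ᴴ = b i * (al i)ᴴ - (1 / 2 : ℝ) • (b i * S'ᴴ) + r • (b i * PP G) := by
        rw [hbH]; simp only [Matrix.mul_add, Matrix.mul_sub, Matrix.mul_smul]
      have f2 : b i * (al i)ᴴ = al i * (al i)ᴴ - (1 / 2 : ℝ) • (S' * (al i)ᴴ) := by
        rw [hb]
        simp only [Matrix.add_mul, Matrix.sub_mul, Matrix.smul_mul, hPal, smul_zero, add_zero]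
      have f3 : b i * PP G = r • PP G := by
        rw [hb]
        simp only [Matrix.add_mul, Matrix.sub_mul, Matrix.smul_mul, halP, hS'P, PP_mul_PP,
          smul_zero, sub_zero, zero_add]
      rw [f1, f2, f3, hbS]
      module
    rw [e1, key, key', hrr]
    module
  have hH : ∀ i, b i * S'ᴴ = S' * (b i)ᴴ := by
    intro i; rw [hbS, hSb, key, key']
  have hsal : ∑ i, al i = S' := by
    simp only [hal]
    rw [hS', ← hsumM, Finset.sum_sub_distrib]
    congr 1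
    rw [Finset.sum_const, Finset.card_univ, Fintype.card_fin, ← Nat.cast_smul_eq_nsmul ℝ, smul_smul]
  have hs : ∑ i, b i * S'ᴴ = (-(((m : ℝ) - 2) / 2)) • (S' * S'ᴴ) := by
    simp only [hbS]
    rw [Finset.sum_sub_distrib, ← Finset.sum_mul, hsal, Finset.sum_const, Finset.card_univ,
      Fintype.card_fin, ← Nat.cast_smul_eq_nsmul ℝ, smul_smul]
    module
  have hp := fun i => k_props (l : ℝ) hlpos S' (b i) (hQ i) (hH i)
  have hlS : Lin S' := by
    rw [hS', hT]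
    exact lin_sub (lin_rmat _) (lin_smul _ lin_PP)
  have hlb : ∀ i, Lin (b i) := by
    intro i
    rw [hb, hal, hM]
    exact lin_add (lin_sub (lin_sub (lin_rmat _) (lin_smul _ lin_PP)) (lin_smul _ hlS))
      (lin_smul _ lin_PP)
  exact ⟨fun i => b i * S'ᴴ, fun i => (hp i).1, fun i => (hp i).2, hs,
    fun i => lin_mul (hlb i) (lin_conj hlS)⟩

theorem gbx {m D : ℕ} {l a g : ℝ} (hl : 0 < l) (ha : 0 < a) (hg : 0 < g)
    (h1 : g ^ 2 * (4 * l + a) = ((m : ℝ) - 2) ^ 2 * a)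
    (h2 : (D : ℝ) * g ≤ D * (m - 2) - 2) :
    2 < (D : ℝ) * (m - 2) ∧ ((D : ℝ) * (m - 2) - 1) * a ≤ l * (D * (m - 2) - 2) ^ 2 := by
  have hD' : (0 : ℝ) < D := by
    have hD : D ≠ 0 := by
      rintro rfl
      norm_num at h2
    exact_mod_cast Nat.pos_of_ne_zero hD
  have h3 : 0 < (D : ℝ) * g := mul_pos hD' hg
  refine ⟨by linarith, ?_⟩
  obtain ⟨q, hq⟩ : ∃ q : ℝ, q = (D : ℝ) * (m - 2) := ⟨_, rfl⟩
  rw [← hq] at h2 ⊢
  have h4 : ((D : ℝ) * g) ^ 2 ≤ (q - 2) ^ 2 := by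
    apply pow_le_pow_left₀ h3.le h2
  have h5 : ((D : ℝ) * g) ^ 2 * (4 * l + a) = q ^ 2 * a := by
    rw [hq]; linear_combination (D : ℝ) ^ 2 * h1
  have h6 : q ^ 2 * a ≤ (q - 2) ^ 2 * (4 * l + a) := by
    rw [← h5]
    exact mul_le_mul_of_nonneg_right h4 (by linarith)
  nlinarith

theorem dvk {K l A Y : ℕ} (hK : 1 ≤ K) (hY : 0 < Y) (h : Y ^ 2 + A * Y = l * A)
    (hb : (K : ℤ) * A ≤ l * ((K : ℤ) - 1) ^ 2) :
    Y < l ∧ (l - Y) ∣ l ^ 2 ∧ l ≤ K * (l - Y) := by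
  have hYl : Y < l := by
    by_contra hcon
    have h1 : l ≤ Y := not_lt.mp hcon
    have h2 : l * A ≤ A * Y := by rw [mul_comm l A]; exact Nat.mul_le_mul_left _ h1
    have h3 : 0 < Y ^ 2 := by positivity
    omega
  obtain ⟨d, hd⟩ : ∃ d : ℕ, l = d + Y := ⟨l - Y, by omega⟩
  have hd0 : 0 < d := by omega
  have hdd : l - Y = d := by omega
  rw [hdd]
  subst hd
  have hY2 : Y ^ 2 = d * A := by nlinarith
  refine ⟨hYl, ?_, ?_⟩
  · have : (d + Y) ^ 2 = d * (d + 2 * Y + A) := by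
      rw [add_sq, hY2]; ring
    rw [this]; exact Dvd.intro _ rfl
  · by_contra hcon
    have h1 : K * d < d + Y := not_le.mp hcon
    have h1' : (K : ℤ) * d + 1 ≤ d + Y := by exact_mod_cast h1
    have h2 : (Y : ℤ) ^ 2 = d * A := by exact_mod_cast hY2
    have h3 : (K : ℤ) * Y ^ 2 ≤ d * ((d + Y) * ((K : ℤ) - 1) ^ 2) := by
      rw [h2]
      push_cast at hb
      have := mul_le_mul_of_nonneg_left hb (show (0 : ℤ) ≤ d by positivity)
      linarith
    have hK' : (1 : ℤ) ≤ K := by exact_mod_cast hK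
    have hd' : (1 : ℤ) ≤ d := by exact_mod_cast hd0
    have hYp : (1 : ℤ) ≤ Y := by exact_mod_cast hY
    have h4 : 0 < ((K : ℤ) * (d + Y) - d) * ((d + Y) - K * d) := by
      apply mul_pos
      · nlinarith
      · linarith
    nlinarith

theorem eigsx [DecidableEq G] (hA : IsSEDF m k l A) (hm : 3 ≤ m) (hl : 1 ≤ l) {D : ℕ}
    (hD : IrrLe G D) {a : ℝ}
    (ha : 0 < a) {v : G → ℝ} (hv : v ≠ 0) (h : (SM k A * (SM k A)ᴴ) *ᵥ v = a • v) :
    2 < (D : ℝ) * (m - 2) ∧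
      ((D : ℝ) * (m - 2) - 1) * a ≤ l * (D * (m - 2) - 2) ^ 2 := by
  obtain ⟨K, h1, h2, h3, h4⟩ := frmx hA hm hl
  have hl0 : (0 : ℝ) < l := by exact_mod_cast hl
  obtain ⟨g, hg, g1, g2⟩ := eigx hD hm hl0 _ K lin_SM h4 h1 h2 h3 ha hv h
  exact gbx hl0 ha hg g1 g2

theorem bndx [DecidableEq G] (hA : IsSEDF m k l A) (hm : 3 ≤ m) (hk : 1 ≤ k) (hl : 1 ≤ l)
    {D : ℕ} (hD : IrrLe G D) :
    (D * (m - 2) - 1) * (m * (Fintype.card G - m * k)) ≤
      (m - 1) * (D * (m - 2) - 2) ^ 2 * k := by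
  by_cases h : ∃ a : ℝ, 0 < a ∧ ∃ v : G → ℝ, v ≠ 0 ∧ (SM k A * (SM k A)ᴴ) *ᵥ v = a • v
  · obtain ⟨a0, ha0, v0, hv0, hav0⟩ := h
    have hq2 := (eigsx hA hm hl hD ha0 hv0 hav0).1
    obtain ⟨q, hq⟩ : ∃ q : ℝ, q = (D : ℝ) * (m - 2) := ⟨_, rfl⟩
    rw [← hq] at hq2
    have hq1 : 0 < q - 1 := by linarith
    have hone : (fun _ : G => (1 : ℝ)) ≠ 0 := by
      intro h0
      have := congrFun h0 (1 : G)
      simp at this
    have ht := trc (SM k A) (B := l * (q - 2) ^ 2 / (q - 1)) (by positivity)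
      (fun a ha v hv hav => by
        rw [le_div_iff₀ hq1, mul_comm]
        have := (eigsx hA hm hl hD ha hv hav).2
        rw [← hq] at this
        exact this) hone (sone hA)
    rw [trs hA, mul_div_assoc', le_div_iff₀ hq1] at ht
    have hp : (k : ℝ) * ((m - 1) * k) = l * (Fintype.card G - 1) := by
      have := param hA ⟨0, by omega⟩
      have h2 : ((k : ℝ) * (m * k - k)) = l * (Fintype.card G - 1) := by exact_mod_cast this
      linear_combination h2
    have hk0 : (0 : ℝ) < k := by exact_mod_cast hk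
    have h5 : (q - 1) * (m * (Fintype.card G - m * k)) * k ≤ (m - 1) * (q - 2) ^ 2 * k * k := by
      have e1 : ((Fintype.card G : ℝ) - 1) * (l * (q - 2) ^ 2) = (m - 1) * (q - 2) ^ 2 * k * k := by
        linear_combination (-(q - 2) ^ 2) * hp
      rw [← e1]
      linarith
    have h6 := le_of_mul_le_mul_right h5 hk0
    have hq3 : 3 ≤ D * (m - 2) := by
      have h7 : (2 : ℝ) < ((D * (m - 2) : ℕ) : ℝ) := by
        push_cast [Nat.cast_sub (show 2 ≤ m by omega)]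
        rw [← hq]
        exact hq2
      have h8 : 2 < D * (m - 2) := by exact_mod_cast h7
      omega
    have hmk := mkn hA
    have hqn : q = (((D * (m - 2) : ℕ) : ℤ) : ℝ) := by
      rw [hq]
      push_cast [Nat.cast_sub (show 2 ≤ m by omega)]
      ring
    rw [hqn] at h6
    zify [show 1 ≤ m by omega, show 2 ≤ m by omega, show 1 ≤ D * (m - 2) by omega,
      show 2 ≤ D * (m - 2) by omega, hmk]
    push_cast [Nat.cast_sub (show 2 ≤ m by omega)] at h6
    exact_mod_cast h6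
  · have h0 := sz hA hm hk (zer _ h)
    rw [h0, Nat.sub_self]
    simp

theorem everyx [DecidableEq G] (hA : IsSEDF m k l A) (hm : 3 ≤ m) (hk : 1 ≤ k) (hl : 1 ≤ l) :
    (m ^ 2 - 3 * m + 1) * (Fintype.card G - m * k) ≤ m * (m - 1) * (m - 3) ^ 2 * k ∧
      Fintype.card G < (m - 1) ^ 2 * k ∧ k < (m - 1) * l ∧
      (∀ D : ℕ, IrrLe G D →
        (D * (m - 2) - 1) * (m * (Fintype.card G - m * k)) ≤
          (m - 1) * (D * (m - 2) - 2) ^ 2 * k) ∧
      (1 < k → ∃ d : ℕ, d ∣ l ^ 2 ∧ d < l ∧ l ≤ (m ^ 2 - 3 * m + 1) * d ∧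
        ∀ D : ℕ, IrrLe G D →
          l ≤ (D * (m - 2) - 1) * d) := by
  have hb := bnd hA hm hk hl
  have hc := cor hm hk hl (mkn hA) hb (parN hA hm)
  refine ⟨hb, hc.1, hc.2, fun D hD => bndx hA hm hk hl hD, fun hk1 => ?_⟩
  by_cases h : ∃ a : ℝ, 0 < a ∧ ∃ v : G → ℝ, v ≠ 0 ∧ (SM k A * (SM k A)ᴴ) *ᵥ v = a • v
  · obtain ⟨a, ha, v, hv, hav⟩ := h
    obtain ⟨h1, B, Y, hB, hY, hBa, hBY⟩ := eigs hA hm hl ha hv hav
    rw [← hBa] at h1
    have h3 : 3 * m ≤ m ^ 2 := by nlinarith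
    have hd1 : (((m ^ 2 - 3 * m + 1 : ℕ) : ℤ)) * B ≤ l * ((((m ^ 2 - 3 * m + 1 : ℕ) : ℤ)) - 1) ^ 2 := by
      push_cast [Nat.cast_sub h3]
      have h4 : ((m : ℤ) ^ 2 - 3 * m + 1) * B ≤ l * (m * (m - 3)) ^ 2 := by exact_mod_cast h1
      have e : ((m : ℤ) ^ 2 - 3 * m + 1 - 1) ^ 2 = (m * (m - 3)) ^ 2 := by ring
      rw [e]
      exact h4
    have r1 := dvk (by omega) hY hBY hd1
    refine ⟨l - Y, r1.2.1, by omega, r1.2.2, fun D hD => ?_⟩
    have h5 := eigsx hA hm hl hD ha hv hav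
    rw [← hBa] at h5
    have hq3 : 3 ≤ D * (m - 2) := by
      have h7 : (2 : ℝ) < ((D * (m - 2) : ℕ) : ℝ) := by
        push_cast [Nat.cast_sub (show 2 ≤ m by omega)]
        exact h5.1
      have h8 : 2 < D * (m - 2) := by exact_mod_cast h7
      omega
    have hd2 : (((D * (m - 2) - 1 : ℕ) : ℤ)) * B ≤
        l * ((((D * (m - 2) - 1 : ℕ) : ℤ)) - 1) ^ 2 := by
      push_cast [Nat.cast_sub (show 2 ≤ m by omega), Nat.cast_sub (show 1 ≤ D * (m - 2) by omega)]
      have h4 : ((D : ℤ) * (m - 2) - 1) * B ≤ l * (D * (m - 2) - 2) ^ 2 := by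
        exact_mod_cast h5.2
      have e : ((D : ℤ) * (m - 2) - 1 - 1) ^ 2 = (D * (m - 2) - 2) ^ 2 := by ring
      rw [e]
      exact h4
    exact (dvk (by omega) hY hBY hd2).2.2
  · have h0 := sz hA hm hk (zer _ h)
    have h1 := parN hA hm
    rw [← h0] at h1
    have h2 := kk hm hk h1
    omega

end fin

end Pool.Agent.Sedf.Abx
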