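import Pool.Agent.Sedf.Params

namespace Pool.Agent.Sedf

open Polynomial Matrix

theorem poly_eq {K : Type*} [Field K] {d : K} (hd : d ≠ 0) {N f g : ℕ} (hf : f ≤ N) (hg : g ≤ N)
    (h : (X : K[X]) ^ (N - f) * (X - C d) ^ f = X ^ (N - g) * (X - C d) ^ g) : f = g := by
  wlog hlt : f < g generalizing f g
  · rcases Nat.lt_trichotomy f g with h1 | h1 | h1
    · exact this hf hg h h1
    · exact h1
    · exact (this hg hf h.symm h1).symm
  exfalso
  obtain ⟨e, rfl⟩ := Nat.exists_eq_add_of_lt hlt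
  have e1 : N - f = (N - (f + e + 1)) + (e + 1) := by omega
  have hXne : (X : K[X]) ^ (N - (f + e + 1)) ≠ 0 := pow_ne_zero _ X_ne_zero
  have hXd : (X - C d : K[X]) ^ f ≠ 0 := pow_ne_zero _ (X_sub_C_ne_zero d)
  have h2 : (X : K[X]) ^ (e + 1) = (X - C d) ^ (e + 1) := by
    apply mul_left_cancel₀ (mul_ne_zero hXne hXd)
    rw [e1, pow_add] at h
    calc X ^ (N - (f + e + 1)) * (X - C d) ^ f * X ^ (e + 1)
        = X ^ (N - (f + e + 1)) * X ^ (e + 1) * (X - C d) ^ f := by ring
      _ = X ^ (N - (f + e + 1)) * (X - C d) ^ (f + e + 1) := h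
      _ = _ := by rw [add_assoc, pow_add]; ring
  have h3 := congrArg (eval 0) h2
  simp only [eval_pow, eval_X, eval_sub, eval_C, zero_sub] at h3
  rw [zero_pow (by omega)] at h3
  exact pow_ne_zero _ (neg_ne_zero.mpr hd) h3.symm

section
variable {G C : Type*} [Group G] [Fintype G] [Group C] [Fintype C]

theorem conv_add_left (f g h : G → ℤ) : conv (f + g) h = conv f h + conv g h := by
  ext z
  simp only [conv, Pi.add_apply, add_mul, Finset.sum_add_distrib]

theorem conv_add_right (f g h : G → ℤ) : conv f (g + h) = conv f g + conv f h := by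
  ext z
  simp only [conv, Pi.add_apply, mul_add, Finset.sum_add_distrib]

theorem conv_smul_left (c : ℤ) (f g : G → ℤ) : conv (c • f) g = c • conv f g := by
  ext z
  simp only [conv, Pi.smul_apply, smul_eq_mul, Finset.mul_sum, mul_assoc]

theorem conv_smul_right (c : ℤ) (f g : G → ℤ) : conv f (c • g) = c • conv f g := by
  ext z
  simp only [conv, Pi.smul_apply, smul_eq_mul, Finset.mul_sum]
  refine Finset.sum_congr rfl fun w _ => ?_
  ring

theorem dlt_conv (f : G → ℤ) : conv dlt f = f := by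
  classical
  ext z
  simp [conv, dlt]

theorem conv_dlt (f : G → ℤ) : conv f dlt = f := by
  classical
  ext z
  simp only [conv, dlt]
  rw [Finset.sum_eq_single z]
  · simp
  · intro w _ hw
    have : ¬ (w⁻¹ * z = 1) := by
      intro h
      exact hw (inv_mul_eq_one.mp h)
    simp [this]
  · simp

theorem tau_add (φ : C →* G) (f g : G → ℤ) (c : C) : tau φ (f + g) c = tau φ f c + tau φ g c := by
  simp only [tau, Pi.add_apply, Finset.sum_add_distrib]

theorem tau_smul (φ : C →* G) (r : ℤ) (f : G → ℤ) (c : C) : tau φ (r • f) c = r * tau φ f c := by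
  simp only [tau, Pi.smul_apply, smul_eq_mul, Finset.mul_sum]

theorem tau_ones (φ : C →* G) (c : C) :
    tau φ (fun _ => 1) c = (Fintype.card (G ⧸ φ.range) : ℤ) := by
  simp [tau]

theorem tau_dlt_one (φ : C →* G) : tau φ (dlt : G → ℤ) 1 = (Fintype.card (G ⧸ φ.range) : ℤ) := by
  simp [tau, dlt]

theorem tau_dlt_ne (φ : C →* G) (hφ : Function.Injective φ) {c : C} (hc : c ≠ 1) :
    tau φ (dlt : G → ℤ) c = 0 := by
  unfold tau dlt
  refine Finset.sum_eq_zero fun t _ => if_neg fun h => hc (hφ ?_)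
  rw [map_one]
  have := mul_inv_eq_one.mp h
  exact mul_left_cancel (this.trans (mul_one _).symm)

end

variable {G : Type*} [Group G] [Fintype G]

/-- An integer function with `F * F = E F` has the same rank for the trivial and the nontrivial
characters of a subgroup of prime order `q` not dividing `E`. -/
theorem rank_eq {q : ℕ} [hq : Fact q.Prime] {ζ : ℂ} (hζ : IsPrimitiveRoot ζ q)
    (φ : Multiplicative (ZMod q) →* G) (hφ : Function.Injective φ) (F : G → ℤ) (E : ℤ)
    (hE : ¬ (q : ℤ) ∣ E) (hF : conv F F = E • F) :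
    (cm φ (chr hζ) F).trace = (cm φ (1 : Multiplicative (ZMod q) →* ℂ) F).trace := by
  classical
  have hE0 : (E : ℂ) ≠ 0 := by
    have : E ≠ 0 := by rintro rfl; exact hE (dvd_zero _)
    exact_mod_cast this
  have hsq : ∀ χ : Multiplicative (ZMod q) →* ℂ, cm φ χ F * cm φ χ F = (E : ℂ) • cm φ χ F := by
    intro χ
    rw [cm_mul φ hφ, hF, cm_smul]
  obtain ⟨f, hfN, hft, hfc⟩ := charpoly_of_sq _ _ hE0 (hsq (chr hζ))
  obtain ⟨g, hgN, hgt, hgc⟩ := charpoly_of_sq _ _ hE0 (hsq 1)
  rw [hft, hgt]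
  congr 2
  set N := Fintype.card (G ⧸ φ.range) with hN
  let R := MonoidAlgebra ℤ (Multiplicative (ZMod q))
  let A : Matrix (G ⧸ φ.range) (G ⧸ φ.range) R := cm φ (MonoidAlgebra.of ℤ _) F
  let h1 : R →+* ℂ := (MonoidAlgebra.lift ℤ ℂ _ (chr hζ)).toRingHom
  let h2 : R →+* ℂ := (MonoidAlgebra.lift ℤ ℂ _ (1 : Multiplicative (ZMod q) →* ℂ)).toRingHom
  have hA1 : A.map h1 = cm φ (chr hζ) F := by
    rw [cm_map]
    congr 1
    ext c
    exact MonoidAlgebra.lift_of _ _
  have hA2 : A.map h2 = cm φ (1 : Multiplicative (ZMod q) →* ℂ) F := by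
    rw [cm_map]
    congr 1
    ext c
    exact MonoidAlgebra.lift_of _ _
  have hv1 : ∀ r : R, h1 r = ∑ c, chr hζ c * ((r.coeff c : ℤ) : ℂ) := by
    intro r
    show (MonoidAlgebra.lift ℤ ℂ _ (chr hζ)) r = _
    rw [MonoidAlgebra.lift_apply, Finsupp.sum_fintype]
    · simp [mul_comm]
    · simp
  have hv2 : ∀ r : R, h2 r = ((∑ c, r.coeff c : ℤ) : ℂ) := by
    intro r
    show (MonoidAlgebra.lift ℤ ℂ _ (1 : Multiplicative (ZMod q) →* ℂ)) r = _
    rw [MonoidAlgebra.lift_apply, Finsupp.sum_fintype]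
    · simp
    · simp
  let Gp : ℕ → ℤ[X] := fun j => X ^ (N - j) * (X - C E) ^ j
  have hGp : ∀ j, (Gp j).map (Int.castRingHom ℂ) = X ^ (N - j) * (X - C (E : ℂ)) ^ j := by
    intro j
    simp [Gp]
  have hP1 : A.charpoly.map h1 = (Gp f).map (Int.castRingHom ℂ) := by
    rw [← Matrix.charpoly_map, hA1, hGp, hfc]
  have hP2 : A.charpoly.map h2 = (Gp g).map (Int.castRingHom ℂ) := by
    rw [← Matrix.charpoly_map, hA2, hGp, hgc]
  have hmod : (Gp f).map (Int.castRingHom (ZMod q)) = (Gp g).map (Int.castRingHom (ZMod q)) := by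
    ext j
    rw [coeff_map, coeff_map]
    have e1 := congrArg (fun p => p.coeff j) hP1
    have e2 := congrArg (fun p => p.coeff j) hP2
    simp only [coeff_map] at e1 e2
    rw [hv1] at e1
    rw [hv2] at e2
    obtain ⟨c', hc1, hc2⟩ := indep hζ (fun c => (A.charpoly.coeff j).coeff c) ((Gp f).coeff j)
      (by simpa using e1)
    have e3 : (∑ c, (A.charpoly.coeff j).coeff c : ℤ) = (Gp g).coeff j := by
      have : ((∑ c, (A.charpoly.coeff j).coeff c : ℤ) : ℂ) = (((Gp g).coeff j : ℤ) : ℂ) := by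
        rw [e2]; simp
      exact_mod_cast this
    have e4 : (∑ c, (A.charpoly.coeff j).coeff c : ℤ) = (Gp f).coeff j + q * c' := by
      rw [← Finset.add_sum_erase _ _ (Finset.mem_univ (1 : Multiplicative (ZMod q))),
        Finset.sum_congr rfl (fun x hx => hc1 x (Finset.ne_of_mem_erase hx)), Finset.sum_const,
        Finset.card_erase_of_mem (Finset.mem_univ _), Finset.card_univ, nsmul_eq_mul,
        Fintype.card_multiplicative, ZMod.card, Nat.cast_sub hq.out.one_le, hc2]
      push_cast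
      ring
    rw [← e3, e4]
    simp
  have hE' : ((E : ℤ) : ZMod q) ≠ 0 := by
    intro h
    exact hE ((ZMod.intCast_zmod_eq_zero_iff_dvd E q).mp h)
  have hfin : (X : (ZMod q)[X]) ^ (N - f) * (X - C (E : ZMod q)) ^ f
      = X ^ (N - g) * (X - C (E : ZMod q)) ^ g := by
    simpa [Gp] using hmod
  exact poly_eq hE' hfN hgN hfin

end Pool.Agent.Sedf
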