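import Mathlib

namespace Pool.Agent.Sedf

open Matrix

/-- Structure lemma: if `b bᴴ = lam + S Sᴴ / 4` and `b Sᴴ` is Hermitian then `k = b Sᴴ` commutes
with `S Sᴴ` and `k² = (lam + S Sᴴ / 4) S Sᴴ`. -/
theorem k_props {N : Type*} [Fintype N] [DecidableEq N] (lam : ℝ) (hl : 0 < lam)
    (S b : Matrix N N ℝ)
    (hQ : b * bᴴ = lam • (1 : Matrix N N ℝ) + (1 / 4 : ℝ) • (S * Sᴴ))
    (hH : b * Sᴴ = S * bᴴ) :
    (b * Sᴴ) * (S * Sᴴ) = (S * Sᴴ) * (b * Sᴴ) ∧
    (b * Sᴴ) * (b * Sᴴ) = (lam • (1 : Matrix N N ℝ) + (1 / 4 : ℝ) • (S * Sᴴ)) * (S * Sᴴ) := by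
  have hpos : (lam • (1 : Matrix N N ℝ) + (1 / 4 : ℝ) • (S * Sᴴ)).PosDef := by
    apply Matrix.PosDef.add_posSemidef
    · exact Matrix.PosDef.one.smul hl
    · exact (Matrix.posSemidef_self_mul_conjTranspose S).smul (by norm_num)
  have hdet : IsUnit b.det := by
    have h1 : (b * bᴴ).det ≠ 0 := by rw [hQ]; exact hpos.det_pos.ne'
    rw [Matrix.det_mul] at h1
    exact isUnit_iff_ne_zero.mpr (left_ne_zero_of_mul h1)
  have hdet' : IsUnit (bᴴ).det := by
    rw [Matrix.det_conjTranspose]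
    exact hdet.star
  set w : Matrix N N ℝ := b⁻¹ * S with hw
  have hS : S = b * w := by rw [hw, Matrix.mul_nonsing_inv_cancel_left _ _ hdet]
  have hwH : wᴴ = w := by
    have h1 : b * (b⁻¹ * S) * bᴴ = b * wᴴ * bᴴ := by
      rw [Matrix.mul_nonsing_inv_cancel_left _ _ hdet, ← hH, Matrix.mul_assoc]
      conv_lhs => rw [hS, Matrix.conjTranspose_mul]
    have h2 : b * wᴴ = b * w := by
      have := congrArg (· * (bᴴ)⁻¹) h1
      simp only [Matrix.mul_nonsing_inv_cancel_right _ _ hdet'] at this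
      rw [this.symm]
    have := congrArg (b⁻¹ * ·) h2
    simpa [Matrix.nonsing_inv_mul_cancel_left _ _ hdet] using this
  have hSH : Sᴴ = w * bᴴ := by
    conv_lhs => rw [hS, Matrix.conjTranspose_mul, hwH]
  set X : Matrix N N ℝ := 1 - (1 / 4 : ℝ) • (w * w) with hX
  have hbXb : b * X * bᴴ = lam • (1 : Matrix N N ℝ) := by
    have : b * X * bᴴ = b * bᴴ - (1 / 4 : ℝ) • (b * w * (w * bᴴ)) := by
      rw [hX]
      simp only [Matrix.mul_sub, Matrix.sub_mul, Matrix.mul_one, Matrix.mul_smul, Matrix.smul_mul,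
        Matrix.mul_assoc]
    rw [this, hQ, ← hSH, ← hS]
    abel
  set M : Matrix N N ℝ := bᴴ * b with hM
  have hXM : X * M = lam • (1 : Matrix N N ℝ) := by
    have h1 : X * bᴴ = lam • b⁻¹ := by
      have := congrArg (b⁻¹ * ·) hbXb
      simp only [Matrix.mul_smul, Matrix.mul_one] at this
      rw [Matrix.mul_assoc, Matrix.nonsing_inv_mul_cancel_left _ _ hdet] at this
      exact this
    rw [hM, ← Matrix.mul_assoc, h1, Matrix.smul_mul, Matrix.nonsing_inv_mul _ hdet]
  have hMX : M * X = lam • (1 : Matrix N N ℝ) := by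
    have h1 : M * X * bᴴ = lam • bᴴ := by
      rw [hM, Matrix.mul_assoc, Matrix.mul_assoc, ← Matrix.mul_assoc b X, hbXb, Matrix.mul_smul,
        Matrix.mul_one]
    have := congrArg (· * (bᴴ)⁻¹) h1
    simp only [Matrix.mul_nonsing_inv_cancel_right _ _ hdet', Matrix.smul_mul,
      Matrix.mul_nonsing_inv _ hdet'] at this
    exact this
  have hwX : w * X = X * w := by
    rw [hX]
    simp only [Matrix.mul_sub, Matrix.sub_mul, Matrix.mul_one, Matrix.one_mul, Matrix.mul_smul,
      Matrix.smul_mul, Matrix.mul_assoc]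
  have hwM : w * M = M * w := by
    have h1 : M * (X * (w * M)) = M * (X * (M * w)) := by
      rw [← Matrix.mul_assoc X w M, ← hwX, Matrix.mul_assoc w X M, hXM, ← Matrix.mul_assoc X M w,
        hXM]
      simp
    rw [← Matrix.mul_assoc M X, ← Matrix.mul_assoc M X, hMX] at h1
    simp only [Matrix.smul_mul, Matrix.one_mul] at h1
    exact smul_right_injective _ hl.ne' h1
  have hk : b * Sᴴ = b * (w * bᴴ) := by rw [hSH]
  have hSS : S * Sᴴ = b * (w * (w * bᴴ)) := by
    rw [hSH]; conv_lhs => rw [hS]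
    simp only [Matrix.mul_assoc]
  refine ⟨?_, ?_⟩
  · rw [hk, hSS]
    have e1 : b * (w * bᴴ) * (b * (w * (w * bᴴ))) = b * ((w * M) * (w * (w * bᴴ))) := by
      rw [hM]; simp only [Matrix.mul_assoc]
    have e2 : b * (w * (w * bᴴ)) * (b * (w * bᴴ)) = b * (w * ((w * M) * (w * bᴴ))) := by
      rw [hM]; simp only [Matrix.mul_assoc]
    rw [e1, e2, hwM]
    have e3 : M * w * (w * (w * bᴴ)) = w * (M * w * (w * bᴴ)) := by
      rw [← Matrix.mul_assoc w (M * w), ← Matrix.mul_assoc w M w, hwM]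
      simp only [Matrix.mul_assoc]
    rw [e3]
  · rw [← hQ, hk, hSS]
    have e1 : b * (w * bᴴ) * (b * (w * bᴴ)) = b * ((w * M) * (w * bᴴ)) := by
      rw [hM]; simp only [Matrix.mul_assoc]
    have e2 : b * bᴴ * (b * (w * (w * bᴴ))) = b * (M * (w * (w * bᴴ))) := by
      rw [hM]; simp only [Matrix.mul_assoc]
    rw [e1, e2, hwM]
    simp only [Matrix.mul_assoc]

/-- The algebra of the case of three sets. -/
theorem three_algebra {R : Type*} [Ring R] [Algebra ℝ R] (lam : ℝ) (hl : lam ≠ 0)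
    (s k1 k2 k3 : R)
    (c1 : k1 * s = s * k1) (c2 : k2 * s = s * k2)
    (q1 : k1 * k1 = lam • s + (1 / 4 : ℝ) • (s * s))
    (q2 : k2 * k2 = lam • s + (1 / 4 : ℝ) • (s * s))
    (q3 : k3 * k3 = lam • s + (1 / 4 : ℝ) • (s * s))
    (hs : k1 + k2 + k3 = -((1 / 2 : ℝ) • s)) :
    s * s * s * ((9 * lam) • (1 : R) + (2 : ℝ) • s) = 0 := by
  obtain ⟨x, hx⟩ : ∃ x, x = k1 + k2 := ⟨_, rfl⟩
  obtain ⟨d, hd⟩ : ∃ d, d = k1 - k2 := ⟨_, rfl⟩
  have cx : x * s = s * x := by rw [hx, add_mul, mul_add, c1, c2]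
  have cd : d * s = s * d := by rw [hd, sub_mul, mul_sub, c1, c2]
  have h1 : x * d = -(d * x) := by
    have : x * d + d * x = (2 : ℝ) • (k1 * k1) - (2 : ℝ) • (k2 * k2) := by
      rw [hx, hd, two_smul, two_smul]; noncomm_ring
    rw [q1, q2, sub_self] at this
    exact eq_neg_of_add_eq_zero_left this
  have h2 : x * x + d * d = (4 * lam) • s + s * s := by
    have : x * x + d * d = (2 : ℝ) • (k1 * k1) + (2 : ℝ) • (k2 * k2) := by
      rw [hx, hd, two_smul, two_smul]; noncomm_ring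
    rw [this, q1, q2]
    simp only [smul_add, smul_smul]
    module
  have hk3 : k3 = -(x + (1 / 2 : ℝ) • s) := by
    have : k3 = -((1 / 2 : ℝ) • s) - (k1 + k2) := by rw [← hs]; abel
    rw [this, ← hx]; abel
  have h3 : x * x = lam • s - x * s := by
    have h := q3
    rw [hk3, neg_mul_neg, add_mul, mul_add, mul_add, mul_smul_comm, smul_mul_assoc, smul_mul_assoc,
      mul_smul_comm, ← cx, smul_smul] at h
    have h' : x * x + x * s = lam • s := by
      have e : x * x + (1 / 2 : ℝ) • (x * s) + ((1 / 2 : ℝ) • (x * s) + ((1 / 2 : ℝ) * (1 / 2)) • (s * s))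
        = (x * x + x * s) + (1 / 4 : ℝ) • (s * s) := by module
      rw [e] at h
      exact add_right_cancel h
    exact eq_sub_of_add_eq h'
  have h5 : x * d * s = 0 := by
    have e1 : x * x * d = d * (x * x) := by
      rw [mul_assoc, h1, mul_neg, ← mul_assoc, h1, neg_mul, neg_neg, mul_assoc]
    rw [h3, sub_mul, mul_sub, smul_mul_assoc, mul_smul_comm, cd] at e1
    have e2 : x * s * d = d * (x * s) := by
      have := sub_right_inj.mp e1
      exact this
    have e3 : x * d * s = d * x * s := by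
      rw [mul_assoc x s d, ← cd, ← mul_assoc] at e2
      rw [e2, mul_assoc]
    have e4 : x * d * s = -(x * d * s) := by
      conv_rhs => rw [h1, neg_mul, neg_neg]
      exact e3
    have e5 : (2 : ℝ) • (x * d * s) = 0 := by
      rw [two_smul]; nth_rewrite 1 [e4]; exact neg_add_cancel _
    exact (smul_eq_zero.mp e5).resolve_left (by norm_num)
  have h6 : (3 : ℝ) • (x * s * s) + s * s * s = 0 := by
    have e1 : x * (d * d) * s = 0 := by
      have : x * (d * d) * s = x * d * s * d := by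
        rw [mul_assoc (x * d) s d, ← cd]; simp only [mul_assoc]
      rw [this, h5, zero_mul]
    have e2 : d * d = (4 * lam) • s + s * s - x * x := by rw [← h2]; abel
    rw [e2, h3] at e1
    have e3 : x * ((4 * lam) • s + s * s - (lam • s - x * s)) * s
        = (3 * lam) • (x * s * s) + (x * s * s * s) + (x * x) * s * s := by
      have : (4 * lam) • s + s * s - (lam • s - x * s) = (3 * lam) • s + s * s + x * s := by
        module
      rw [this]
      simp only [mul_add, add_mul, mul_smul_comm, smul_mul_assoc, mul_assoc]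
    rw [e3, h3] at e1
    have e4 : (3 * lam) • (x * s * s) + x * s * s * s + (lam • s - x * s) * s * s
        = lam • ((3 : ℝ) • (x * s * s) + s * s * s) := by
      simp only [sub_mul, smul_mul_assoc, smul_add, smul_smul]
      have : lam * 3 = 3 * lam := by ring
      rw [this]; abel
    rw [e4] at e1
    exact (smul_eq_zero.mp e1).resolve_left hl
  have h6' : x * s * s = -((1 / 3 : ℝ) • (s * s * s)) := by
    have : (1 / 3 : ℝ) • ((3 : ℝ) • (x * s * s) + s * s * s) = 0 := by rw [h6, smul_zero]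
    rw [smul_add, smul_smul] at this
    norm_num at this
    rw [eq_neg_iff_add_eq_zero]
    norm_num
    exact this
  -- x² s² in two ways
  have h7 : x * x * s * s = (1 / 9 : ℝ) • (s * s * s * s) := by
    have : x * x * s * s = x * (x * s * s) := by simp only [mul_assoc]
    rw [this, h6', mul_neg, mul_smul_comm]
    have : x * (s * s * s) = (x * s * s) * s := by simp only [mul_assoc]
    rw [this, h6', neg_mul, smul_mul_assoc, smul_neg, neg_neg, smul_smul]
    norm_num
  have h8 : x * x * s * s = lam • (s * s * s) + (1 / 3 : ℝ) • (s * s * s * s) := by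
    rw [h3, sub_mul, sub_mul, smul_mul_assoc, smul_mul_assoc]
    rw [h6', neg_mul, smul_mul_assoc]
    abel
  have h9 : lam • (s * s * s) + (2 / 9 : ℝ) • (s * s * s * s) = 0 := by
    have := h8.symm.trans h7
    have e : lam • (s * s * s) + (2 / 9 : ℝ) • (s * s * s * s)
      = (lam • (s * s * s) + (1 / 3 : ℝ) • (s * s * s * s)) - (1 / 9 : ℝ) • (s * s * s * s) := by
      module
    rw [e, this, sub_self]
  have : s * s * s * ((9 * lam) • (1 : R) + (2 : ℝ) • s)
      = (9 : ℝ) • (lam • (s * s * s) + (2 / 9 : ℝ) • (s * s * s * s)) := by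
    rw [mul_add, mul_smul_comm, mul_one, mul_smul_comm, smul_add, smul_smul, smul_smul]
    norm_num
  rw [this, h9, smul_zero]

/-- Three sets: `S = 0`. -/
theorem three_core {N : Type*} [Fintype N] [DecidableEq N] (lam : ℝ) (hl : 0 < lam)
    (S : Matrix N N ℝ) (b : Fin 3 → Matrix N N ℝ)
    (hQ : ∀ i, b i * (b i)ᴴ = lam • (1 : Matrix N N ℝ) + (1 / 4 : ℝ) • (S * Sᴴ))
    (hH : ∀ i, b i * Sᴴ = S * (b i)ᴴ)
    (hs : (∑ i, b i) * Sᴴ = -((1 / 2 : ℝ) • (S * Sᴴ))) : S = 0 := by
  set s := S * Sᴴ with hsdef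
  have hp := fun i => k_props lam hl S (b i) (hQ i) (hH i)
  have e : ∀ i, (b i * Sᴴ) * (b i * Sᴴ) = lam • s + (1 / 4 : ℝ) • (s * s) := by
    intro i
    rw [(hp i).2, add_mul, smul_mul_assoc, smul_mul_assoc, one_mul]
  have hsum : b 0 * Sᴴ + b 1 * Sᴴ + b 2 * Sᴴ = -((1 / 2 : ℝ) • s) := by
    rw [← hs, Fin.sum_univ_three, add_mul, add_mul]
  have h := three_algebra lam hl.ne' s (b 0 * Sᴴ) (b 1 * Sᴴ) (b 2 * Sᴴ) (hp 0).1 (hp 1).1
    (e 0) (e 1) (e 2) hsum
  have hpos : ((9 * lam) • (1 : Matrix N N ℝ) + (2 : ℝ) • s).PosDef := by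
    apply Matrix.PosDef.add_posSemidef
    · exact Matrix.PosDef.one.smul (by positivity)
    · exact (Matrix.posSemidef_self_mul_conjTranspose S).smul (by norm_num)
  have hu : IsUnit ((9 * lam) • (1 : Matrix N N ℝ) + (2 : ℝ) • s).det :=
    isUnit_iff_ne_zero.mpr hpos.det_pos.ne'
  have h3 : s * s * s = 0 := by
    have := congrArg (· * ((9 * lam) • (1 : Matrix N N ℝ) + (2 : ℝ) • s)⁻¹) h
    simpa [Matrix.mul_nonsing_inv_cancel_right _ _ hu] using this
  have hsH : sᴴ = s := by
    rw [hsdef, Matrix.conjTranspose_mul, Matrix.conjTranspose_conjTranspose]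
  have h4 : s * s = 0 := by
    have : (s * s) * (s * s)ᴴ = 0 := by
      rw [Matrix.conjTranspose_mul, hsH]
      have : s * s * (s * s) = s * s * s * s := by simp only [Matrix.mul_assoc]
      rw [this, h3, Matrix.zero_mul]
    exact Matrix.self_mul_conjTranspose_eq_zero.mp this
  have h5 : s = 0 := by
    have : s * sᴴ = 0 := by rw [hsH]; exact h4
    exact Matrix.self_mul_conjTranspose_eq_zero.mp this
  exact Matrix.self_mul_conjTranspose_eq_zero.mp h5

end Pool.Agent.Sedf
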