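import Mathlib

namespace Pool.Agent.Sedf

open Matrix

section
variable {G C : Type*} [Group G] [Fintype G] [Group C] [Fintype C]

/-- convolution of integer functions on `G` -/
def conv (f g : G → ℤ) : G → ℤ := fun z => ∑ w, f w * g (w⁻¹ * z)

noncomputable instance (φ : C →* G) : Fintype (G ⧸ φ.range) := Fintype.ofFinite _
noncomputable instance (φ : C →* G) : DecidableEq (G ⧸ φ.range) := Classical.decEq _

/-- the coset matrix of `f` twisted by `χ` -/
noncomputable def cm (φ : C →* G) {R : Type*} [CommRing R] (χ : C →* R) (f : G → ℤ) :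
    Matrix (G ⧸ φ.range) (G ⧸ φ.range) R :=
  fun s t => ∑ c, χ c * (f (s.out * φ c * t.out⁻¹) : R)

theorem bij (φ : C →* G) (hφ : Function.Injective φ) :
    Function.Bijective (fun p : (G ⧸ φ.range) × C => p.1.out * φ p.2) := by
  constructor
  · rintro ⟨t, c⟩ ⟨t', c'⟩ h
    simp only at h
    have h1 : t = t' := by
      rw [← QuotientGroup.out_eq' t, ← QuotientGroup.out_eq' t', QuotientGroup.eq]
      refine ⟨c * c'⁻¹, ?_⟩
      rw [map_mul, map_inv]
      have : φ c = t.out⁻¹ * (t'.out * φ c') := by rw [← h]; group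
      rw [this]; group
    subst h1
    have h2 : φ c = φ c' := mul_left_cancel h
    rw [hφ h2]
  · intro x
    have h : (QuotientGroup.mk x : G ⧸ φ.range).out⁻¹ * x ∈ φ.range := by
      rw [← QuotientGroup.eq]
      exact QuotientGroup.out_eq' _
    obtain ⟨c, hc⟩ := h
    refine ⟨(QuotientGroup.mk x, c), ?_⟩
    simp only
    rw [hc]; group

theorem cm_mul (φ : C →* G) (hφ : Function.Injective φ) {R : Type*} [CommRing R] (χ : C →* R)
    (f g : G → ℤ) : cm φ χ f * cm φ χ g = cm φ χ (conv f g) := by
  ext s u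
  rw [Matrix.mul_apply]
  simp only [cm, conv]
  -- right side
  have hR : ∀ e : C, (χ e * ((∑ w, f w * g (w⁻¹ * (s.out * φ e * u.out⁻¹)) : ℤ) : R))
      = ∑ p : (G ⧸ φ.range) × C, χ e * (f (s.out * (p.1.out * φ p.2)⁻¹)
          * g ((p.1.out * φ p.2) * φ e * u.out⁻¹)) := by
    intro e
    push_cast
    rw [Finset.mul_sum]
    have h1 : ∑ p : (G ⧸ φ.range) × C, (fun y : G => χ e * (f (s.out * y⁻¹)
          * g (y * φ e * u.out⁻¹) : R)) (p.1.out * φ p.2)
        = ∑ y : G, (fun y : G => χ e * (f (s.out * y⁻¹)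
          * g (y * φ e * u.out⁻¹) : R)) y :=
      Equiv.sum_comp (Equiv.ofBijective _ (bij φ hφ)) (fun y : G => χ e * (f (s.out * y⁻¹)
          * g (y * φ e * u.out⁻¹) : R))
    refine Eq.trans ?_ h1.symm
    symm
    refine Fintype.sum_equiv ((Equiv.inv G).trans (Equiv.mulLeft s.out)) _ _ fun y => ?_
    simp only [Equiv.trans_apply, Equiv.inv_apply, Equiv.coe_mulLeft]
    congr 4
    group
  simp only [hR]
  rw [Finset.sum_comm, Fintype.sum_prod_type]
  refine Finset.sum_congr rfl fun t _ => ?_
  rw [Finset.sum_mul_sum]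
  -- substitute c ↦ c⁻¹
  have h2 := Equiv.sum_comp (Equiv.inv C) (fun c : C => ∑ e, χ e * (f (s.out * (t.out * φ c)⁻¹)
          * g ((t.out * φ c) * φ e * u.out⁻¹) : R))
  refine Eq.trans ?_ h2
  refine Finset.sum_congr rfl fun c _ => ?_
  have h3 := Equiv.sum_comp (Equiv.mulLeft c) (fun e : C => χ e *
          (f (s.out * (t.out * φ ((Equiv.inv C) c))⁻¹)
          * g ((t.out * φ ((Equiv.inv C) c)) * φ e * u.out⁻¹) : R))
  refine Eq.trans ?_ h3
  refine Finset.sum_congr rfl fun d _ => ?_
  simp only [Equiv.coe_mulLeft, Equiv.inv_apply, map_mul, map_inv]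
  have e1 : s.out * (t.out * (φ c)⁻¹)⁻¹ = s.out * φ c * t.out⁻¹ := by group
  have e2 : t.out * (φ c)⁻¹ * (φ c * φ d) * u.out⁻¹ = t.out * φ d * u.out⁻¹ := by group
  rw [e1, e2]
  ring

theorem cm_add (φ : C →* G) {R : Type*} [CommRing R] (χ : C →* R) (f g : G → ℤ) :
    cm φ χ (f + g) = cm φ χ f + cm φ χ g := by
  ext s t
  simp only [cm, Matrix.add_apply, Pi.add_apply, Int.cast_add, mul_add, Finset.sum_add_distrib]

theorem cm_smul (φ : C →* G) {R : Type*} [CommRing R] (χ : C →* R) (a : ℤ) (f : G → ℤ) :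
    cm φ χ (a • f) = (a : R) • cm φ χ f := by
  ext s t
  simp only [cm, Matrix.smul_apply, Pi.smul_apply, smul_eq_mul, Int.cast_mul, Finset.mul_sum]
  refine Finset.sum_congr rfl fun c _ => ?_
  ring

open Classical in
/-- delta function at one -/
noncomputable def dlt : G → ℤ := fun g => if g = 1 then 1 else 0

theorem cm_dlt (φ : C →* G) (hφ : Function.Injective φ) {R : Type*} [CommRing R] (χ : C →* R) :
    cm φ χ (dlt : G → ℤ) = 1 := by
  classical
  ext s t
  simp only [cm, dlt]
  by_cases h : s = t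
  · subst h
    rw [Matrix.one_apply_eq, Finset.sum_eq_single 1]
    · simp
    · intro c _ hc
      have : ¬ (s.out * φ c * s.out⁻¹ = 1) := by
        intro h1
        have h2 : φ c = 1 := by
          have := mul_inv_eq_one.mp h1
          exact mul_left_cancel (this.trans (mul_one _).symm)
        exact hc (hφ (h2.trans (map_one φ).symm))
      simp [this]
    · simp
  · rw [Matrix.one_apply_ne h]
    refine Finset.sum_eq_zero fun c _ => ?_
    have : ¬ (s.out * φ c * t.out⁻¹ = 1) := by
      intro h1
      apply h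
      rw [← QuotientGroup.out_eq' s, ← QuotientGroup.out_eq' t, QuotientGroup.eq]
      refine ⟨c, ?_⟩
      have := mul_inv_eq_one.mp h1
      rw [← this]; group
    simp [this]

theorem cm_const (φ : C →* G) {R : Type*} [CommRing R] (χ : C →* R) (hχ : ∑ c, χ c = 0) :
    cm φ χ (fun _ : G => 1) = 0 := by
  ext s t
  simp [cm, hχ]

theorem cm_trace (φ : C →* G) {R : Type*} [CommRing R] (χ : C →* R) (f : G → ℤ) :
    (cm φ χ f).trace = ∑ c, χ c * ((∑ t : G ⧸ φ.range, f (t.out * φ c * t.out⁻¹) : ℤ) : R) := by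
  simp only [Matrix.trace, Matrix.diag, cm]
  rw [Finset.sum_comm]
  refine Finset.sum_congr rfl fun c _ => ?_
  push_cast
  rw [Finset.mul_sum]

theorem cm_map (φ : C →* G) {R S : Type*} [CommRing R] [CommRing S] (χ : C →* R) (h : R →+* S)
    (f : G → ℤ) : (cm φ χ f).map h = cm φ ((h : R →* S).comp χ) f := by
  ext s t
  simp [cm]

theorem card_quot (φ : C →* G) (hφ : Function.Injective φ) :
    Fintype.card (G ⧸ φ.range) * Fintype.card C = Fintype.card G := by
  rw [← Fintype.card_prod]
  exact Fintype.card_of_bijective (bij φ hφ)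

end

/-- Over `ℂ`: a matrix with `B² = D B`, `D ≠ 0`, has trace `f D` and characteristic polynomial
`X^(N-f) (X - D)^f`. -/
theorem charpoly_of_sq {T : Type*} [Fintype T] [DecidableEq T] (B : Matrix T T ℂ) (D : ℂ)
    (hD : D ≠ 0) (hB : B * B = D • B) :
    ∃ f : ℕ, f ≤ Fintype.card T ∧ B.trace = f * D ∧
      B.charpoly = Polynomial.X ^ (Fintype.card T - f) * (Polynomial.X - Polynomial.C D) ^ f := by
  classical
  have hs : B.charpoly.Splits := IsAlgClosed.splits _
  have hmonic := B.charpoly_monic
  set m := B.charpoly.roots with hm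
  have hroot : ∀ r ∈ m, r = 0 ∨ r = D := by
    intro r hr
    have h1 : B.charpoly.IsRoot r := (Polynomial.mem_roots hmonic.ne_zero).mp hr
    have h2 : (Matrix.scalar T r - B).det = 0 := by
      have := h1
      rw [Polynomial.IsRoot.def, Matrix.eval_charpoly] at this
      exact this
    obtain ⟨v, hv, hv2⟩ := Matrix.exists_mulVec_eq_zero_iff.mpr h2
    have h3 : B *ᵥ v = r • v := by
      rw [Matrix.sub_mulVec] at hv2
      have : (Matrix.scalar T r) *ᵥ v = r • v := by
        ext i; simp [Matrix.scalar_apply, Matrix.mulVec_diagonal]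
      rw [this] at hv2
      exact (sub_eq_zero.mp hv2).symm
    have h4 : (r * r) • v = (D * r) • v := by
      have e1 : (B * B) *ᵥ v = (r * r) • v := by
        rw [← Matrix.mulVec_mulVec, h3, Matrix.mulVec_smul, h3, smul_smul]
      have e2 : (B * B) *ᵥ v = (D * r) • v := by
        rw [hB, Matrix.smul_mulVec, h3, smul_smul]
      rw [← e1, e2]
    have h5 : r * r = D * r := by
      by_contra hne
      apply hv
      have : (r * r - D * r) • v = 0 := by rw [sub_smul, h4, sub_self]
      exact (smul_eq_zero.mp this).resolve_left (sub_ne_zero.mpr hne)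
    have h6 : r * (r - D) = 0 := by linear_combination h5
    rcases mul_eq_zero.mp h6 with h | h
    · exact Or.inl h
    · exact Or.inr (sub_eq_zero.mp h)
  have hcard : Multiset.card m = Fintype.card T := by
    rw [hm, ← hs.natDegree_eq_card_roots, Matrix.charpoly_natDegree_eq_dim]
  have hmeq : m = Multiset.replicate (m.count 0) 0 + Multiset.replicate (m.count D) D := by
    ext r
    rw [Multiset.count_add, Multiset.count_replicate, Multiset.count_replicate]
    by_cases h0 : r = 0
    · subst h0; simp [hD]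
    · by_cases h1 : r = D
      · subst h1; simp [Ne.symm h0]
      · have : r ∉ m := fun h => by rcases hroot r h with h | h; exacts [h0 h, h1 h]
        rw [Multiset.count_eq_zero_of_notMem this]
        simp [Ne.symm h0, Ne.symm h1]
  have hsum : m.count 0 + m.count D = Fintype.card T := by
    rw [← hcard]; conv_rhs => rw [hmeq]
    simp
  refine ⟨m.count D, by omega, ?_, ?_⟩
  · rw [Matrix.trace_eq_sum_roots_charpoly, ← hm]
    conv_lhs => rw [hmeq]
    simp
  · have h1 := hs.eq_prod_roots_of_monic hmonic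
    rw [← hm] at h1
    rw [h1]
    conv_lhs => rw [hmeq]
    rw [Multiset.map_add, Multiset.prod_add, Multiset.map_replicate, Multiset.map_replicate,
      Multiset.prod_replicate, Multiset.prod_replicate]
    have : m.count 0 = Fintype.card T - m.count D := by omega
    rw [← this]; simp

end Pool.Agent.Sedf
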