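import Mathlib

namespace Pool.Agent.Sedf

/-- `A` is an `(n, m, k, l)`-strong external difference family in the finite group `G` of order
`n`: `m` pairwise disjoint `k`-subsets such that for every `i` and every `g ≠ 1` there are exactly
`l` triples `(a, b, j)` with `j ≠ i`, `a ∈ A i`, `b ∈ A j` and `a * b⁻¹ = g`. (Since the sets are
disjoint, `1` is never such a quotient.) -/
def IsSEDF {G : Type*} [Group G] (m k l : ℕ) (A : Fin m → Finset G) : Prop :=
  (∀ i, (A i).card = k) ∧ (∀ i j, i ≠ j → Disjoint (A i) (A j)) ∧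
  ∀ i, ∀ g : G, g ≠ 1 →
    Nat.card {p : G × G × Fin m //
      p.2.2 ≠ i ∧ p.1 ∈ A i ∧ p.2.1 ∈ A p.2.2 ∧ p.1 * p.2.1⁻¹ = g} = l

/-- The parameters `(|G|, m, k, l)` are realised in `G`. -/
def Realised (G : Type*) [Group G] (m k l : ℕ) : Prop :=
  ∃ A : Fin m → Finset G, IsSEDF m k l A

open Classical in
/-- integer indicator function -/
noncomputable def ind {G : Type*} (A : Finset G) : G → ℤ := fun g => if g ∈ A then 1 else 0

section
variable {G : Type*} [Group G] [Fintype G] {m k l : ℕ} {A : Fin m → Finset G}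

open Classical in
theorem sum_ind (B : Finset G) : ∑ y, ind B y = (B.card : ℤ) := by
  simp [ind]

open Classical in
theorem ind_mul_ind_of_disjoint {B C : Finset G} (h : Disjoint B C) (y : G) :
    ind B y * ind C y = 0 := by
  unfold ind
  by_cases hB : y ∈ B
  · have : y ∉ C := Finset.disjoint_left.mp h hB
    simp [this]
  · simp [hB]

open Classical in
theorem card_eq_sum (A : Fin m → Finset G) (i : Fin m) (x : G) :
    (Nat.card {p : G × G × Fin m //
      p.2.2 ≠ i ∧ p.1 ∈ A i ∧ p.2.1 ∈ A p.2.2 ∧ p.1 * p.2.1⁻¹ = x} : ℤ)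
    = ∑ y, ind (A i) y * (∑ j, ind (A j) (x⁻¹ * y) - ind (A i) (x⁻¹ * y)) := by
  rw [Nat.card_eq_fintype_card, Fintype.card_subtype, Finset.card_filter, Nat.cast_sum]
  rw [Fintype.sum_prod_type]
  refine Finset.sum_congr rfl fun a _ => ?_
  rw [Fintype.sum_prod_type, Finset.sum_eq_single (x⁻¹ * a)]
  · have h1 : ∑ j, ind (A j) (x⁻¹ * a) - ind (A i) (x⁻¹ * a)
        = ∑ j, if j ≠ i then ind (A j) (x⁻¹ * a) else 0 := by
      rw [← Finset.sum_erase_eq_sub (Finset.mem_univ i), Finset.sum_ite]
      simp [Finset.filter_ne']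
    rw [h1, Finset.mul_sum]
    refine Finset.sum_congr rfl fun j _ => ?_
    have h2 : a * (x⁻¹ * a)⁻¹ = x := by group
    simp only [h2, and_true, ind]
    by_cases c1 : j ≠ i <;> by_cases c2 : a ∈ A i <;> by_cases c3 : x⁻¹ * a ∈ A j <;>
      simp [c1, c2, c3]
  · intro b _ hb
    refine Finset.sum_eq_zero fun j _ => ?_
    have : ¬ (a * b⁻¹ = x) := by
      intro h
      apply hb
      rw [← h]; group
    simp [this]
  · intro h; exact absurd (Finset.mem_univ _) h

open Classical in
/-- The defining identity in the integral group ring. -/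
theorem conv_eq (hA : IsSEDF m k l A) (i : Fin m) (x : G) :
    ∑ y, ind (A i) y * (∑ j, ind (A j) (x⁻¹ * y) - ind (A i) (x⁻¹ * y))
      = if x = 1 then 0 else (l : ℤ) := by
  by_cases hx : x = 1
  · subst hx
    simp only [inv_one, one_mul, if_true]
    refine Finset.sum_eq_zero fun y _ => ?_
    rw [← Finset.sum_erase_eq_sub (Finset.mem_univ i), Finset.mul_sum]
    refine Finset.sum_eq_zero fun j hj => ?_
    exact ind_mul_ind_of_disjoint (hA.2.1 i j (Finset.ne_of_mem_erase hj).symm) y
  · rw [if_neg hx, ← card_eq_sum, hA.2.2 i x hx]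

/-- The counting identity `k² (m - 1) = l (n - 1)`. -/
theorem param (hA : IsSEDF m k l A) (i : Fin m) :
    (k : ℤ) * (m * k - k) = l * (Fintype.card G - 1) := by
  classical
  have h := Finset.sum_congr rfl (fun x (_ : x ∈ Finset.univ) => conv_eq hA i x)
  rw [Finset.sum_comm] at h
  have h1 : ∀ y : G, ∑ x : G, ind (A i) y * (∑ j, ind (A j) (x⁻¹ * y) - ind (A i) (x⁻¹ * y))
      = ind (A i) y * (m * k - k) := by
    intro y
    rw [← Finset.mul_sum, Finset.sum_sub_distrib, Finset.sum_comm]
    have h2 : ∀ B : Finset G, ∑ x : G, ind B (x⁻¹ * y) = (B.card : ℤ) := by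
      intro B
      rw [← sum_ind B]
      exact Fintype.sum_equiv ((Equiv.inv G).trans (Equiv.mulRight y)) _ _ (fun x => rfl)
    simp only [h2, hA.1, Finset.sum_const, Finset.card_univ, Fintype.card_fin, nsmul_eq_mul]
  simp only [h1] at h
  rw [← Finset.sum_mul, sum_ind, hA.1] at h
  rw [h, Finset.sum_ite]
  simp only [Finset.sum_const_zero, zero_add, Finset.sum_const, nsmul_eq_mul]
  rw [mul_comm]
  congr 1
  have : (Finset.univ.filter (fun x : G => ¬ x = 1)) = Finset.univ.erase 1 := by
    ext x; simp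
  rw [this, Finset.card_erase_of_mem (Finset.mem_univ _), Finset.card_univ, Nat.cast_sub
    Fintype.card_pos]
  simp

end

end Pool.Agent.Sedf
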