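import Pool.Agent.Sedf.Quadr

namespace Pool.Agent.Sedf

open Matrix

variable {G : Type*} [Group G] [Fintype G] {m k l : ℕ} {a : Fin m → G → ℤ}

/-- the numbers `τ_i(c)` -/
noncomputable def tau {C : Type*} [Group C] (φ : C →* G) (f : G → ℤ) (c : C) : ℤ :=
  ∑ t : G ⧸ φ.range, f (t.out * φ c * t.out⁻¹)

theorem cm_trace' {C : Type*} [Group C] [Fintype C] (φ : C →* G) {R : Type*} [CommRing R]
    (χ : C →* R) (f : G → ℤ) : (cm φ χ f).trace = ∑ c, χ c * (tau φ f c : R) :=
  cm_trace φ χ f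

theorem Near.tau_one {C : Type*} [Group C] (ha : Near G m k l a) (i : Fin m) (φ : C →* G) :
    tau φ (a i) 1 = 0 := by
  unfold tau
  refine Finset.sum_eq_zero fun t _ => ?_
  rw [map_one, mul_one, mul_inv_cancel]
  exact ha.one i

theorem Near.sum_tau {C : Type*} [Group C] (ha : Near G m k l a) (φ : C →* G)
    (hφ : Function.Injective φ) (c : C) (hc : c ≠ 1) :
    ∑ i, tau φ (a i) c = Fintype.card (G ⧸ φ.range) := by
  unfold tau
  rw [Finset.sum_comm]
  have : ∀ t : G ⧸ φ.range, ∑ i, a i (t.out * φ c * t.out⁻¹) = 1 := by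
    intro t
    apply ha.uniq
    intro h
    apply hc
    apply hφ
    rw [map_one]
    have := mul_inv_eq_one.mp h
    exact mul_left_cancel (this.trans (mul_one _).symm)
  simp [this]

theorem Near.delta (ha : Near G m k l a) (hm : 3 ≤ m) (hk : 1 ≤ k)
    (hn : m * k + 1 = Fintype.card G) : ∃ D : ℕ, D * D = 1 + 4 * l := by
  let φ : PUnit.{1} →* G := 1
  have hφ : Function.Injective φ := fun x y _ => Subsingleton.elim x y
  set r : ℝ := Real.sqrt (1 + 4 * l) with hr
  have hr2 : r * r = 1 + 4 * l := Real.mul_self_sqrt (by positivity)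
  have hrpos : 0 < r := Real.sqrt_pos.mpr (by positivity)
  obtain ⟨f, hf⟩ := ha.trace_one ⟨0, by omega⟩ φ hφ (r : ℂ)
    (by rw [← Complex.ofReal_mul, hr2]; push_cast; ring)
    (by exact_mod_cast hrpos.ne')
  have hT : Fintype.card (G ⧸ φ.range) = Fintype.card G := by
    have := card_quot φ hφ
    simpa using this
  have htr : (cm φ (1 : PUnit.{1} →* ℂ) (a ⟨0, by omega⟩)).trace = 0 := by
    rw [cm_trace']
    refine Finset.sum_eq_zero fun c _ => ?_
    have : c = 1 := Subsingleton.elim _ _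
    rw [this, ha.tau_one]
    simp
  rw [htr, hT, ← hn] at hf
  have h1 : ((m : ℝ) - 2) * k = r * (2 * f - m * k) := by
    have h2 : (((m : ℝ) - 2) * k : ℂ) = (r * (2 * f - m * k) : ℂ) := by
      push_cast at hf ⊢
      linear_combination hf
    exact_mod_cast h2
  have hpos : 0 < ((m : ℝ) - 2) * k := by
    have h3 : (3 : ℝ) ≤ m := by exact_mod_cast hm
    have h4 : (1 : ℝ) ≤ k := by exact_mod_cast hk
    apply mul_pos <;> linarith
  have hz : (2 * f - m * k : ℝ) ≠ 0 := by
    intro h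
    rw [h, mul_zero] at h1
    linarith
  have hsq : IsSquare (((1 + 4 * l : ℕ)) : ℚ) := by
    refine ⟨((m : ℚ) - 2) * k / (2 * f - m * k), ?_⟩
    have hz' : (2 * f - m * k : ℚ) ≠ 0 := by
      intro h
      apply hz
      exact_mod_cast congrArg (fun x : ℚ => (x : ℝ)) h
    rw [div_mul_div_comm, eq_div_iff (mul_ne_zero hz' hz')]
    have : ((1 + 4 * l : ℝ)) * ((2 * f - m * k) * (2 * f - m * k))
        = (((m : ℝ) - 2) * k) * (((m : ℝ) - 2) * k) := by
      rw [h1, ← hr2]; ring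
    push_cast
    exact_mod_cast this
  rw [Rat.isSquare_natCast_iff] at hsq
  obtain ⟨D, hD⟩ := hsq
  exact ⟨D, hD.symm⟩

end Pool.Agent.Sedf
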