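import Pool.Agent.Sedf.Abx

set_option autoImplicit false

/-!
# The exact relation `j (l + d) = w (m - 2) d` (MP_4124fc_co, fourth theorem)
-/

namespace Pool.Agent.Sedf.Eqw

open Module Matrix Pool.Agent.Sedf.Abx

/-- `ranksC` with the number of ranks -/
theorem ranksN {E : Type*} [AddCommGroup E] [Module ℂ E] [FiniteDimensional ℂ E] {m : ℕ}
    (P : Fin m → E →ₗ[ℂ] E) (hP : ∀ i, P i * P i = P i) {c : ℝ} (hc : 1 < c)
    (hs : ∑ i, P i = (c : ℂ) • (1 : E →ₗ[ℂ] E)) (he : 0 < finrank ℂ E) :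
    ∃ N : ℕ, finrank ℂ E < N ∧ (N : ℝ) = c * finrank ℂ E := by
  have htr : ∀ i, LinearMap.trace ℂ E (P i) = (finrank ℂ (LinearMap.range (P i)) : ℂ) := by
    intro i
    have h : LinearMap.IsProj (LinearMap.range (P i)) (P i) :=
      LinearMap.IsIdempotentElem.isProj_range (P i) (hP i)
    exact h.trace
  have hsum : ((∑ i, finrank ℂ (LinearMap.range (P i)) : ℕ) : ℂ) = ((c * finrank ℂ E : ℝ) : ℂ) := by
    rw [Nat.cast_sum, ← Finset.sum_congr rfl (fun i _ => htr i), ← map_sum, hs, map_smul,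
      LinearMap.trace_one]
    push_cast
    rfl
  have hsum' : ((∑ i, finrank ℂ (LinearMap.range (P i)) : ℕ) : ℝ) = c * finrank ℂ E := by
    exact_mod_cast hsum
  have he' : (0 : ℝ) < finrank ℂ E := by exact_mod_cast he
  have hlt : (finrank ℂ E : ℝ) < ((∑ i, finrank ℂ (LinearMap.range (P i)) : ℕ) : ℝ) := by
    rw [hsum']; nlinarith
  exact ⟨∑ i, finrank ℂ (LinearMap.range (P i)), Nat.cast_lt.mp hlt, hsum'⟩

section sp

variable {G : Type*} [Group G] [Fintype G]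

/-- `eigx` with the dimension and the number of ranks. -/
theorem eigw [DecidableEq G] {D : ℕ} (hD : IrrLe G D) {m : ℕ}
    (hm : 3 ≤ m) {l : ℝ} (hl : 0 < l) (s : Matrix G G ℝ) (k : Fin m → Matrix G G ℝ)
    (hsi : Lin s) (hki : ∀ i, Lin (k i)) (hc : ∀ i, k i * s = s * k i)
    (hq : ∀ i, k i * k i = (l • (1 : Matrix G G ℝ) + (1 / 4 : ℝ) • s) * s)
    (hs : ∑ i, k i = (-(((m : ℝ) - 2) / 2)) • s) {a : ℝ} (ha : 0 < a) {v : G → ℝ} (hv : v ≠ 0)
    (hsv : s *ᵥ v = a • v) :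
    ∃ g : ℝ, 0 < g ∧ g ^ 2 * (4 * l + a) = ((m : ℝ) - 2) ^ 2 * a ∧
      ∃ w N : ℕ, 0 < w ∧ w ≤ D ∧ w < N ∧ (N : ℝ) = ((m : ℝ) - g) / 2 * w := by
  have hm' : (3 : ℝ) ≤ m := by exact_mod_cast hm
  obtain ⟨r, hr⟩ : ∃ r : ℝ, r = √(l * a + a ^ 2 / 4) := ⟨_, rfl⟩
  have hla : 0 < l * a := mul_pos hl ha
  have hpos : 0 < l * a + a ^ 2 / 4 := by positivity
  have hr0 : 0 < r := by rw [hr]; exact Real.sqrt_pos.mpr hpos
  have hr2 : r ^ 2 = l * a + a ^ 2 / 4 := by rw [hr]; exact Real.sq_sqrt hpos.le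
  have hra : a / 2 < r := by
    by_contra hcon
    have h1 : r ≤ a / 2 := not_lt.mp hcon
    nlinarith
  obtain ⟨g, hg⟩ : ∃ g : ℝ, g = ((m : ℝ) - 2) * a / (2 * r) := ⟨_, rfl⟩
  have hgr : g * (2 * r) = ((m : ℝ) - 2) * a := by rw [hg]; field_simp
  have hg0 : 0 < g := by
    rw [hg]; apply div_pos
    · exact mul_pos (by linarith) ha
    · positivity
  have hg1 : g < (m : ℝ) - 2 := by
    rw [hg, div_lt_iff₀ (by positivity)]
    have : a < 2 * r := by linarith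
    exact mul_lt_mul_of_pos_left this (by linarith)
  have hg2 : g ^ 2 * (4 * l + a) = ((m : ℝ) - 2) ^ 2 * a := by
    have h1 : (g * (2 * r)) ^ 2 = (((m : ℝ) - 2) * a) ^ 2 := by rw [hgr]
    have h2 : (g ^ 2 * (4 * l + a)) * a = (((m : ℝ) - 2) ^ 2 * a) * a := by
      have h3 : (g * (2 * r)) ^ 2 = g ^ 2 * (4 * r ^ 2) := by ring
      rw [h3, hr2] at h1
      linear_combination h1
    exact mul_right_cancel₀ ha.ne' h2
  -- complexification
  obtain ⟨sc, hsc⟩ : ∃ sc : Matrix G G ℂ, sc = s.map Complex.ofRealHom := ⟨_, rfl⟩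
  obtain ⟨kc, hkc⟩ : ∃ kc : Fin m → Matrix G G ℂ, ∀ i, kc i = (k i).map Complex.ofRealHom :=
    ⟨_, fun i => rfl⟩
  have hcc : ∀ i, kc i * sc = sc * kc i := by
    intro i
    rw [hkc, hsc, ← Matrix.map_mul, ← Matrix.map_mul, hc]
  have hqc : ∀ i, kc i * kc i = ((l : ℂ) • (1 : Matrix G G ℂ) + (1 / 4 : ℂ) • sc) * sc := by
    intro i
    rw [hkc, hsc, ← Matrix.map_mul, hq, Matrix.map_mul]
    congr 1
    ext x y
    by_cases hxy : x = y <;> simp [hxy]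
  have hsumc : ∑ i, kc i = (-(((m : ℂ) - 2) / 2)) • sc := by
    ext x y
    have h1 := congrFun (congrFun hs x) y
    rw [Matrix.sum_apply, Matrix.smul_apply, smul_eq_mul] at h1
    rw [Matrix.sum_apply, Matrix.smul_apply, smul_eq_mul, hsc]
    simp only [hkc, Matrix.map_apply]
    rw [← map_sum, h1]
    simp
  have hmemE : ∀ w : G → ℂ, w ∈ Module.End.eigenspace (Matrix.toLin' sc) (a : ℂ) ↔
      sc *ᵥ w = (a : ℂ) • w := by
    intro w
    rw [Module.End.mem_eigenspace_iff, Matrix.toLin'_apply]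
  have hE : Module.End.eigenspace (Matrix.toLin' sc) (a : ℂ) ≠ ⊥ := by
    intro h0
    have h1 : (fun x => ((v x : ℝ) : ℂ)) ∈ Module.End.eigenspace (Matrix.toLin' sc) (a : ℂ) := by
      rw [hmemE]
      funext x
      have h2 := congrFun hsv x
      rw [hsc]
      change ∑ y, ((s x y : ℝ) : ℂ) * ((v y : ℝ) : ℂ) = (a : ℂ) * ((v x : ℝ) : ℂ)
      have h3 : ∑ y, s x y * v y = a * v x := h2
      rw [← Complex.ofReal_mul, ← h3]
      push_cast
      rfl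
    rw [h0, Submodule.mem_bot] at h1
    apply hv
    funext x
    have := congrFun h1 x
    exact Complex.ofReal_eq_zero.mp this
  obtain ⟨U, hUE, hU⟩ := exists_irr _ hE (fun x w hw => by
      rw [hmemE] at hw ⊢
      rw [hsc, tr_mulVec hsi, ← hsc, hw, map_smul])
  obtain ⟨W, hWdef⟩ : ∃ W : Submodule ℂ (U →ₗ[ℂ] (G → ℂ)), ∀ f, f ∈ W ↔
      ((∀ u, sc *ᵥ (f u) = (a : ℂ) • f u) ∧
        ∀ (x : G) (u : U), f ⟨tr x u, hU.2.1 x u u.2⟩ = tr x (f u)) :=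
    ⟨{ carrier := {f | (∀ u, sc *ᵥ (f u) = (a : ℂ) • f u) ∧
        ∀ (x : G) (u : U), f ⟨tr x u, hU.2.1 x u u.2⟩ = tr x (f u)}
       add_mem' := fun {f g} hf hg => ⟨fun u => by
          rw [LinearMap.add_apply, Matrix.mulVec_add, hf.1, hg.1, smul_add], fun x u => by
          rw [LinearMap.add_apply, LinearMap.add_apply, hf.2, hg.2, map_add]⟩
       zero_mem' := ⟨fun u => by
          rw [LinearMap.zero_apply, Matrix.mulVec_zero, smul_zero], fun x u => by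
          rw [LinearMap.zero_apply, LinearMap.zero_apply, map_zero]⟩
       smul_mem' := fun c f hf => ⟨fun u => by
          rw [LinearMap.smul_apply, Matrix.mulVec_smul, hf.1, smul_comm], fun x u => by
          rw [LinearMap.smul_apply, LinearMap.smul_apply, hf.2, map_smul]⟩ }, fun f => Iff.rfl⟩
  have hdim : finrank ℂ W ≤ D := by
    let R : W →ₗ[ℂ] (U →ₗ[ℂ] ℂ) :=
      { toFun := fun f => (LinearMap.proj (1 : G)).comp (f : U →ₗ[ℂ] (G → ℂ))
        map_add' := fun _ _ => rfl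
        map_smul' := fun _ _ => rfl }
    have hinj : Function.Injective R := by
      rw [injective_iff_map_eq_zero]
      intro f hf
      apply Subtype.ext
      refine LinearMap.ext fun u => ?_
      funext g
      have h1 : ((f : U →ₗ[ℂ] (G → ℂ)) ⟨tr g u, hU.2.1 g u u.2⟩) 1 = 0 :=
        congrFun (congrArg DFunLike.coe hf) _
      rw [((hWdef _).mp f.2).2] at h1
      change ((f : U →ₗ[ℂ] (G → ℂ)) u) (g * 1) = 0 at h1
      rw [mul_one] at h1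
      exact h1
    have h2 := LinearMap.finrank_le_finrank_of_injective hinj
    have h3 : finrank ℂ (U →ₗ[ℂ] ℂ) = finrank ℂ U := Subspace.dual_finrank_eq
    rw [h3] at h2
    exact h2.trans (irrle_iff.mp hD U hU)
  have hfr : 0 < finrank ℂ W := by
    refine (finrank_pos_iff_exists_ne_zero (R := ℂ) (M := W)).mpr ?_
    refine ⟨⟨U.subtype, (hWdef _).mpr ⟨fun u => (hmemE _).mp (hUE u.2), fun x u => rfl⟩⟩, ?_⟩
    intro h0
    obtain ⟨u, hu, hu0⟩ := Submodule.exists_mem_ne_zero_of_ne_bot hU.1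
    have h1 := congrArg Subtype.val h0
    have h2 := congrArg (fun f : U →ₗ[ℂ] (G → ℂ) => f ⟨u, hu⟩) h1
    exact hu0 h2
  have hmap : ∀ i, ∀ f ∈ W, (Matrix.toLin' (kc i)).comp f ∈ W := by
    intro i f hf
    rw [hWdef] at hf ⊢
    refine ⟨fun u => ?_, fun x u => ?_⟩
    · rw [LinearMap.comp_apply, Matrix.toLin'_apply, Matrix.mulVec_mulVec, ← hcc i,
        ← Matrix.mulVec_mulVec, hf.1, Matrix.mulVec_smul]
    · rw [LinearMap.comp_apply, LinearMap.comp_apply, hf.2, Matrix.toLin'_apply,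
        Matrix.toLin'_apply, hkc, ← tr_mulVec (hki i)]
  obtain ⟨K, hK⟩ : ∃ K : Fin m → (W →ₗ[ℂ] W), ∀ i f,
      ((K i f : _) : U →ₗ[ℂ] (G → ℂ)) = (Matrix.toLin' (kc i)).comp (f : U →ₗ[ℂ] (G → ℂ)) :=
    ⟨fun i => { toFun := fun f => ⟨(Matrix.toLin' (kc i)).comp (f : U →ₗ[ℂ] (G → ℂ)), hmap i f f.2⟩
                map_add' := fun f g => Subtype.ext (LinearMap.comp_add _ _ _)
                map_smul' := fun c f => Subtype.ext (LinearMap.comp_smul _ _ _) },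
      fun i f => rfl⟩
  have hr2c : ((r : ℂ)) ^ 2 = l * a + a ^ 2 / 4 := by exact_mod_cast hr2
  have hr0c : (r : ℂ) ≠ 0 := by exact_mod_cast hr0.ne'
  have hKK : ∀ i, K i * K i = ((r : ℂ) ^ 2) • (1 : W →ₗ[ℂ] W) := by
    intro i
    refine LinearMap.ext fun f => ?_
    apply Subtype.ext
    refine LinearMap.ext fun u => ?_
    have hx := ((hWdef _).mp f.2).1 u
    rw [Module.End.mul_apply, hK, hK, LinearMap.comp_apply, LinearMap.comp_apply,
      Matrix.toLin'_apply, Matrix.toLin'_apply, Matrix.mulVec_mulVec, hqc,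
      ← Matrix.mulVec_mulVec, hx,
      Matrix.mulVec_smul, Matrix.add_mulVec, Matrix.smul_mulVec, Matrix.smul_mulVec, hx,
      Matrix.one_mulVec, LinearMap.smul_apply, Module.End.one_apply, Submodule.coe_smul,
      LinearMap.smul_apply, hr2c]
    module
  have hKs : ∑ i, K i = (-(((m : ℂ) - 2) / 2) * a) • (1 : W →ₗ[ℂ] W) := by
    refine LinearMap.ext fun f => ?_
    apply Subtype.ext
    refine LinearMap.ext fun u => ?_
    have hx := ((hWdef _).mp f.2).1 u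
    rw [LinearMap.sum_apply, Submodule.coe_sum, Finset.sum_congr rfl (fun i _ => hK i f),
      LinearMap.sum_apply]
    simp only [LinearMap.comp_apply, Matrix.toLin'_apply]
    rw [← Matrix.sum_mulVec, hsumc, Matrix.smul_mulVec, hx, LinearMap.smul_apply,
      Module.End.one_apply, Submodule.coe_smul, LinearMap.smul_apply, smul_smul]
  have hP : ∀ i, ((1 / 2 : ℂ) • (1 + (r : ℂ)⁻¹ • K i)) * ((1 / 2 : ℂ) • (1 + (r : ℂ)⁻¹ • K i))
      = (1 / 2 : ℂ) • (1 + (r : ℂ)⁻¹ • K i) := by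
    intro i
    have h1 : (1 + (r : ℂ)⁻¹ • K i) * (1 + (r : ℂ)⁻¹ • K i) = (2 : ℂ) • (1 + (r : ℂ)⁻¹ • K i) := by
      rw [mul_add, add_mul, add_mul, one_mul, mul_one, one_mul, smul_mul_smul_comm, hKK, smul_smul]
      have : (r : ℂ)⁻¹ * (r : ℂ)⁻¹ * (r : ℂ) ^ 2 = 1 := by field_simp
      rw [this]
      module
    rw [smul_mul_smul_comm, h1, smul_smul]
    norm_num
  have hgc : (g : ℂ) * (2 * r) = ((m : ℂ) - 2) * a := by exact_mod_cast hgr
  have hsum : ∑ i, (1 / 2 : ℂ) • (1 + (r : ℂ)⁻¹ • K i) = ((((m : ℝ) - g) / 2 : ℝ) : ℂ) •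
      (1 : W →ₗ[ℂ] W) := by
    rw [← Finset.smul_sum, Finset.sum_add_distrib, ← Finset.smul_sum, hKs, Finset.sum_const,
      Finset.card_univ, Fintype.card_fin, ← Nat.cast_smul_eq_nsmul ℂ, smul_smul, ← add_smul,
      smul_smul]
    congr 1
    push_cast
    have h2 : (r : ℂ)⁻¹ * (-(((m : ℂ) - 2) / 2) * a) = -(g : ℂ) := by
      have h3 : (-(((m : ℂ) - 2) / 2) * a) = (r : ℂ) * (-(g : ℂ)) := by
        linear_combination (1 / 2 : ℂ) * hgc
      rw [h3, ← mul_assoc, inv_mul_cancel₀ hr0c, one_mul]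
    linear_combination (1 / 2 : ℂ) * h2
  have hfin := ranksN (E := W) _ hP (c := ((m : ℝ) - g) / 2) (by linarith) hsum hfr
  obtain ⟨N, hN1, hN2⟩ := hfin
  exact ⟨g, hg0, hg2, finrank ℂ W, N, hfr, hdim, hN1, hN2⟩

end sp

section fin

variable {G : Type*} [Group G] [Fintype G] {m k l : ℕ} {A : Fin m → Finset G}

/-- the arithmetic: `j = N - w` -/
theorem arw {m l B Y w N : ℕ} (hm : 3 ≤ m) (hl : 1 ≤ l) (hB : 0 < B) (hY : 0 < Y)
    (h : Y ^ 2 + B * Y = l * B) {g : ℝ} (hg : 0 < g)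
    (h1 : g ^ 2 * (4 * l + B) = ((m : ℝ) - 2) ^ 2 * B) (hwN : w < N)
    (h2 : (N : ℝ) = ((m : ℝ) - g) / 2 * w) :
    ∃ j : ℕ, 1 ≤ j ∧ j * (l + (l - Y)) = w * (m - 2) * (l - Y) := by
  have hYl : Y < l := by
    by_contra hcon
    have h3 : l ≤ Y := not_lt.mp hcon
    have h4 : l * B ≤ B * Y := by rw [mul_comm l B]; exact Nat.mul_le_mul_left _ h3
    have h5 : 0 < Y ^ 2 := by positivity
    omega
  obtain ⟨d, hd⟩ : ∃ d : ℕ, l = d + Y := ⟨l - Y, by omega⟩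
  have hdd : l - Y = d := by omega
  rw [hdd]
  subst hd
  have hY2 : Y ^ 2 = d * B := by nlinarith
  obtain ⟨q, rfl⟩ : ∃ q : ℕ, m = q + 2 := ⟨m - 2, by omega⟩
  obtain ⟨j, rfl⟩ : ∃ j : ℕ, N = w + j := ⟨N - w, by omega⟩
  have hB' : (0 : ℝ) < B := by exact_mod_cast hB
  have hY' : (0 : ℝ) < Y := by exact_mod_cast hY
  have hY2' : (Y : ℝ) ^ 2 = d * B := by exact_mod_cast hY2
  have hq : (1 : ℝ) ≤ q := by exact_mod_cast (by omega : 1 ≤ q)
  push_cast at h1 h2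
  have e1 : (g * (2 * Y + B)) ^ 2 = ((q : ℝ) * B) ^ 2 := by
    have e2 : (2 * (Y : ℝ) + B) ^ 2 = B * (4 * (d + Y) + B) := by
      linear_combination 4 * hY2'
    rw [mul_pow, e2]
    linear_combination (B : ℝ) * h1
  have e3 : g * (2 * Y + B) = (q : ℝ) * B := by
    have p1 : 0 ≤ g * (2 * Y + B) := by positivity
    have p2 : 0 ≤ (q : ℝ) * B := by positivity
    exact (pow_left_inj₀ p1 p2 (by norm_num)).mp e1
  have e4 : (j : ℝ) * (2 * Y + B) = q * Y * w := by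
    have e5 : (j : ℝ) = ((q : ℝ) - g) / 2 * w := by linear_combination h2
    rw [e5]
    linear_combination (-(w : ℝ) / 2) * e3
  have e6 : ((j * (2 * d + Y) : ℕ) : ℝ) * Y = ((w * q * d : ℕ) : ℝ) * Y := by
    push_cast
    linear_combination (d : ℝ) * e4 + (j : ℝ) * hY2'
  have e7 := mul_right_cancel₀ hY'.ne' e6
  have e8 : j * (2 * d + Y) = w * q * d := by exact_mod_cast e7
  refine ⟨j, by omega, ?_⟩
  have e9 : d + Y + d = 2 * d + Y := by ring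
  rw [e9, e8, Nat.add_sub_cancel]

/-- for one eigenvalue `a = B` of `S Sᴴ`, with `d = l - Y` -/
theorem eqd [DecidableEq G] (hA : IsSEDF m k l A) (hm : 3 ≤ m) (hl : 1 ≤ l) {a : ℝ}
    (ha : 0 < a) {v : G → ℝ} (hv : v ≠ 0) (hav : (SM k A * (SM k A)ᴴ) *ᵥ v = a • v) {B Y : ℕ}
    (hB : 0 < B) (hY : 0 < Y) (hBa : (B : ℝ) = a) (hBY : Y ^ 2 + B * Y = l * B) {D : ℕ}
    (hD : IrrLe G D) :
    l ≤ (D * (m - 2) - 1) * (l - Y) ∧
      ∃ w j : ℕ, 1 ≤ w ∧ w ≤ D ∧ 1 ≤ j ∧ j * (l + (l - Y)) = w * (m - 2) * (l - Y) := by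
  constructor
  · have h5 := eigsx hA hm hl hD ha hv hav
    rw [← hBa] at h5
    have hq3 : 3 ≤ D * (m - 2) := by
      have h7 : (2 : ℝ) < ((D * (m - 2) : ℕ) : ℝ) := by
        push_cast [Nat.cast_sub (show 2 ≤ m by omega)]
        exact h5.1
      have h8 : 2 < D * (m - 2) := by exact_mod_cast h7
      omega
    have hd2 : (((D * (m - 2) - 1 : ℕ) : ℤ)) * B ≤
        l * ((((D * (m - 2) - 1 : ℕ) : ℤ)) - 1) ^ 2 := by
      push_cast [Nat.cast_sub (show 2 ≤ m by omega), Nat.cast_sub (show 1 ≤ D * (m - 2) by omega)]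
      have h4 : ((D : ℤ) * (m - 2) - 1) * B ≤ l * (D * (m - 2) - 2) ^ 2 := by
        exact_mod_cast h5.2
      have e : ((D : ℤ) * (m - 2) - 1 - 1) ^ 2 = (D * (m - 2) - 2) ^ 2 := by ring
      rw [e]
      exact h4
    exact (dvk (by omega) hY hBY hd2).2.2
  · obtain ⟨K, k1, k2, k3, k4⟩ := frmx hA hm hl
    have hl0 : (0 : ℝ) < l := by exact_mod_cast hl
    obtain ⟨g, hg, g1, w, N, hw0, hwD, hwN, hN⟩ :=
      eigw hD hm hl0 _ K lin_SM k4 k1 k2 k3 ha hv hav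
    rw [← hBa] at g1
    obtain ⟨j, hj1, hj2⟩ := arw hm hl hB hY hBY hg g1 hwN hN
    exact ⟨w, j, hw0, hwD, hj1, hj2⟩

theorem everyw [DecidableEq G] (hA : IsSEDF m k l A) (hm : 3 ≤ m) (hk : 1 ≤ k) (hl : 1 ≤ l)
    (hk1 : 1 < k) :
    ∃ d : ℕ, d ∣ l ^ 2 ∧ d < l ∧ l ≤ (m ^ 2 - 3 * m + 1) * d ∧
      ∀ D : ℕ, IrrLe G D → l ≤ (D * (m - 2) - 1) * d ∧
        ∃ w j : ℕ, 1 ≤ w ∧ w ≤ D ∧ 1 ≤ j ∧ j * (l + d) = w * (m - 2) * d := by
  by_cases h : ∃ a : ℝ, 0 < a ∧ ∃ v : G → ℝ, v ≠ 0 ∧ (SM k A * (SM k A)ᴴ) *ᵥ v = a • v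
  · obtain ⟨a, ha, v, hv, hav⟩ := h
    obtain ⟨h1, B, Y, hB, hY, hBa, hBY⟩ := eigs hA hm hl ha hv hav
    rw [← hBa] at h1
    have h3 : 3 * m ≤ m ^ 2 := by nlinarith
    have hd1 : (((m ^ 2 - 3 * m + 1 : ℕ) : ℤ)) * B ≤ l * ((((m ^ 2 - 3 * m + 1 : ℕ) : ℤ)) - 1) ^ 2 := by
      push_cast [Nat.cast_sub h3]
      have h4 : ((m : ℤ) ^ 2 - 3 * m + 1) * B ≤ l * (m * (m - 3)) ^ 2 := by exact_mod_cast h1
      have e : ((m : ℤ) ^ 2 - 3 * m + 1 - 1) ^ 2 = (m * (m - 3)) ^ 2 := by ring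
      rw [e]
      exact h4
    have r1 := dvk (by omega) hY hBY hd1
    exact ⟨l - Y, r1.2.1, by omega, r1.2.2, fun D hD => eqd hA hm hl ha hv hav hB hY hBa hBY hD⟩
  · have h0 := sz hA hm hk (zer _ h)
    have h1 := parN hA hm
    rw [← h0] at h1
    have h2 := kk hm hk h1
    omega

end fin

end Pool.Agent.Sedf.Eqw
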