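import Mathlib

set_option autoImplicit false

/-!
# Sums of projections; arithmetic (MP_4124fc_co, fourth theorem)
-/

namespace Pool.Agent.Sedf

open Module Matrix

section prj

variable {E : Type*} [AddCommGroup E] [Module ℝ E] [FiniteDimensional ℝ E]

-- BEGIN ptr
/-- ROW ptr. The trace of an idempotent is its rank. Mathlib: `LinearMap.IsProj.trace`, `LinearMap.IsIdempotentElem.isProj_range` or
`LinearMap.isProj_iff_isIdempotentElem` (search `IsProj`). -/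
theorem ptr (P : E →ₗ[ℝ] E) (h : P * P = P) :
    LinearMap.trace ℝ E P = (finrank ℝ (LinearMap.range P) : ℝ) := by
  have h1 : LinearMap.IsProj (LinearMap.range P) P := by
    refine ⟨fun x => LinearMap.mem_range_self P x, ?_⟩
    rintro x ⟨y, rfl⟩
    exact LinearMap.congr_fun h y
  exact h1.trace
-- END ptr

-- BEGIN prk
/-- ROW prk. Induction on `s`; the range of `f + g` is in the sum of the ranges, `Submodule.finrank_add_le_finrank_add_finrank`,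
`Submodule.finrank_mono`. -/
theorem prk {m : ℕ} (P : Fin m → E →ₗ[ℝ] E) (s : Finset (Fin m)) :
    finrank ℝ (LinearMap.range (∑ j ∈ s, P j)) ≤ ∑ j ∈ s, finrank ℝ (LinearMap.range (P j)) := by
  induction s using Finset.induction_on with
  | empty => rw [Finset.sum_empty, Finset.sum_empty, LinearMap.range_zero, finrank_bot]
  | insert b t hb ih =>
    rw [Finset.sum_insert hb, Finset.sum_insert hb]
    calc finrank ℝ (LinearMap.range (P b + ∑ j ∈ t, P j))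
        ≤ finrank ℝ ((LinearMap.range (P b)) ⊔ (LinearMap.range (∑ j ∈ t, P j)) : Submodule ℝ E) := by
          apply Submodule.finrank_mono
          rintro _ ⟨x, rfl⟩
          rw [LinearMap.add_apply]
          exact Submodule.add_mem_sup ⟨x, rfl⟩ ⟨x, rfl⟩
      _ ≤ finrank ℝ (LinearMap.range (P b)) + finrank ℝ (LinearMap.range (∑ j ∈ t, P j)) :=
          Submodule.finrank_add_le_finrank_add_finrank _ _
      _ ≤ _ := by gcongr
-- END prk

-- BEGIN pinv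
/-- ROW pinv. `(c - P) ((c - 1) + P) = c (c - 1)` is an invertible scalar, so `c - P` is onto. -/
theorem pinv (P : E →ₗ[ℝ] E) (h : P * P = P) {c : ℝ} (hc : 1 < c) :
    LinearMap.range (c • (1 : E →ₗ[ℝ] E) - P) = ⊤ := by
  rw [LinearMap.range_eq_top]
  intro x
  have hP : ∀ y, P (P y) = P y := fun y => by
    have := LinearMap.congr_fun h y
    simpa using this
  have hc0 : c * (c - 1) ≠ 0 := by
    have h1 : 0 < c := by linarith
    have h2 : 0 < c - 1 := by linarith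
    positivity
  refine ⟨(c * (c - 1))⁻¹ • ((c - 1) • x + P x), ?_⟩
  have key : (c • (1 : E →ₗ[ℝ] E) - P) ((c - 1) • x + P x) = (c * (c - 1)) • x := by
    simp only [LinearMap.sub_apply, LinearMap.smul_apply, Module.End.one_apply, map_add, map_smul, hP]
    module
  rw [map_smul, key, smul_smul, inv_mul_cancel₀ hc0, one_smul]
-- END pinv

-- BEGIN psum
/-- ROW psum. `e = finrank E`, `r i` the rank of `P i`. The trace of `∑ P i = c` is `∑ r i = c e` (`ptr`, `LinearMap.trace_one`).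
For each `i`: `∑_(j ≠ i) P j = c - P i` is onto (`pinv`), so `e ≤ ∑_(j ≠ i) r j = c e - r i` (`prk` with `Finset.univ.erase i`). Sum over `i`:
`m e + c e ≤ m c e`, divide by `e`. -/
theorem psum {m : ℕ} (P : Fin m → E →ₗ[ℝ] E) (hP : ∀ i, P i * P i = P i) {c : ℝ} (hc : 1 < c)
    (hs : ∑ i, P i = c • (1 : E →ₗ[ℝ] E)) (he : 0 < finrank ℝ E) :
    (m : ℝ) + c ≤ m * c ∧ ∃ N : ℕ, (N : ℝ) = c * finrank ℝ E := by
  classical
  have he' : (0 : ℝ) < (finrank ℝ E : ℝ) := by exact_mod_cast he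
  have htr : ∑ i, (finrank ℝ (LinearMap.range (P i)) : ℝ) = c * (finrank ℝ E : ℝ) := by
    have h1 := congrArg (LinearMap.trace ℝ E) hs
    rw [map_sum, map_smul, LinearMap.trace_one, smul_eq_mul] at h1
    rw [← h1]
    exact Finset.sum_congr rfl fun i _ => (ptr (P i) (hP i)).symm
  refine ⟨?_, ∑ i, finrank ℝ (LinearMap.range (P i)), by rw [← htr]; push_cast; rfl⟩
  have key : ∀ i, (finrank ℝ E : ℝ) ≤ c * (finrank ℝ E : ℝ) -
      (finrank ℝ (LinearMap.range (P i)) : ℝ) := by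
    intro i
    have h1 : ∑ j ∈ Finset.univ.erase i, P j = c • (1 : E →ₗ[ℝ] E) - P i := by
      rw [← hs, ← Finset.add_sum_erase _ _ (Finset.mem_univ i)]
      abel
    have h2 := prk P (Finset.univ.erase i)
    rw [h1, pinv (P i) (hP i) hc, finrank_top] at h2
    have h3 : (finrank ℝ E : ℝ) ≤
        ∑ j ∈ Finset.univ.erase i, (finrank ℝ (LinearMap.range (P j)) : ℝ) := by
      exact_mod_cast h2
    have h4 := Finset.add_sum_erase Finset.univ
      (fun j => (finrank ℝ (LinearMap.range (P j)) : ℝ)) (Finset.mem_univ i)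
    rw [htr] at h4
    linarith
  have h5 : ∑ _i : Fin m, (finrank ℝ E : ℝ) ≤ ∑ i, (c * (finrank ℝ E : ℝ) -
      (finrank ℝ (LinearMap.range (P i)) : ℝ)) := Finset.sum_le_sum fun i _ => key i
  rw [Finset.sum_sub_distrib, htr, Finset.sum_const, Finset.sum_const, Finset.card_univ,
    Fintype.card_fin, nsmul_eq_mul, nsmul_eq_mul] at h5
  have h6 : ((m : ℝ) + c) * (finrank ℝ E : ℝ) ≤ (m * c) * (finrank ℝ E : ℝ) := by
    linarith
  exact le_of_mul_le_mul_right h6 he'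
-- END psum

end prj

section eig

variable {N : Type*} [Fintype N] [DecidableEq N]

-- BEGIN eig
/-- ROW eig. `r = √(l a + a ^ 2 / 4) > a / 2`, `g = (m - 2) a / (2 r)`, so `0 < g < m - 2` and `g ^ 2 (4 l + a) = (m - 2) ^ 2 a`.
`E` = the eigenspace of `Matrix.toLin' s` for `a` (`Module.End.eigenspace`), not zero. The `k i` commute with `s`, so they map `E` to `E`; `K i : E →ₗ E` the
restriction (`LinearMap.restrict`); `K i * K i = r ^ 2`, `∑ K i = - ((m - 2) / 2) a`. `P i = (1/2) (1 + r⁻¹ K i)` is idempotent and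
`∑ P i = c = (m - g) / 2 > 1`. `psum`: `m + c ≤ m c`, that is `(m - 1) g ≤ m (m - 3)`. `e = finrank E`. -/
theorem eig {m : ℕ} (hm : 3 ≤ m) {l : ℝ} (hl : 0 < l) (s : Matrix N N ℝ)
    (k : Fin m → Matrix N N ℝ) (hc : ∀ i, k i * s = s * k i)
    (hq : ∀ i, k i * k i = (l • (1 : Matrix N N ℝ) + (1 / 4 : ℝ) • s) * s)
    (hs : ∑ i, k i = (-(((m : ℝ) - 2) / 2)) • s) {a : ℝ} (ha : 0 < a) {v : N → ℝ} (hv : v ≠ 0)
    (hsv : s *ᵥ v = a • v) :
    ∃ g : ℝ, 0 < g ∧ g ^ 2 * (4 * l + a) = ((m : ℝ) - 2) ^ 2 * a ∧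
      ((m : ℝ) - 1) * g ≤ m * (m - 3) ∧ ∃ e M : ℕ, 0 < e ∧ (M : ℝ) = (m - g) / 2 * e := by
  have hm3 : (3 : ℝ) ≤ m := by exact_mod_cast hm
  obtain ⟨r, hr, hrr⟩ : ∃ r : ℝ, 0 < r ∧ r * r = l * a + a * a / 4 :=
    ⟨Real.sqrt (l * a + a * a / 4), Real.sqrt_pos.2 (by positivity),
      Real.mul_self_sqrt (by positivity)⟩
  have hr2 : a < 2 * r := by nlinarith [mul_pos hl ha]
  obtain ⟨g, hg⟩ : ∃ g : ℝ, g = (m - 2) * a / (2 * r) := ⟨_, rfl⟩
  have hg0 : 0 < g := by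
    rw [hg]
    exact div_pos (mul_pos (by linarith) ha) (by linarith)
  have hgr : g * (2 * r) = (m - 2) * a := by
    rw [hg, div_mul_cancel₀]
    linarith
  have hg1 : g < m - 2 := by
    rw [hg, div_lt_iff₀ (by linarith)]
    exact mul_lt_mul_of_pos_left hr2 (by linarith)
  have h1 : g ^ 2 * (4 * l + a) = ((m : ℝ) - 2) ^ 2 * a := by
    have h2 : (g * (2 * r)) ^ 2 = ((m - 2) * a) ^ 2 := by rw [hgr]
    have h3 : g ^ 2 * (4 * l + a) * a = (((m : ℝ) - 2) ^ 2 * a) * a := by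
      linear_combination h2 - 4 * g ^ 2 * hrr
    exact mul_right_cancel₀ ha.ne' h3
  -- the eigenspace
  obtain ⟨E, hE⟩ : ∃ E : Submodule ℝ (N → ℝ), ∀ w, w ∈ E ↔ s *ᵥ w = a • w :=
    ⟨LinearMap.ker (Matrix.toLin' s - a • LinearMap.id), fun w => by
      rw [LinearMap.mem_ker, LinearMap.sub_apply, LinearMap.smul_apply, LinearMap.id_apply,
        Matrix.toLin'_apply, sub_eq_zero]⟩
  have hkE : ∀ i, ∀ w ∈ E, Matrix.toLin' (k i) w ∈ E := by
    intro i w hw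
    rw [hE] at hw ⊢
    rw [Matrix.toLin'_apply, Matrix.mulVec_mulVec, ← hc, ← Matrix.mulVec_mulVec, hw,
      Matrix.mulVec_smul]
  obtain ⟨K, hK⟩ : ∃ K : Fin m → E →ₗ[ℝ] E, ∀ i (w : E), ((K i w : E) : N → ℝ) = k i *ᵥ w.1 :=
    ⟨fun i => (Matrix.toLin' (k i)).restrict (hkE i), fun i w => by
      rw [LinearMap.coe_restrict_apply, Matrix.toLin'_apply]⟩
  have hKK : ∀ i, K i * K i = (r * r) • (1 : E →ₗ[ℝ] E) := by
    intro i
    refine LinearMap.ext fun w => Subtype.ext ?_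
    rw [Module.End.mul_apply, hK, hK, Matrix.mulVec_mulVec, hq, ← Matrix.mulVec_mulVec,
      (hE w.1).1 w.2, Matrix.mulVec_smul, Matrix.add_mulVec, Matrix.smul_mulVec,
      Matrix.smul_mulVec, Matrix.one_mulVec, (hE w.1).1 w.2, hrr, LinearMap.smul_apply,
      Module.End.one_apply, Submodule.coe_smul, smul_smul, ← add_smul, smul_smul]
    congr 2
    ring
  have hKs : ∑ i, K i = (-(((m : ℝ) - 2) / 2) * a) • (1 : E →ₗ[ℝ] E) := by
    refine LinearMap.ext fun w => Subtype.ext ?_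
    rw [LinearMap.sum_apply, Submodule.coe_sum, LinearMap.smul_apply, Module.End.one_apply,
      Submodule.coe_smul, mul_smul, ← (hE w.1).1 w.2, ← Matrix.smul_mulVec, ← hs,
      Matrix.sum_mulVec]
    exact Finset.sum_congr rfl fun i _ => hK i w
  have he : 0 < finrank ℝ E := by
    rw [Module.finrank_pos_iff]
    refine ⟨⟨⟨v, (hE v).2 hsv⟩, 0, fun h => hv ?_⟩⟩
    exact congrArg Subtype.val h
  have hP : ∀ i, ((1 / 2 : ℝ) • ((1 : E →ₗ[ℝ] E) + r⁻¹ • K i)) *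
      ((1 / 2 : ℝ) • ((1 : E →ₗ[ℝ] E) + r⁻¹ • K i)) =
      (1 / 2 : ℝ) • ((1 : E →ₗ[ℝ] E) + r⁻¹ • K i) := by
    intro i
    simp only [smul_mul_smul_comm, mul_add, add_mul, mul_one, one_mul]
    rw [hKK i, smul_smul]
    have h3 : r⁻¹ * r⁻¹ * (r * r) = 1 := by field_simp
    rw [h3]
    module
  have hsum : ∑ i, ((1 / 2 : ℝ) • ((1 : E →ₗ[ℝ] E) + r⁻¹ • K i)) =
      ((m - g) / 2) • (1 : E →ₗ[ℝ] E) := by
    rw [← Finset.smul_sum, Finset.sum_add_distrib, ← Finset.smul_sum, hKs, Finset.sum_const,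
      Finset.card_univ, Fintype.card_fin, ← Nat.cast_smul_eq_nsmul ℝ, smul_smul, ← add_smul,
      smul_smul]
    congr 1
    rw [hg]
    field_simp
    ring
  obtain ⟨h4, M, hM⟩ := psum _ hP (by linarith : 1 < (m - g) / 2) hsum he
  exact ⟨g, hg0, h1, by linarith, _, M, he, hM⟩
-- END eig

-- BEGIN trc
/-- ROW trc. `(S * Sᴴ)` is Hermitian (`Matrix.isHermitian_mul_conjTranspose_self`) and positive semidefinite (`Matrix.posSemidef_self_mul_conjTranspose`); the trace is the sum of the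
eigenvalues (`Matrix.IsHermitian.trace_eq_sum_eigenvalues`), each is `≥ 0` and `≤ B` (`Matrix.IsHermitian.mulVec_eigenvectorBasis`), and at least one is `0`: the determinant is
their product (`Matrix.IsHermitian.det_eq_prod_eigenvalues`) and is `0` because of `w` (`Matrix.exists_mulVec_eq_zero_iff`). -/
theorem trc (S : Matrix N N ℝ) {B : ℝ} (hB : 0 ≤ B)
    (h : ∀ a : ℝ, 0 < a → ∀ v : N → ℝ, v ≠ 0 → (S * Sᴴ) *ᵥ v = a • v → a ≤ B)
    {w : N → ℝ} (hw : w ≠ 0) (hw0 : (S * Sᴴ) *ᵥ w = 0) :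
    (S * Sᴴ).trace ≤ ((Fintype.card N : ℝ) - 1) * B := by
  have hA : (S * Sᴴ).IsHermitian := Matrix.isHermitian_mul_conjTranspose_self S
  have hle : ∀ i, hA.eigenvalues i ≤ B := by
    intro i
    rcases le_or_gt (hA.eigenvalues i) 0 with h0 | h0
    · exact le_trans h0 hB
    · refine h _ h0 (hA.eigenvectorBasis i).ofLp ?_ (hA.mulVec_eigenvectorBasis i)
      intro hz
      have h1 := hA.eigenvectorBasis.orthonormal.ne_zero i
      exact h1 (by ext j; exact congrFun hz j)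
  have hdet : (S * Sᴴ).det = 0 := Matrix.exists_mulVec_eq_zero_iff.1 ⟨w, hw, hw0⟩
  rw [hA.det_eq_prod_eigenvalues] at hdet
  obtain ⟨i0, -, hi0⟩ := Finset.prod_eq_zero_iff.1 hdet
  have hi1 : hA.eigenvalues i0 = 0 := by simpa using hi0
  have htr : (S * Sᴴ).trace = ∑ i, hA.eigenvalues i := by
    rw [hA.trace_eq_sum_eigenvalues]
    simp
  rw [htr]
  have h2 : ∑ i, hA.eigenvalues i ≤ ∑ i, (B - if i = i0 then B else 0) := by
    refine Finset.sum_le_sum fun i _ => ?_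
    split_ifs with hi
    · rw [hi, hi1]
      simp
    · rw [sub_zero]
      exact hle i
  refine le_trans h2 (le_of_eq ?_)
  rw [Finset.sum_sub_distrib, Finset.sum_const, Finset.card_univ, Finset.sum_ite_eq' Finset.univ i0,
    nsmul_eq_mul]
  simp only [Finset.mem_univ, if_true]
  ring
-- END trc

-- BEGIN zer
/-- ROW zer. All eigenvalues of `S * Sᴴ` are `0` (they are `≥ 0`), so `S * Sᴴ = 0` (`Matrix.IsHermitian.eigenvalues_eq_zero_iff` or the trace, which is the sum of the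
squares of the entries), `Matrix.self_mul_conjTranspose_eq_zero`. -/
theorem zer (S : Matrix N N ℝ)
    (h : ¬ ∃ a : ℝ, 0 < a ∧ ∃ v : N → ℝ, v ≠ 0 ∧ (S * Sᴴ) *ᵥ v = a • v) : S = 0 := by
  have hP : (S * Sᴴ).PosSemidef := Matrix.posSemidef_self_mul_conjTranspose S
  have hH : (S * Sᴴ).IsHermitian := hP.isHermitian
  have h0 : hH.eigenvalues = 0 := by
    funext i
    have h1 : 0 ≤ hH.eigenvalues i := hP.eigenvalues_nonneg i
    rcases h1.lt_or_eq with h2 | h2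
    · refine absurd ⟨hH.eigenvalues i, h2, _, ?_, hH.mulVec_eigenvectorBasis i⟩ h
      intro h3
      exact hH.eigenvectorBasis.toBasis.ne_zero i (by
        rw [OrthonormalBasis.coe_toBasis]
        ext j
        exact congrFun h3 j)
    · exact h2.symm
  exact Matrix.self_mul_conjTranspose_eq_zero.1 (hH.eigenvalues_eq_zero_iff.1 h0)
-- END zer

end eig

section arith

-- BEGIN gb
/-- ROW gb. `a ((m - 2) ^ 2 - g ^ 2) = 4 l g ^ 2`; `g ^ 2 ≤ (m (m - 3)) ^ 2 / (m - 1) ^ 2`; with `u = m (m - 3)`, `(m - 1) (m - 2) = u + 2`,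
`(u + 2) ^ 2 - u ^ 2 = 4 (u + 1)`: `(m - 1) ^ 2 (m - 2) ^ 2 a = (m - 1) ^ 2 g ^ 2 (4 l + a) ≤ u ^ 2 (4 l + a)`, so `4 (u + 1) a ≤ 4 l u ^ 2`. -/
theorem gb {m : ℕ} (hm : 3 ≤ m) {l a g : ℝ} (hl : 0 < l) (ha : 0 < a) (hg : 0 < g)
    (h1 : g ^ 2 * (4 * l + a) = ((m : ℝ) - 2) ^ 2 * a) (h2 : ((m : ℝ) - 1) * g ≤ m * (m - 3)) :
    ((m : ℝ) ^ 2 - 3 * m + 1) * a ≤ l * (m * (m - 3)) ^ 2 := by
  have hm' : (3 : ℝ) ≤ m := by exact_mod_cast hm
  have h0 : 0 ≤ ((m : ℝ) - 1) * g := mul_nonneg (by linarith) hg.le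
  have h3 : (((m : ℝ) - 1) * g) ^ 2 ≤ ((m : ℝ) * (m - 3)) ^ 2 := pow_le_pow_left₀ h0 h2 2
  have h4 : (((m : ℝ) - 1) * g) ^ 2 * (4 * l + a) ≤ ((m : ℝ) * (m - 3)) ^ 2 * (4 * l + a) :=
    mul_le_mul_of_nonneg_right h3 (by linarith)
  have h5 : (((m : ℝ) - 1) * g) ^ 2 * (4 * l + a) = ((m : ℝ) - 1) ^ 2 * (((m : ℝ) - 2) ^ 2 * a) := by
    rw [← h1]
    ring
  have h6 : ((m : ℝ) - 1) ^ 2 * (((m : ℝ) - 2) ^ 2 * a) =
      ((m : ℝ) * (m - 3)) ^ 2 * a + 4 * (((m : ℝ) ^ 2 - 3 * m + 1) * a) := by ring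
  have h7 : ((m : ℝ) * (m - 3)) ^ 2 * (4 * l + a) =
      4 * (l * ((m : ℝ) * (m - 3)) ^ 2) + ((m : ℝ) * (m - 3)) ^ 2 * a := by ring
  rw [h5, h6, h7] at h4
  linarith
-- END gb

-- BEGIN rat
/-- ROW rat. `g = m - 2 M / e` is rational; `a ((m - 2) ^ 2 - g ^ 2) = 4 l g ^ 2 > 0`, so `a` is rational, and an integer by `hi` (`IsIntegrallyClosed ℤ`,
`IsInteger_of_is_root_of_monic` or `isInteger_of_...`). `y = (m - 2) a / (2 g) - a / 2` is rational, `y ^ 2 + a y = l a` and `y > 0` (because `((m - 2) a / (2 g)) ^ 2 = l a + a ^ 2 / 4`);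
a rational root of a monic integral polynomial is an integer. -/
theorem rat {m l e M : ℕ} (hm : 3 ≤ m) (hl : 1 ≤ l) (he : 0 < e) {a g : ℝ} (ha : 0 < a)
    (hg : 0 < g) (h1 : g ^ 2 * (4 * l + a) = ((m : ℝ) - 2) ^ 2 * a)
    (h2 : (M : ℝ) = (m - g) / 2 * e) (hi : IsIntegral ℤ a) :
    ∃ A Y : ℕ, 0 < A ∧ 0 < Y ∧ (A : ℝ) = a ∧ Y ^ 2 + A * Y = l * A := by
  obtain ⟨G, hG⟩ : ∃ G : ℚ, (G : ℝ) = g := ⟨(m : ℚ) - 2 * M / e, by
    have he' : (e : ℝ) ≠ 0 := by positivity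
    push_cast
    rw [h2]
    field_simp
    ring⟩
  have hl' : (1 : ℝ) ≤ l := by exact_mod_cast hl
  have h3 : g ^ 2 * (4 * l) = a * (((m : ℝ) - 2) ^ 2 - g ^ 2) := by linear_combination h1
  have h4 : 0 < ((m : ℝ) - 2) ^ 2 - g ^ 2 := by
    by_contra hcon
    have h5 : a * (((m : ℝ) - 2) ^ 2 - g ^ 2) ≤ 0 :=
      mul_nonpos_of_nonneg_of_nonpos ha.le (not_lt.1 hcon)
    have h6 : 0 < g ^ 2 * (4 * l) := by positivity
    linarith
  obtain ⟨A0, hA0⟩ : ∃ A : ℚ, (A : ℝ) = a := ⟨G ^ 2 * (4 * l) / (((m : ℚ) - 2) ^ 2 - G ^ 2), by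
    push_cast
    rw [hG, h3]
    field_simp⟩
  have hint : IsIntegral ℤ A0 := by
    rw [← hA0] at hi
    exact (isIntegral_algebraMap_iff (algebraMap ℚ ℝ).injective).1 hi
  obtain ⟨n, hn⟩ := IsIntegrallyClosed.isIntegral_iff.1 hint
  have hn' : ((n : ℤ) : ℝ) = a := by
    rw [← hA0, ← hn]
    simp
  have hn0 : 0 < n := by
    have h5 : (0 : ℝ) < ((n : ℤ) : ℝ) := by
      rw [hn']
      exact ha
    exact_mod_cast h5
  have hm' : (3 : ℝ) ≤ m := by exact_mod_cast hm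
  obtain ⟨ρ, hρ⟩ : ∃ ρ : ℝ, ρ = ((m : ℝ) - 2) * a / (2 * g) := ⟨_, rfl⟩
  have hρ0 : 0 < ρ := by
    rw [hρ]
    have h5 : 0 < (m : ℝ) - 2 := by linarith
    positivity
  have hρ1 : ρ * (2 * g) = ((m : ℝ) - 2) * a := by
    rw [hρ]
    field_simp
  have hρ2 : ρ ^ 2 = l * a + a ^ 2 / 4 := by
    have h5 : (ρ * (2 * g)) ^ 2 = (((m : ℝ) - 2) * a) ^ 2 := by rw [hρ1]
    have h6 : 4 * g ^ 2 * ρ ^ 2 = 4 * g ^ 2 * (l * a + a ^ 2 / 4) := by
      linear_combination h5 - a * h1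
    exact mul_left_cancel₀ (by positivity) h6
  have hρ3 : a / 2 < ρ := by
    have h5 : (a / 2) ^ 2 < ρ ^ 2 := by
      rw [hρ2]
      have h6 : 0 < (l : ℝ) * a := by positivity
      linarith [show (a / 2) ^ 2 = a ^ 2 / 4 by ring]
    exact lt_of_pow_lt_pow_left₀ 2 hρ0.le h5
  obtain ⟨y0, hy0⟩ : ∃ y0 : ℚ, y0 = ((m : ℚ) - 2) * n / (2 * G) - n / 2 := ⟨_, rfl⟩
  have hyR : (y0 : ℝ) = ρ - a / 2 := by
    rw [hy0, hρ]
    push_cast
    rw [hn', hG]
  have hyE : (y0 : ℝ) ^ 2 + a * y0 = l * a := by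
    rw [hyR]
    linear_combination hρ2
  have hyQ : y0 ^ 2 + n * y0 = l * n := by
    rw [← hn'] at hyE
    exact_mod_cast hyE
  have hyi : IsIntegral ℤ y0 := by
    refine ⟨Polynomial.X ^ 2 + Polynomial.C n * Polynomial.X + Polynomial.C (-(l * n)), ?_, ?_⟩
    · monicity!
    · rw [Polynomial.eval₂_add, Polynomial.eval₂_add, Polynomial.eval₂_mul, Polynomial.eval₂_C,
        Polynomial.eval₂_C, Polynomial.eval₂_X, Polynomial.eval₂_X_pow]
      simp only [algebraMap_int_eq, eq_intCast]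
      push_cast
      linarith
  obtain ⟨Yz, hYz⟩ := IsIntegrallyClosed.isIntegral_iff.1 hyi
  have hYz' : (Yz : ℚ) = y0 := by
    rw [← hYz]
    simp
  have hY0 : 0 < Yz := by
    have h5 : (0 : ℝ) < (y0 : ℝ) := by
      rw [hyR]
      linarith
    have h6 : (0 : ℚ) < y0 := by exact_mod_cast h5
    rw [← hYz'] at h6
    exact_mod_cast h6
  rw [← hYz'] at hyQ
  lift n to ℕ using hn0.le with A
  lift Yz to ℕ using hY0.le with Y
  refine ⟨A, Y, by exact_mod_cast hn0, by exact_mod_cast hY0, by exact_mod_cast hn', ?_⟩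
  exact_mod_cast hyQ
-- END rat

-- BEGIN dvs
/-- ROW dvs. `Y < l` (otherwise `l A ≤ A Y`), `d = l - Y`, `A d = Y ^ 2 = (l - d) ^ 2`, so `d ∣ l ^ 2`. With `u = m (m - 3)`: `(u + 1) (l - d) ^ 2 = (u + 1) A d ≤ l u ^ 2 d`, that is
`((u + 1) d - l) ((u + 1) l - d) ≥ 0` (expand), and `(u + 1) l - d > 0`. -/
theorem dvs {m l A Y : ℕ} (hm : 3 ≤ m) (hA : 0 < A) (hY : 0 < Y) (h : Y ^ 2 + A * Y = l * A)
    (hb : (m ^ 2 - 3 * m + 1) * A ≤ l * (m * (m - 3)) ^ 2) :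
    ∃ d : ℕ, d ∣ l ^ 2 ∧ d < l ∧ l ≤ (m ^ 2 - 3 * m + 1) * d := by
  obtain ⟨t, rfl⟩ : ∃ t, m = t + 3 := ⟨m - 3, by omega⟩
  obtain ⟨u, hu⟩ : ∃ u, u = (t + 3) * t := ⟨_, rfl⟩
  have e1 : (t + 3) ^ 2 - 3 * (t + 3) + 1 = u + 1 := by
    have e2 : (t + 3) ^ 2 = u + 3 * (t + 3) := by rw [hu]; ring
    rw [e2, Nat.add_sub_cancel]
  have e3 : (t + 3) * (t + 3 - 3) = u := by rw [hu, Nat.add_sub_cancel]
  rw [e1, e3] at hb
  rw [e1]
  have hYl : Y < l := by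
    by_contra hcon
    have h1 : l * A ≤ Y * A := Nat.mul_le_mul_right A (not_lt.1 hcon)
    have h2 : 0 < Y ^ 2 := pow_pos hY 2
    have h3 : A * Y = Y * A := mul_comm _ _
    omega
  obtain ⟨d, rfl⟩ := Nat.exists_eq_add_of_lt hYl
  have hd : Y ^ 2 = (d + 1) * A := by
    have h1 : Y ^ 2 + A * Y = (d + 1) * A + A * Y := by rw [h]; ring
    exact Nat.add_right_cancel h1
  refine ⟨d + 1, ⟨A + 2 * Y + (d + 1), ?_⟩, by omega, ?_⟩
  · have h1 : (Y + d + 1) ^ 2 = Y ^ 2 + (d + 1) * (2 * Y + (d + 1)) := by ring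
    rw [h1, hd]
    ring
  · by_contra hcon
    have h1 : u * (d + 1) < Y := by
      have h2 : (u + 1) * (d + 1) = u * (d + 1) + (d + 1) := by ring
      omega
    have h3 : (u * (d + 1)) ^ 2 < Y ^ 2 := Nat.pow_lt_pow_left h1 (by norm_num)
    have h4 : Y * (u * (d + 1)) * u ≤ Y * Y * u :=
      Nat.mul_le_mul_right u (Nat.mul_le_mul_left Y h1.le)
    have h5 : (u + 1) * A * (d + 1) ≤ (Y + d + 1) * u ^ 2 * (d + 1) :=
      Nat.mul_le_mul_right (d + 1) hb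
    have h6 : (u + 1) * A * (d + 1) = Y * Y * u + Y ^ 2 := by
      have h7 : (u + 1) * A * (d + 1) = (u + 1) * ((d + 1) * A) := by ring
      rw [h7, ← hd]
      ring
    have h8 : (Y + d + 1) * u ^ 2 * (d + 1) =
        Y * (u * (d + 1)) * u + (u * (d + 1)) ^ 2 := by ring
    omega
-- END dvs

-- BEGIN cor
/-- ROW cor. `m (m - 1) (m - 3) ^ 2 + (m (m - 1) (m - 3) + 1) = (m ^ 2 - 3 m + 1) ^ 2`, and `(m - 1) ^ 2 - m = m ^ 2 - 3 m + 1`: so `n - m k < (m ^ 2 - 3 m + 1) k`, `n < (m - 1) ^ 2 k`;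
`(m - 1) k ^ 2 = l (n - 1) < l (m - 1) ^ 2 k`. -/
theorem cor {m k l n : ℕ} (hm : 3 ≤ m) (hk : 1 ≤ k) (hl : 1 ≤ l) (hn : m * k ≤ n)
    (h1 : (m ^ 2 - 3 * m + 1) * (n - m * k) ≤ m * (m - 1) * (m - 3) ^ 2 * k)
    (hp : k * ((m - 1) * k) = l * (n - 1)) : n < (m - 1) ^ 2 * k ∧ k < (m - 1) * l := by
  obtain ⟨p, rfl⟩ : ∃ p, m = p + 3 := ⟨m - 3, by omega⟩
  obtain ⟨r, rfl⟩ : ∃ r, n = (p + 3) * k + r := ⟨n - (p + 3) * k, by omega⟩
  have e1 : (p + 3) ^ 2 - 3 * (p + 3) + 1 = p ^ 2 + 3 * p + 1 := by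
    have h : (p + 3) ^ 2 = p ^ 2 + 6 * p + 9 := by ring
    omega
  have e2 : p + 3 - 1 = p + 2 := by omega
  have e3 : p + 3 - 3 = p := by omega
  have e4 : (p + 3) * k + r - (p + 3) * k = r := by omega
  rw [e1, e2, e3, e4] at h1
  rw [e2] at hp ⊢
  have h2 : r < (p ^ 2 + 3 * p + 1) * k := by
    by_contra hc
    rw [not_lt] at hc
    have h3 : (p ^ 2 + 3 * p + 1) * ((p ^ 2 + 3 * p + 1) * k) ≤ (p + 3) * (p + 2) * p ^ 2 * k :=
      (Nat.mul_le_mul_left _ hc).trans h1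
    have h4 : (p ^ 2 + 3 * p + 1) * ((p ^ 2 + 3 * p + 1) * k)
        = (p + 3) * (p + 2) * p ^ 2 * k + ((p + 3) * (p + 2) * p + 1) * k := by ring
    have h5 : 0 < ((p + 3) * (p + 2) * p + 1) * k := Nat.mul_pos (Nat.succ_pos _) hk
    omega
  have h6 : (p + 3) * k + r < (p + 2) ^ 2 * k := by
    have h7 : (p + 2) ^ 2 * k = (p + 3) * k + (p ^ 2 + 3 * p + 1) * k := by ring
    omega
  refine ⟨h6, ?_⟩
  have h8 : l * ((p + 3) * k + r - 1) < l * ((p + 2) ^ 2 * k) :=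
    Nat.mul_lt_mul_of_pos_left (by omega) hl
  rw [← hp] at h8
  have h9 : ((p + 2) * k) * k < ((p + 2) * k) * ((p + 2) * l) := by
    calc ((p + 2) * k) * k = k * ((p + 2) * k) := by ring
      _ < l * ((p + 2) ^ 2 * k) := h8
      _ = ((p + 2) * k) * ((p + 2) * l) := by ring
  exact Nat.lt_of_mul_lt_mul_left h9
-- END cor

-- BEGIN kk
/-- ROW kk. `m k - 1` divides `(m - 1) k ^ 2` and is prime to `k`, so `m k - 1 ≤ m - 1`. -/
theorem kk {m k l : ℕ} (hm : 3 ≤ m) (hk : 1 ≤ k) (hp : k * ((m - 1) * k) = l * (m * k - 1)) :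
    k = 1 := by
  have h1 : m * k - 1 ∣ k * ((m - 1) * k) := ⟨l, by rw [hp, Nat.mul_comm]⟩
  have hmk : 1 ≤ m * k := Nat.mul_pos (by omega) hk
  have hc : Nat.Coprime (m * k - 1) k := by
    have d1 : Nat.gcd (m * k - 1) k ∣ m * k - 1 := Nat.gcd_dvd_left _ _
    have d2 : Nat.gcd (m * k - 1) k ∣ m * k := (Nat.gcd_dvd_right _ _).mul_left m
    have d3 := Nat.dvd_sub d2 d1
    have e : m * k - (m * k - 1) = 1 := by omega
    rw [e] at d3
    exact Nat.dvd_one.1 d3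
  have h2 : m * k - 1 ∣ (m - 1) * k := hc.dvd_of_dvd_mul_left h1
  have h3 : m * k - 1 ∣ m - 1 := hc.dvd_of_dvd_mul_right h2
  have h4 : m * k - 1 ≤ m - 1 := Nat.le_of_dvd (by omega) h3
  by_contra hne
  have h5 : 2 ≤ k := by omega
  have h6 : m * 2 ≤ m * k := Nat.mul_le_mul_left m h5
  omega
-- END kk

end arith

end Pool.Agent.Sedf
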