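import Pool.Agent.Sedf.Three
import Pool.Agent.Sedf.Prj

set_option autoImplicit false

/-!
# Strong external difference families with `m ≥ 3` sets in arbitrary finite groups (MP_4124fc_co)
-/

namespace Pool.Agent.Sedf

open Matrix

section evm

variable {G : Type*} [Group G] [Fintype G] {m k l : ℕ} {A : Fin m → Finset G}

/-- The matrix `S = T - m k P` of the union of the sets. -/
noncomputable def SM (k : ℕ) (A : Fin m → Finset G) : Matrix G G ℝ :=
  rmat (fun g => ∑ j, ind (A j) g) - ((m : ℝ) * k) • PP G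

-- BEGIN frm
/-- ROW frm. Exactly the text of `three_sets` (Three.lean) up to `hs`, with `m` for `3`: `K i = b i * S'ᴴ`, `k_props` (Core.lean) with `hQ`, `hH`;
`∑ K i = (∑ al i) S'ᴴ - (m / 2) S' S'ᴴ = (1 - m / 2) S' S'ᴴ`. -/
theorem frm [DecidableEq G] (hA : IsSEDF m k l A) (hm : 3 ≤ m) (hl : 1 ≤ l) :
    ∃ K : Fin m → Matrix G G ℝ,
      (∀ i, K i * (SM k A * (SM k A)ᴴ) = (SM k A * (SM k A)ᴴ) * K i) ∧
      (∀ i, K i * K i = ((l : ℝ) • (1 : Matrix G G ℝ) + (1 / 4 : ℝ) • (SM k A * (SM k A)ᴴ)) *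
        (SM k A * (SM k A)ᴴ)) ∧
      ∑ i, K i = (-(((m : ℝ) - 2) / 2)) • (SM k A * (SM k A)ᴴ) := by
  set n : ℝ := (Fintype.card G : ℝ) with hn
  have hn0 : n ≠ 0 := card_ne
  have hlpos : (0 : ℝ) < l := by exact_mod_cast hl
  obtain ⟨M, hM⟩ : ∃ M : Fin m → Matrix G G ℝ, ∀ i, M i = rmat (ind (A i)) :=
    ⟨_, fun i => rfl⟩
  obtain ⟨T, hT⟩ : ∃ T : Matrix G G ℝ, T = rmat (fun g => ∑ j, ind (A j) g) := ⟨_, rfl⟩
  have hsumM : ∑ i, M i = T := by
    ext h y
    simp only [hM, hT, Matrix.sum_apply, rmat]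
    push_cast; rfl
  have hMP : ∀ i, M i * PP G = (k : ℝ) • PP G := by
    intro i; rw [hM]; simp only [rmat_mul_PP, sum_ind, hA.1]; simp
  have hPM : ∀ i, PP G * M i = (k : ℝ) • PP G := by
    intro i; rw [hM]; simp only [PP_mul_rmat, sum_ind, hA.1]; simp
  have hTs : ((∑ u : G, ∑ j, ind (A j) u : ℤ) : ℝ) = m * k := by
    rw [Finset.sum_comm]
    simp only [sum_ind, hA.1]
    simp
  have hTP : T * PP G = (m * k : ℝ) • PP G := by rw [hT, rmat_mul_PP, hTs]
  have hPT : PP G * T = (m * k : ℝ) • PP G := by rw [hT, PP_mul_rmat, hTs]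
  have hPMH : ∀ i, PP G * (M i)ᴴ = (k : ℝ) • PP G := by
    intro i
    have := congrArg Matrix.conjTranspose (hMP i)
    rw [Matrix.conjTranspose_mul, PP_conjTranspose, Matrix.conjTranspose_smul,
      PP_conjTranspose] at this
    simpa using this
  have hPTH : PP G * Tᴴ = (m * k : ℝ) • PP G := by
    have := congrArg Matrix.conjTranspose hTP
    rw [Matrix.conjTranspose_mul, PP_conjTranspose, Matrix.conjTranspose_smul,
      PP_conjTranspose] at this
    simpa using this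
  have hpar : (k : ℝ) * (m * k - k) = l * (n - 1) := by
    have := param hA ⟨0, by omega⟩
    rw [hn]
    exact_mod_cast this
  have hmain : ∀ i, M i * Tᴴ = M i * (M i)ᴴ + (l : ℝ) • (n • PP G - 1) := by
    intro i; rw [hM, hT, hn]; exact main_identity hA i
  obtain ⟨S', hS'⟩ : ∃ S' : Matrix G G ℝ, S' = T - (m * k : ℝ) • PP G := ⟨_, rfl⟩
  have hSM : SM k A = S' := by rw [hS', hT]; rfl
  rw [hSM]
  obtain ⟨al, hal⟩ : ∃ al : Fin m → Matrix G G ℝ, ∀ i, al i = M i - (k : ℝ) • PP G :=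
    ⟨_, fun i => rfl⟩
  have hS'P : S' * PP G = 0 := by
    rw [hS', Matrix.sub_mul, hTP, Matrix.smul_mul, PP_mul_PP, sub_self]
  have halP : ∀ i, al i * PP G = 0 := by
    intro i
    simp only [hal, Matrix.sub_mul, hMP, Matrix.smul_mul, PP_mul_PP, sub_self]
  have hPS' : PP G * S'ᴴ = 0 := by
    have := congrArg Matrix.conjTranspose hS'P
    rw [Matrix.conjTranspose_mul, PP_conjTranspose, Matrix.conjTranspose_zero] at this
    exact this
  have hPal : ∀ i, PP G * (al i)ᴴ = 0 := by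
    intro i
    have := congrArg Matrix.conjTranspose (halP i)
    rw [Matrix.conjTranspose_mul, PP_conjTranspose, Matrix.conjTranspose_zero] at this
    exact this
  have hS'H : S'ᴴ = Tᴴ - (m * k : ℝ) • PP G := by
    rw [hS', Matrix.conjTranspose_sub, Matrix.conjTranspose_smul, PP_conjTranspose]; simp
  have halH : ∀ i, (al i)ᴴ = (M i)ᴴ - (k : ℝ) • PP G := by
    intro i
    simp only [hal, Matrix.conjTranspose_sub, Matrix.conjTranspose_smul, PP_conjTranspose]
    simp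
  have key : ∀ i, al i * S'ᴴ = al i * (al i)ᴴ - (l : ℝ) • (1 - PP G) := by
    intro i
    have e1 : al i * S'ᴴ = M i * Tᴴ - (m * k * k : ℝ) • PP G := by
      have : al i * S'ᴴ = M i * S'ᴴ := by
        rw [hal]; simp only [Matrix.sub_mul, Matrix.smul_mul, hPS', smul_zero, sub_zero]
      rw [this, hS'H, Matrix.mul_sub, Matrix.mul_smul, hMP, smul_smul]
    have e2 : al i * (al i)ᴴ = M i * (M i)ᴴ - (k * k : ℝ) • PP G := by
      have : al i * (al i)ᴴ = M i * (al i)ᴴ := by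
        have h0 : al i * (al i)ᴴ = (M i - (k : ℝ) • PP G) * (al i)ᴴ := by rw [← hal]
        rw [h0]
        simp only [Matrix.sub_mul, Matrix.smul_mul, hPal, smul_zero, sub_zero]
      rw [this, halH, Matrix.mul_sub, Matrix.mul_smul, hMP, smul_smul]
    rw [e1, e2, hmain]
    have hc : (m * k * k : ℝ) = l * (n - 1) + k * k := by rw [← hpar]; ring
    rw [hc]
    module
  have key' : ∀ i, S' * (al i)ᴴ = al i * (al i)ᴴ - (l : ℝ) • (1 - PP G) := by
    intro i
    have := congrArg Matrix.conjTranspose (key i)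
    rw [Matrix.conjTranspose_mul, Matrix.conjTranspose_conjTranspose, Matrix.conjTranspose_sub,
      Matrix.conjTranspose_mul, Matrix.conjTranspose_conjTranspose, Matrix.conjTranspose_smul,
      Matrix.conjTranspose_sub, PP_conjTranspose] at this
    simpa using this
  set r : ℝ := Real.sqrt l with hr
  have hrr : r * r = l := Real.mul_self_sqrt hlpos.le
  obtain ⟨b, hb⟩ : ∃ b : Fin m → Matrix G G ℝ,
      ∀ i, b i = al i - (1 / 2 : ℝ) • S' + r • PP G := ⟨_, fun i => rfl⟩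
  have hbH : ∀ i, (b i)ᴴ = (al i)ᴴ - (1 / 2 : ℝ) • S'ᴴ + r • PP G := by
    intro i
    rw [hb]
    simp only [Matrix.conjTranspose_add, Matrix.conjTranspose_sub, Matrix.conjTranspose_smul,
      PP_conjTranspose]
    simp
  have hbS : ∀ i, b i * S'ᴴ = al i * S'ᴴ - (1 / 2 : ℝ) • (S' * S'ᴴ) := by
    intro i
    rw [hb]
    simp only [Matrix.add_mul, Matrix.sub_mul, Matrix.smul_mul, hPS', smul_zero, add_zero]
  have hSb : ∀ i, S' * (b i)ᴴ = S' * (al i)ᴴ - (1 / 2 : ℝ) • (S' * S'ᴴ) := by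
    intro i
    rw [hbH]
    simp only [Matrix.mul_add, Matrix.mul_sub, Matrix.mul_smul, hS'P, smul_zero, add_zero]
  have hQ : ∀ i, b i * (b i)ᴴ = (l : ℝ) • (1 : Matrix G G ℝ) + (1 / 4 : ℝ) • (S' * S'ᴴ) := by
    intro i
    have e1 : b i * (b i)ᴴ = al i * (al i)ᴴ - (1 / 2 : ℝ) • (al i * S'ᴴ)
        - (1 / 2 : ℝ) • (S' * (al i)ᴴ) + (1 / 4 : ℝ) • (S' * S'ᴴ) + (r * r) • PP G := by
      have f1 : b i * (b i)ᴴ = b i * (al i)ᴴ - (1 / 2 : ℝ) • (b i * S'ᴴ) + r • (b i * PP G) := by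
        rw [hbH]; simp only [Matrix.mul_add, Matrix.mul_sub, Matrix.mul_smul]
      have f2 : b i * (al i)ᴴ = al i * (al i)ᴴ - (1 / 2 : ℝ) • (S' * (al i)ᴴ) := by
        rw [hb]
        simp only [Matrix.add_mul, Matrix.sub_mul, Matrix.smul_mul, hPal, smul_zero, add_zero]
      have f3 : b i * PP G = r • PP G := by
        rw [hb]
        simp only [Matrix.add_mul, Matrix.sub_mul, Matrix.smul_mul, halP, hS'P, PP_mul_PP,
          smul_zero, sub_zero, zero_add]
      rw [f1, f2, f3, hbS]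
      module
    rw [e1, key, key', hrr]
    module
  have hH : ∀ i, b i * S'ᴴ = S' * (b i)ᴴ := by
    intro i; rw [hbS, hSb, key, key']
  have hsal : ∑ i, al i = S' := by
    simp only [hal]
    rw [hS', ← hsumM, Finset.sum_sub_distrib]
    congr 1
    rw [Finset.sum_const, Finset.card_univ, Fintype.card_fin, ← Nat.cast_smul_eq_nsmul ℝ, smul_smul]
  refine ⟨fun i => b i * S'ᴴ, fun i => (k_props (l : ℝ) hlpos S' (b i) (hQ i) (hH i)).1,
    fun i => (k_props (l : ℝ) hlpos S' (b i) (hQ i) (hH i)).2, ?_⟩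
  simp only [hbS]
  rw [Finset.sum_sub_distrib, ← Finset.sum_mul, hsal, Finset.sum_const, Finset.card_univ,
    Fintype.card_fin, ← Nat.cast_smul_eq_nsmul ℝ, smul_smul]
  module
-- END frm

-- BEGIN mkn
/-- ROW mkn. The sets are disjoint (`Finset.card_biUnion`, `Finset.card_le_univ`). -/
theorem mkn (hA : IsSEDF m k l A) : m * k ≤ Fintype.card G := by
  classical
  have h1 : (Finset.univ.biUnion A).card = ∑ i, (A i).card :=
    Finset.card_biUnion (fun i _ j _ hij => hA.2.1 i j hij)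
  have h2 : ∑ i, (A i).card = m * k := by
    rw [Finset.sum_congr rfl (fun i _ => hA.1 i)]
    simp
  have h3 := Finset.card_le_univ (Finset.univ.biUnion A)
  omega
-- END mkn

-- BEGIN sone
/-- ROW sone. `Sᴴ` kills the constant vector: the column sums of `T` are `m k` (`rmat_sum_col`, `sum_ind`), those of `P` are `1`. -/
theorem sone (hA : IsSEDF m k l A) : (SM k A * (SM k A)ᴴ) *ᵥ (fun _ => 1) = 0 := by
  have h : (SM k A)ᴴ *ᵥ (fun _ => (1 : ℝ)) = 0 := by
    funext y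
    have h1 : ((SM k A)ᴴ *ᵥ (fun _ => (1 : ℝ))) y = ∑ h, SM k A h y := by
      simp [Matrix.mulVec, dotProduct, Matrix.conjTranspose_apply]
    have h2 : ∑ h, SM k A h y = ((∑ u, ∑ j, ind (A j) u : ℤ) : ℝ) - (m : ℝ) * k := by
      rw [← rmat_sum_col (fun g => ∑ j, ind (A j) g) y]
      have h4 : ∀ h, SM k A h y = rmat (fun g => ∑ j, ind (A j) g) h y -
          (m : ℝ) * k * (Fintype.card G : ℝ)⁻¹ := fun h => rfl
      simp only [h4]
      rw [Finset.sum_sub_distrib, Finset.sum_const, Finset.card_univ, nsmul_eq_mul]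
      have h5 := card_ne (G := G)
      field_simp
    have h3 : (∑ u, ∑ j, ind (A j) u : ℤ) = m * k := by
      rw [Finset.sum_comm]
      simp only [sum_ind, hA.1, Finset.sum_const, Finset.card_univ, Fintype.card_fin,
        nsmul_eq_mul]
    rw [h1, h2, h3]
    push_cast
    exact sub_self _
  rw [← Matrix.mulVec_mulVec, h, Matrix.mulVec_zero]
-- END sone

-- BEGIN trs
private theorem trs_D (hA : IsSEDF m k l A) (g : G) :
    ((∑ j, ind (A j) g : ℤ)) * (∑ j, ind (A j) g) = ∑ j, ind (A j) g := by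
  classical
  rw [Finset.sum_mul_sum]
  refine Finset.sum_congr rfl fun i _ => ?_
  rw [Finset.sum_eq_single i]
  · unfold ind
    by_cases h : g ∈ A i <;> simp [h]
  · intro j _ hj
    exact ind_mul_ind_of_disjoint (hA.2.1 i j (Ne.symm hj)) g
  · intro h
    exact absurd (Finset.mem_univ _) h

private theorem trs_st (hA : IsSEDF m k l A) :
    ((∑ u, ∑ j, ind (A j) u : ℤ) : ℝ) = (m : ℝ) * k := by
  rw [Finset.sum_comm]
  simp only [sum_ind, hA.1]
  simp

/-- ROW trs. The trace is the sum of the squares of the entries of `S` (`Matrix.trace`, `Matrix.mul_apply`); the row of `h` has the entries `ind_D - m k / n` (`D` the union, `∑ j, ind (A j) g` is `0` or `1`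
because of the disjointness, so it equals its square), hence sum of squares `m k - (m k) ^ 2 / n`, `n` rows. -/
theorem trs (hA : IsSEDF m k l A) :
    (SM k A * (SM k A)ᴴ).trace = (m : ℝ) * k * (Fintype.card G - m * k) := by
  have hn : (Fintype.card G : ℝ) ≠ 0 := card_ne
  have row : ∀ h : G, (SM k A * (SM k A)ᴴ) h h =
      (m : ℝ) * k - ((m : ℝ) * k) ^ 2 * (Fintype.card G : ℝ)⁻¹ := by
    intro h
    rw [Matrix.mul_apply]
    have e1 : ∀ y : G, SM k A h y * (SM k A)ᴴ y h =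
        rmat (fun g => ∑ j, ind (A j) g) h y -
          2 * ((m : ℝ) * k * (Fintype.card G : ℝ)⁻¹) * rmat (fun g => ∑ j, ind (A j) g) h y +
          ((m : ℝ) * k * (Fintype.card G : ℝ)⁻¹) ^ 2 := by
      intro y
      have h1 : rmat (fun g => ∑ j, ind (A j) g) h y * rmat (fun g => ∑ j, ind (A j) g) h y =
          rmat (fun g => ∑ j, ind (A j) g) h y := by
        change (((∑ j, ind (A j) (h⁻¹ * y) : ℤ)) : ℝ) * (((∑ j, ind (A j) (h⁻¹ * y) : ℤ)) : ℝ) =
          (((∑ j, ind (A j) (h⁻¹ * y) : ℤ)) : ℝ)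
        rw [← Int.cast_mul, trs_D hA]
      have h2 : SM k A h y = rmat (fun g => ∑ j, ind (A j) g) h y -
          (m : ℝ) * k * (Fintype.card G : ℝ)⁻¹ := rfl
      rw [Matrix.conjTranspose_apply, star_trivial, h2]
      linear_combination h1
    rw [Finset.sum_congr rfl (fun y _ => e1 y), Finset.sum_add_distrib, Finset.sum_sub_distrib,
      ← Finset.mul_sum, rmat_sum_row, trs_st hA, Finset.sum_const, Finset.card_univ, nsmul_eq_mul]
    field_simp
    ring
  rw [Matrix.trace]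
  simp only [Matrix.diag_apply, row, Finset.sum_const, Finset.card_univ, nsmul_eq_mul]
  field_simp
-- END trs

-- BEGIN itg
private theorem itg_sum (hA : IsSEDF m k l A) :
    ((∑ u, ∑ j, ind (A j) u : ℤ) : ℝ) = (m : ℝ) * k := by
  rw [Finset.sum_comm]
  have h : ∑ j, ∑ u, ind (A j) u = (m : ℤ) * k := by
    rw [Finset.sum_congr rfl fun j _ => (sum_ind (A j)).trans (by rw [hA.1 j])]
    simp
  rw [h]
  push_cast
  ring

private theorem itg_root [DecidableEq G] (N : Matrix G G ℤ) {a : ℝ} {v : G → ℝ} (hv : v ≠ 0)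
    (h : (N.map (Int.castRingHom ℝ)) *ᵥ v = a • v) : IsIntegral ℤ a := by
  refine ⟨N.charpoly, N.charpoly_monic, ?_⟩
  have h1 : (Matrix.scalar G a - N.map (Int.castRingHom ℝ)).det = 0 := by
    rw [← Matrix.exists_mulVec_eq_zero_iff]
    refine ⟨v, hv, ?_⟩
    rw [Matrix.sub_mulVec, h]
    ext i
    simp [Matrix.mulVec, dotProduct, Matrix.diagonal]
  rw [← Matrix.eval_charpoly, Matrix.charpoly_map, Polynomial.eval_map] at h1
  exact h1

/-- ROW itg. `P v = 0`: `a P v = P S Sᴴ v = 0` since `P S = 0` (`PP_mul_rmat`, `PP_mul_PP`, `sum_ind`), `a ≠ 0`. So `T Tᴴ v = S Sᴴ v = a v` (`S Sᴴ = T Tᴴ - (m k) ^ 2 P`; `Tᴴ v = Sᴴ v` as `P v = 0`),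
and `T Tᴴ` has integral entries: `a` is a root of its characteristic polynomial (`Matrix.charpoly`, `Matrix.charpoly_map`, `Matrix.exists_mulVec_eq_zero_iff`), which is monic with integral coefficients. -/
theorem itg [DecidableEq G] (hA : IsSEDF m k l A) {a : ℝ} (ha : 0 < a) {v : G → ℝ} (hv : v ≠ 0)
    (h : (SM k A * (SM k A)ᴴ) *ᵥ v = a • v) : IsIntegral ℤ a := by
  set f : G → ℤ := fun g => ∑ j, ind (A j) g with hf
  set c : ℝ := (m : ℝ) * k with hc
  have hs : ((∑ u, f u : ℤ) : ℝ) = c := itg_sum hA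
  have hS : SM k A = rmat f - c • PP G := rfl
  have hPT : PP G * rmat f = c • PP G := by rw [PP_mul_rmat, hs]
  have hTP : rmat f * PP G = c • PP G := by rw [rmat_mul_PP, hs]
  have hPT' : PP G * (rmat f)ᴴ = c • PP G := by
    have h1 := congrArg Matrix.conjTranspose hTP
    rw [Matrix.conjTranspose_mul, Matrix.conjTranspose_smul, PP_conjTranspose, star_trivial] at h1
    exact h1
  have hPS : PP G * SM k A = 0 := by
    rw [hS, Matrix.mul_sub, hPT, Matrix.mul_smul, PP_mul_PP, sub_self]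
  have hPv : PP G *ᵥ v = 0 := by
    have h1 : PP G *ᵥ ((SM k A * (SM k A)ᴴ) *ᵥ v) = 0 := by
      rw [Matrix.mulVec_mulVec, ← Matrix.mul_assoc, hPS, Matrix.zero_mul, Matrix.zero_mulVec]
    rw [h, Matrix.mulVec_smul] at h1
    exact (smul_eq_zero.1 h1).resolve_left ha.ne'
  have hSS : SM k A * (SM k A)ᴴ = rmat f * (rmat f)ᴴ - (c * c) • PP G := by
    rw [hS, Matrix.conjTranspose_sub, Matrix.conjTranspose_smul, PP_conjTranspose, star_trivial,
      Matrix.sub_mul, Matrix.mul_sub, Matrix.mul_sub, Matrix.mul_smul, hTP, Matrix.smul_mul,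
      Matrix.smul_mul, hPT', Matrix.mul_smul, PP_mul_PP, smul_smul]
    abel
  have hT : (rmat f * (rmat f)ᴴ) *ᵥ v = a • v := by
    have h1 : (rmat f * (rmat f)ᴴ) = SM k A * (SM k A)ᴴ + (c * c) • PP G := by
      rw [hSS, sub_add_cancel]
    rw [h1, Matrix.add_mulVec, h, Matrix.smul_mulVec, hPv, smul_zero, add_zero]
  have hM : rmat f * (rmat f)ᴴ =
      ((Matrix.of fun h y : G => f (h⁻¹ * y)) *
        (Matrix.of fun h y : G => f (h⁻¹ * y))ᵀ).map (Int.castRingHom ℝ) := by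
    ext x y
    simp [Matrix.mul_apply, rmat]
  rw [hM] at hT
  exact itg_root _ hv hT
-- END itg

-- BEGIN sz
/-- ROW sz. As the end of `three_sets`: `S = 0` gives `∑ j, ind (A j) g = m k / n` for all `g`, and it is `1` for `g` in `A 0`. -/
theorem sz (hA : IsSEDF m k l A) (hm : 3 ≤ m) (hk : 1 ≤ k) (h : SM k A = 0) :
    m * k = Fintype.card G := by
  classical
  have hn0 : (Fintype.card G : ℝ) ≠ 0 := card_ne
  have hval : ∀ g : G, ((∑ j, ind (A j) g : ℤ) : ℝ) = m * k * (Fintype.card G : ℝ)⁻¹ := by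
    intro g
    have h1 := congrFun (congrFun h 1) g
    simp only [SM, Matrix.sub_apply, Matrix.smul_apply, rmat, PP, smul_eq_mul,
      Matrix.zero_apply, inv_one, one_mul] at h1
    linarith
  let i0 : Fin m := ⟨0, by omega⟩
  obtain ⟨g0, hg0⟩ : (A i0).Nonempty := by
    rw [← Finset.card_pos, hA.1]
    omega
  have h1 : (∑ j, ind (A j) g0 : ℤ) = 1 := by
    rw [Finset.sum_eq_single i0]
    · simp [ind, hg0]
    · intro j _ hj
      have h2 : g0 ∉ A j := Finset.disjoint_left.mp (hA.2.1 i0 j hj.symm) hg0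
      simp [ind, h2]
    · intro h2
      exact absurd (Finset.mem_univ i0) h2
  have h2 := hval g0
  rw [h1, Int.cast_one] at h2
  have h3 : ((m * k : ℕ) : ℝ) = (Fintype.card G : ℝ) := by
    push_cast
    field_simp at h2
    linarith
  exact_mod_cast h3
-- END sz

/-- the counting identity in `ℕ` -/
theorem parN (hA : IsSEDF m k l A) (hm : 3 ≤ m) :
    k * ((m - 1) * k) = l * (Fintype.card G - 1) := by
  have h := param hA ⟨0, by omega⟩
  have h1 : 0 < Fintype.card G := Fintype.card_pos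
  zify [show 1 ≤ m by omega, show 1 ≤ Fintype.card G by omega]
  linear_combination h

theorem eigs [DecidableEq G] (hA : IsSEDF m k l A) (hm : 3 ≤ m) (hl : 1 ≤ l) {a : ℝ}
    (ha : 0 < a) {v : G → ℝ} (hv : v ≠ 0) (h : (SM k A * (SM k A)ᴴ) *ᵥ v = a • v) :
    ((m : ℝ) ^ 2 - 3 * m + 1) * a ≤ l * (m * (m - 3)) ^ 2 ∧
      ∃ A Y : ℕ, 0 < A ∧ 0 < Y ∧ (A : ℝ) = a ∧ Y ^ 2 + A * Y = l * A := by
  obtain ⟨K, h1, h2, h3⟩ := frm hA hm hl
  have hl0 : (0 : ℝ) < l := by exact_mod_cast hl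
  obtain ⟨g, hg, g1, g2, e, M, he, hM⟩ := eig hm hl0 _ K h1 h2 h3 ha hv h
  exact ⟨gb hm hl0 ha hg g1 g2, rat hm hl he ha hg g1 hM (itg hA ha hv h)⟩

-- BEGIN bnd
/-- ROW bnd. `u = m (m - 3)`. `trc` with `B = l u ^ 2 / (u + 1)` (`eigs`, `sone`), `trs`: `m k (n - m k) ≤ (n - 1) l u ^ 2 / (u + 1) = (m - 1) k ^ 2 u ^ 2 / (u + 1)` (`parN`).
Divide by `m k`; cast to `ℕ` (`mkn`). -/
theorem bnd [DecidableEq G] (hA : IsSEDF m k l A) (hm : 3 ≤ m) (hk : 1 ≤ k) (hl : 1 ≤ l) :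
    (m ^ 2 - 3 * m + 1) * (Fintype.card G - m * k) ≤ m * (m - 1) * (m - 3) ^ 2 * k := by
  have hn := mkn hA
  have h3 : 3 * m ≤ m ^ 2 := by nlinarith
  have hcard : 1 ≤ Fintype.card G := Fintype.card_pos
  have hM : (3 : ℝ) ≤ m := by exact_mod_cast hm
  have hK : (1 : ℝ) ≤ k := by exact_mod_cast hk
  have hU : (0 : ℝ) < (m : ℝ) ^ 2 - 3 * m + 1 := by nlinarith
  have ht := trc (SM k A) (B := (l : ℝ) * (m * (m - 3)) ^ 2 / ((m : ℝ) ^ 2 - 3 * m + 1))
    (by positivity) (fun a ha v hv h => by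
      rw [le_div_iff₀ hU]
      have h4 := (eigs hA hm hl ha hv h).1
      linarith) (w := fun _ => 1) (fun h => one_ne_zero (congrFun h 1)) (sone hA)
  rw [trs hA, ← mul_div_assoc, le_div_iff₀ hU] at ht
  have hp : (k : ℝ) * (((m : ℝ) - 1) * k) = l * ((Fintype.card G : ℝ) - 1) := by
    have h5 := congrArg (Nat.cast (R := ℝ)) (parN hA hm)
    push_cast [Nat.cast_sub hcard, Nat.cast_sub (show 1 ≤ m by omega)] at h5
    exact h5
  have hmk : (0 : ℝ) < (m : ℝ) * k := by positivity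
  have key : ((m : ℝ) ^ 2 - 3 * m + 1) * ((Fintype.card G : ℝ) - m * k) ≤
      m * (m - 1) * (m - 3) ^ 2 * k := by
    refine le_of_mul_le_mul_left ?_ hmk
    have e : (m : ℝ) * k * (m * (m - 1) * (m - 3) ^ 2 * k) =
        (k * (((m : ℝ) - 1) * k)) * (m * (m - 3)) ^ 2 := by ring
    rw [e, hp]
    linarith
  have hfin : (((m ^ 2 - 3 * m + 1) * (Fintype.card G - m * k) : ℕ) : ℝ) ≤
      ((m * (m - 1) * (m - 3) ^ 2 * k : ℕ) : ℝ) := by
    push_cast [Nat.cast_sub h3, Nat.cast_sub hn, Nat.cast_sub (show 1 ≤ m by omega),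
      Nat.cast_sub hm]
    exact key
  exact_mod_cast hfin
-- END bnd

theorem every [DecidableEq G] (hA : IsSEDF m k l A) (hm : 3 ≤ m) (hk : 1 ≤ k) (hl : 1 ≤ l) :
    (m ^ 2 - 3 * m + 1) * (Fintype.card G - m * k) ≤ m * (m - 1) * (m - 3) ^ 2 * k ∧
      Fintype.card G < (m - 1) ^ 2 * k ∧ k < (m - 1) * l ∧
      (1 < k → ∃ d : ℕ, d ∣ l ^ 2 ∧ d < l ∧ l ≤ (m ^ 2 - 3 * m + 1) * d) := by
  have hb := bnd hA hm hk hl
  have hc := cor hm hk hl (mkn hA) hb (parN hA hm)
  refine ⟨hb, hc.1, hc.2, fun hk1 => ?_⟩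
  by_cases h : ∃ a : ℝ, 0 < a ∧ ∃ v : G → ℝ, v ≠ 0 ∧ (SM k A * (SM k A)ᴴ) *ᵥ v = a • v
  · obtain ⟨a, ha, v, hv, hav⟩ := h
    obtain ⟨h1, B, Y, hB, hY, hBa, hBY⟩ := eigs hA hm hl ha hv hav
    refine dvs hm hB hY hBY ?_
    rw [← hBa] at h1
    have h3 : 3 * m ≤ m ^ 2 := by nlinarith
    zify [h3, hm]
    exact_mod_cast h1
  · have h0 := sz hA hm hk (zer _ h)
    have h1 := parN hA hm
    rw [← h0] at h1
    have h2 := kk hm hk h1
    omega

end evm

end Pool.Agent.Sedf
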