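import Pool.Agent.Sedf.Normal

namespace Pool.Agent.Sedf

variable {G : Type*} [Group G] [Fintype G] {m k l u e : ℕ} {a : Fin m → G → ℤ}

theorem card_eq (hm : m = 4 * u + 3) (hk : k = m * u) :
    m * k + 1 = (u + 1) * ((4 * u + 1) * (4 * u + 1)) := by
  rw [hk, hm]; ring

/-- `u + 1` is a power of three. -/
theorem Near.pow_three (ha : Near G m k l a) (hm : m = 4 * u + 3) (hk : k = m * u)
    (hl : l = (m - 1) * u) (hn : m * k + 1 = Fintype.card G) (hu : 1 ≤ u) :
    ∃ e : ℕ, 1 ≤ e ∧ u + 1 = 3 ^ e := by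
  have huniq : ∀ {d : ℕ}, d.Prime → d ∣ u + 1 → d = 3 := by
    intro d hd hdu
    have h1 : d ∣ Fintype.card G := by
      rw [← hn, card_eq hm hk]
      exact hdu.mul_right _
    have h2 := ha.prime_dvd hm hk hl hn hd h1
    have h3 : d ∣ 3 := by
      have h4 : d ∣ 4 * (u + 1) := hdu.mul_left _
      have h5 : 4 * (u + 1) = (4 * u + 1) + 3 := by ring
      rw [h5] at h4
      exact (Nat.dvd_add_right h2).mp h4
    exact (Nat.prime_dvd_prime_iff_eq hd Nat.prime_three).mp h3
  have hpow := Nat.eq_prime_pow_of_unique_prime_dvd (n := u + 1) (p := 3) (by omega) huniq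
  refine ⟨_, ?_, hpow⟩
  by_contra h
  have : (u + 1).primeFactorsList.length = 0 := by omega
  rw [this] at hpow
  omega

/-- For `e ≥ 2` no Sylow subgroup is normal. -/
theorem Near.sylow_not_normal (ha : Near G m k l a) (hm : m = 4 * u + 3) (hk : k = m * u)
    (hl : l = (m - 1) * u) (hn : m * k + 1 = Fintype.card G) (hu : u + 1 = 3 ^ e) (he : 2 ≤ e)
    {p : ℕ} (hp : p.Prime) (hpn : p ∣ Fintype.card G) (K : Sylow p G)
    (hK : (K : Subgroup G).Normal) : False := by
  have : Fact p.Prime := ⟨hp⟩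
  have hpD := ha.prime_dvd hm hk hl hn hp hpn
  have hnotdvd : ¬ p ∣ (K : Subgroup G).index := K.not_dvd_index
  have hcardK : Nat.card K ∣ Fintype.card G := by
    rw [← Nat.card_eq_fintype_card]; exact Subgroup.card_subgroup_dvd_card _
  obtain ⟨j, hj⟩ := IsPGroup.iff_card.mp K.isPGroup'
  have hdvd := fun i => ha.normal_dvd hm hk hl (K : Subgroup G) i
  have hsum := ha.sum_alp (K : Subgroup G)
  rw [← hn, card_eq hm hk, hu] at hcardK
  have hcardK' : p ^ j ∣ 3 ^ e * ((4 * u + 1) * (4 * u + 1)) := by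
    rw [← hj]; exact hcardK
  obtain ⟨e', rfl⟩ : ∃ e', e = e' + 2 := ⟨e - 2, by omega⟩
  have hu3 : 9 ≤ u + 1 := by
    rw [hu, pow_add]
    have : 1 ≤ 3 ^ e' := Nat.one_le_pow _ _ (by norm_num)
    omega
  have h3D : 4 * u + 1 = 3 * (12 * 3 ^ e' - 1) := by
    have h1 : u + 1 = 3 ^ e' * 9 := by rw [hu, pow_add]; norm_num
    have : 1 ≤ 3 ^ e' := Nat.one_le_pow _ _ (by norm_num)
    omega
  set v := 12 * 3 ^ e' - 1 with hv
  have h3v : ¬ 3 ∣ v := by
    have : 1 ≤ 3 ^ e' := Nat.one_le_pow _ _ (by norm_num)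
    omega
  by_cases hp3 : p = 3
  · subst hp3
    -- the Sylow 3-subgroup
    have hle : 3 ^ j ≤ 3 ^ (e' + 4) := by
      have h1 : 3 ^ j ∣ 3 ^ (e' + 4) * (v * v) := by
        have : 3 ^ (e' + 2) * ((4 * u + 1) * (4 * u + 1)) = 3 ^ (e' + 4) * (v * v) := by
          rw [h3D]; ring
        rwa [this] at hcardK'
      have hcop : Nat.Coprime (3 ^ j) (v * v) := by
        apply Nat.Coprime.pow_left
        rw [Nat.coprime_mul_iff_right]
        have := (Nat.Prime.coprime_iff_not_dvd Nat.prime_three).mpr h3v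
        exact ⟨this, this⟩
      exact Nat.le_of_dvd (by positivity) (hcop.dvd_of_dvd_mul_right h1)
    have hodd : Odd (Nat.card (K : Subgroup G)) := by
      have : Nat.card (K : Subgroup G) = 3 ^ j := hj
      rw [this]
      exact Odd.pow (by decide)
    have h4 : ∀ i, 4 ≤ alp (K : Subgroup G) (a i) := by
      intro i
      have e1 := ha.alp_even (K : Subgroup G) hodd i
      have e2 := ha.alp_nonneg (K : Subgroup G) i
      have e3 : (3 : ℤ) ∣ ((K : Subgroup G).index : ℤ) * (2 * alp (K : Subgroup G) (a i) + 1) := by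
        refine Dvd.dvd.trans ?_ (hdvd i)
        have : (4 * (u : ℤ) + 1) = 3 * v := by exact_mod_cast h3D
        rw [this]
        exact dvd_mul_right _ _
      have e4 : (3 : ℤ) ∣ 2 * alp (K : Subgroup G) (a i) + 1 := by
        have hpr : Prime (3 : ℤ) := by norm_num [Int.prime_iff_natAbs_prime]
        rcases hpr.dvd_or_dvd e3 with h | h
        · exfalso
          apply hnotdvd
          exact_mod_cast h
        · exact h
      omega
    have h5 : (m : ℤ) * 4 ≤ (Nat.card (K : Subgroup G) : ℤ) - 1 := by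
      rw [← hsum]
      calc (m : ℤ) * 4 = ∑ i : Fin m, (4 : ℤ) := by simp
        _ ≤ _ := Finset.sum_le_sum fun i _ => h4 i
    have h6 : (Nat.card (K : Subgroup G) : ℤ) = ((3 ^ j : ℕ) : ℤ) := by
      have : Nat.card (K : Subgroup G) = 3 ^ j := hj
      rw [this]
    rw [h6] at h5
    have h7 : m * 4 + 1 ≤ 3 ^ j := by
      have : ((m * 4 + 1 : ℕ) : ℤ) ≤ ((3 ^ j : ℕ) : ℤ) := by push_cast; push_cast at h5; linarith
      exact_mod_cast this
    have h8 : 3 ^ (e' + 4) = 81 * 3 ^ e' := by rw [pow_add]; ring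
    have h9 : u + 1 = 9 * 3 ^ e' := by rw [hu, pow_add]; ring
    have h10 : 1 ≤ 3 ^ e' := Nat.one_le_pow _ _ (by norm_num)
    omega
  · -- another prime
    obtain ⟨s, D', hD', hDs⟩ := Nat.exists_eq_pow_mul_and_not_dvd (n := 4 * u + 1) (by omega) p
      hp.ne_one
    have hs : 1 ≤ s := by
      by_contra h
      have : s = 0 := by omega
      rw [this, pow_zero, one_mul] at hDs
      rw [hDs] at hpD
      exact hD' hpD
    set P := p ^ s with hP
    have hP2 : 2 ≤ P := by
      calc 2 ≤ p := hp.two_le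
        _ = p ^ 1 := (pow_one p).symm
        _ ≤ p ^ s := Nat.pow_le_pow_right hp.pos hs
    have hcop3 : Nat.Coprime p 3 := (Nat.coprime_primes hp Nat.prime_three).mpr hp3
    have h3P : 3 * P ≤ 4 * u + 1 := by
      have h1 : P ∣ 4 * u + 1 := ⟨D', hDs⟩
      have h2 : 3 ∣ 4 * u + 1 := ⟨v, h3D⟩
      have h3 : 3 * P ∣ 4 * u + 1 :=
        Nat.Coprime.mul_dvd_of_dvd_of_dvd (hcop3.pow_left s).symm h2 h1
      exact Nat.le_of_dvd (by omega) h3
    have hle : p ^ j ≤ P * P := by
      have h1 : p ^ j ∣ (D' * D') * (P * P) := by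
        have h2 : Nat.Coprime (p ^ j) (3 ^ (e' + 2)) := Nat.Coprime.pow _ _ hcop3
        have h3 := h2.dvd_of_dvd_mul_left hcardK'
        rw [hDs] at h3
        have : P * D' * (P * D') = (D' * D') * (P * P) := by ring
        rwa [this] at h3
      have hcop : Nat.Coprime (p ^ j) (D' * D') := by
        apply Nat.Coprime.pow_left
        rw [Nat.coprime_mul_iff_right]
        have := (Nat.Prime.coprime_iff_not_dvd hp).mpr hD'
        exact ⟨this, this⟩
      exact Nat.le_of_dvd (by positivity) (hcop.dvd_of_dvd_mul_left h1)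
    have h4 : ∀ i, (P : ℤ) ≤ 2 * alp (K : Subgroup G) (a i) + 1 := by
      intro i
      have e2 := ha.alp_nonneg (K : Subgroup G) i
      have e3 : (P : ℤ) ∣ ((K : Subgroup G).index : ℤ) * (2 * alp (K : Subgroup G) (a i) + 1) := by
        refine Dvd.dvd.trans ?_ (hdvd i)
        have : (4 * (u : ℤ) + 1) = P * D' := by exact_mod_cast hDs
        rw [this]
        exact dvd_mul_right _ _
      have hcopi : IsCoprime (P : ℤ) ((K : Subgroup G).index : ℤ) := by
        rw [Nat.isCoprime_iff_coprime]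
        exact ((Nat.Prime.coprime_iff_not_dvd hp).mpr hnotdvd).pow_left s
      exact Int.le_of_dvd (by linarith) (hcopi.dvd_of_dvd_mul_left e3)
    have h5 : (m : ℤ) * P ≤ 2 * ((Nat.card (K : Subgroup G) : ℤ) - 1) + m := by
      rw [← hsum, Finset.mul_sum]
      calc (m : ℤ) * P = ∑ i : Fin m, (P : ℤ) := by simp
        _ ≤ ∑ i : Fin m, (2 * alp (K : Subgroup G) (a i) + 1) :=
            Finset.sum_le_sum fun i _ => h4 i
        _ = _ := by rw [Finset.sum_add_distrib]; simp
    have h6 : (Nat.card (K : Subgroup G) : ℤ) = ((p ^ j : ℕ) : ℤ) := by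
      have : Nat.card (K : Subgroup G) = p ^ j := hj
      rw [this]
    have h7 : ((p ^ j : ℕ) : ℤ) ≤ (P : ℤ) * P := by exact_mod_cast hle
    rw [h6] at h5
    have h8 : (m : ℤ) = 4 * u + 3 := by rw [hm]; push_cast; ring
    have h9 : 3 * (P : ℤ) ≤ 4 * u + 1 := by exact_mod_cast h3P
    have h10 : (2 : ℤ) ≤ P := by exact_mod_cast hP2
    have h11 : (m : ℤ) * (P - 1) ≤ 2 * (P * P - 1) := by linarith
    have h12 : (3 * (P : ℤ) + 2) * (P - 1) ≤ m * (P - 1) := by
      apply mul_le_mul_of_nonneg_right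
      · linarith
      · linarith
    nlinarith

end Pool.Agent.Sedf
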