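import Pool.Agent.Sedf.Evm

set_option autoImplicit false

/-!
Four sets (MP_4124fc_co)
-/

namespace Pool.Agent.Sedf.Fr

open Module Matrix

section abs

variable {E : Type*} [AddCommGroup E] [Module ℂ E]

theorem step (X Y : Module.End ℂ E) (h1 : X * Y = -(Y * X)) (h2 : X * X + Y * Y = 1) {x : ℂ}
    (hx : X.HasEigenvalue x) : X.HasEigenvalue (-x) ∨ x ^ 2 = 1 := by
  obtain ⟨v, hv⟩ := hx.exists_hasEigenvector
  have hXv : X v = x • v := hv.apply_eq_smul
  by_cases hY : Y v = 0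
  · right
    have h3 := LinearMap.congr_fun h2 v
    rw [LinearMap.add_apply, Module.End.mul_apply, Module.End.mul_apply, hY, map_zero, add_zero,
      hXv, map_smul, hXv, smul_smul, Module.End.one_apply] at h3
    have h4 : (x * x - 1) • v = 0 := by rw [sub_smul, h3, one_smul, sub_self]
    rcases smul_eq_zero.1 h4 with h5 | h5
    · linear_combination h5
    · exact absurd h5 hv.2
  · left
    refine Module.End.hasEigenvalue_of_hasEigenvector (x := Y v) ⟨?_, hY⟩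
    rw [Module.End.mem_eigenspace_iff]
    have h3 := LinearMap.congr_fun h1 v
    rw [Module.End.mul_apply, LinearMap.neg_apply, Module.End.mul_apply, hXv, map_smul] at h3
    rw [h3, neg_smul]

theorem step2 (X W : Module.End ℂ E) (t : ℂ) (h1 : (t • 1 - X) * W = -(W * (t • 1 - X)))
    (h2 : (t • 1 - X) * (t • 1 - X) + W * W = 1) {x : ℂ}
    (hx : X.HasEigenvalue x) : X.HasEigenvalue (2 * t - x) ∨ (t - x) ^ 2 = 1 := by
  obtain ⟨v, hv⟩ := hx.exists_hasEigenvector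
  have hXv : X v = x • v := hv.apply_eq_smul
  have hz : (t • 1 - X : Module.End ℂ E).HasEigenvalue (t - x) := by
    refine Module.End.hasEigenvalue_of_hasEigenvector (x := v) ⟨?_, hv.2⟩
    rw [Module.End.mem_eigenspace_iff, LinearMap.sub_apply, LinearMap.smul_apply,
      Module.End.one_apply, hXv, sub_smul]
  rcases step _ W h1 h2 hz with h | h
  · left
    obtain ⟨u, hu⟩ := h.exists_hasEigenvector
    have hu1 := hu.apply_eq_smul
    rw [LinearMap.sub_apply, LinearMap.smul_apply, Module.End.one_apply] at hu1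
    refine Module.End.hasEigenvalue_of_hasEigenvector (x := u) ⟨?_, hu.2⟩
    rw [Module.End.mem_eigenspace_iff]
    have h3 : X u = t • u - (-(t - x)) • u := by rw [← hu1]; abel
    rw [h3, ← sub_smul]
    congr 1
    ring
  · exact Or.inr h

theorem chain [FiniteDimensional ℂ E] [Nontrivial E] (X Y W : Module.End ℂ E) {g : ℝ}
    (hg : 0 < g) (hg2 : g < 2)
    (h1 : X * Y = -(Y * X)) (h2 : X * X + Y * Y = 1)
    (h3 : ((-(g / 2 : ℝ) : ℂ) • 1 - X) * W = -(W * ((-(g / 2 : ℝ) : ℂ) • 1 - X)))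
    (h4 : ((-(g / 2 : ℝ) : ℂ) • 1 - X) * ((-(g / 2 : ℝ) : ℂ) • 1 - X) + W * W = 1) :
    ∃ p : ℕ, 3 ≤ p ∧ g * p = 4 := by
  have hfin : {x : ℂ | X.HasEigenvalue x}.Finite := Module.End.finite_hasEigenvalue X
  obtain ⟨x0, hx0⟩ := Module.End.exists_eigenvalue X
  obtain ⟨x, hx, hmin⟩ := Set.exists_min_image _ (fun z : ℂ => z.re) hfin ⟨x0, hx0⟩
  have hS : {n : ℕ | X.HasEigenvalue (x + n * g)}.Finite := by
    refine Set.Finite.preimage (f := fun n : ℕ => x + (n : ℂ) * g) ?_ hfin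
    intro a _ b _ hab
    have hgc : (g : ℂ) ≠ 0 := by exact_mod_cast hg.ne'
    have h5 : (a : ℂ) * g = b * g := add_left_cancel hab
    exact_mod_cast mul_right_cancel₀ hgc h5
  obtain ⟨n, hn, hmax⟩ := Set.exists_max_image _ (fun n : ℕ => n) hS
    ⟨0, by simpa using hx⟩
  have sq1 : ∀ y : ℂ, y ^ 2 = 1 → y = 1 ∨ y = -1 := fun y hy =>
    mul_self_eq_one_iff.1 (by rw [← sq]; exact hy)
  have e1 : ∃ y : ℝ, x = y ∧ (y = 1 ∨ y = -1 ∨ y = g / 2 + 1 ∨ y = g / 2 - 1) := by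
    rcases step X Y h1 h2 hx with h | h
    · rcases step2 X W _ h3 h4 h with h' | h'
      · exfalso
        have h5 := hmin _ h'
        simp at h5
        linarith
      · rcases sq1 _ h' with h6 | h6
        · refine ⟨g / 2 + 1, ?_, by tauto⟩
          push_cast at h6 ⊢
          linear_combination h6
        · refine ⟨g / 2 - 1, ?_, by tauto⟩
          push_cast at h6 ⊢
          linear_combination h6
    · rcases sq1 _ h with h6 | h6
      · exact ⟨1, by rw [h6]; simp, by tauto⟩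
      · exact ⟨-1, by rw [h6]; simp, by tauto⟩
  have e2 : ∃ z : ℝ, x + n * g = z ∧
      (z = -g / 2 + 1 ∨ z = -g / 2 - 1 ∨ z = -g + 1 ∨ z = -g - 1) := by
    rcases step2 X W _ h3 h4 hn with h | h
    · rcases step X Y h1 h2 h with h' | h'
      · exfalso
        have h5 : X.HasEigenvalue (x + ((n + 1 : ℕ) : ℂ) * g) := by
          convert h' using 1
          push_cast
          ring
        have h6 := hmax _ h5
        simp at h6
      · rcases sq1 _ h' with h6 | h6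
        · refine ⟨-g - 1, ?_, by tauto⟩
          push_cast at h6 ⊢
          linear_combination -h6
        · refine ⟨-g + 1, ?_, by tauto⟩
          push_cast at h6 ⊢
          linear_combination -h6
    · rcases sq1 _ h with h6 | h6
      · refine ⟨-g / 2 - 1, ?_, by tauto⟩
        push_cast at h6 ⊢
        linear_combination -h6
      · refine ⟨-g / 2 + 1, ?_, by tauto⟩
        push_cast at h6 ⊢
        linear_combination -h6
  obtain ⟨y, hy, hy'⟩ := e1
  obtain ⟨z, hz, hz'⟩ := e2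
  have hyz : y + n * g = z := by
    rw [hy] at hz
    exact_mod_cast hz
  have hng : 0 ≤ (n : ℝ) * g := by positivity
  have fin : ∀ p : ℕ, g * p = 4 → ∃ p : ℕ, 3 ≤ p ∧ g * p = 4 := by
    intro p hp
    refine ⟨p, ?_, hp⟩
    by_contra h
    have h5 : (p : ℝ) ≤ 2 := by exact_mod_cast (by omega : p ≤ 2)
    nlinarith
  have p1 : n * g = 2 - g / 2 → ∃ p : ℕ, 3 ≤ p ∧ g * p = 4 := fun h =>
    fin (2 * n + 1) (by push_cast; linarith)
  have p2 : n * g = 2 - g → ∃ p : ℕ, 3 ≤ p ∧ g * p = 4 := fun h =>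
    fin (2 * n + 2) (by push_cast; linarith)
  have p3 : n * g = 2 - 3 * g / 2 → ∃ p : ℕ, 3 ≤ p ∧ g * p = 4 := fun h =>
    fin (2 * n + 3) (by push_cast; linarith)
  rcases hy' with h | h | h | h <;> rcases hz' with h' | h' | h' | h' <;>
    first
      | (exfalso; linarith)
      | exact p1 (by linarith)
      | exact p2 (by linarith)
      | exact p3 (by linarith)

/-- four involutions whose sum is a scalar `- g` -/
theorem four_inv [FiniteDimensional ℂ E] [Nontrivial E] (u : Fin 4 → Module.End ℂ E) {g : ℝ}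
    (hg : 0 < g) (hg2 : g < 2) (hu : ∀ i, u i * u i = 1)
    (hs : ∑ i, u i = (-(g : ℂ)) • 1) : ∃ p : ℕ, 3 ≤ p ∧ g * p = 4 := by
  rw [Fin.sum_univ_four] at hs
  have hZ : ((-(g / 2 : ℝ) : ℂ) • 1 - (1 / 2 : ℂ) • (u 0 + u 1)) = (1 / 2 : ℂ) • (u 2 + u 3) := by
    have h : (1 / 2 : ℂ) • (u 2 + u 3) = (1 / 2 : ℂ) • (u 0 + u 1 + u 2 + u 3) -
      (1 / 2 : ℂ) • (u 0 + u 1) := by module
    rw [h, hs, smul_smul]
    congr 2
    push_cast
    ring
  have anti : ∀ a b : Module.End ℂ E, a * a = 1 → b * b = 1 →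
      ((1 / 2 : ℂ) • (a + b)) * ((1 / 2 : ℂ) • (a - b)) =
        -(((1 / 2 : ℂ) • (a - b)) * ((1 / 2 : ℂ) • (a + b))) := by
    intro a b ha hb
    simp only [smul_mul_smul_comm, mul_add, add_mul, mul_sub, sub_mul, ha, hb]
    module
  have sqs : ∀ a b : Module.End ℂ E, a * a = 1 → b * b = 1 →
      ((1 / 2 : ℂ) • (a + b)) * ((1 / 2 : ℂ) • (a + b)) +
        ((1 / 2 : ℂ) • (a - b)) * ((1 / 2 : ℂ) • (a - b)) = 1 := by
    intro a b ha hb
    simp only [smul_mul_smul_comm, mul_add, add_mul, mul_sub, sub_mul, ha, hb]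
    module
  refine chain ((1 / 2 : ℂ) • (u 0 + u 1)) ((1 / 2 : ℂ) • (u 0 - u 1))
    ((1 / 2 : ℂ) • (u 2 - u 3)) hg hg2 (anti _ _ (hu 0) (hu 1)) (sqs _ _ (hu 0) (hu 1)) ?_ ?_
  · rw [hZ]
    exact anti _ _ (hu 2) (hu 3)
  · rw [hZ]
    exact sqs _ _ (hu 2) (hu 3)

end abs

section mat

variable {N : Type*} [Fintype N] [DecidableEq N]

/-- real matrices as complex matrices -/
noncomputable def cx : Matrix N N ℝ →+* Matrix N N ℂ := Complex.ofRealHom.mapMatrix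

theorem cx_smul (c : ℝ) (A : Matrix N N ℝ) : cx (c • A) = (c : ℂ) • cx A := by
  ext i j
  simp [cx]

theorem cx_mulVec (A : Matrix N N ℝ) (v : N → ℝ) :
    cx A *ᵥ (fun i => ((v i : ℝ) : ℂ)) = fun i => ((A *ᵥ v) i : ℂ) := by
  ext i
  simp [cx, Matrix.mulVec, dotProduct]

theorem eig4 {l : ℝ} (hl : 0 < l) (s : Matrix N N ℝ)
    (k : Fin 4 → Matrix N N ℝ) (hc : ∀ i, k i * s = s * k i)
    (hq : ∀ i, k i * k i = (l • (1 : Matrix N N ℝ) + (1 / 4 : ℝ) • s) * s)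
    (hs : ∑ i, k i = (-((((4 : ℕ) : ℝ) - 2) / 2)) • s) {a : ℝ} (ha : 0 < a) {v : N → ℝ}
    (hv : v ≠ 0) (hsv : s *ᵥ v = a • v) :
    ∃ p : ℕ, 3 ≤ p ∧ a * ((p : ℝ) ^ 2 - 4) = 16 * l := by
  obtain ⟨r, hr, hrr⟩ : ∃ r : ℝ, 0 < r ∧ r * r = l * a + a * a / 4 :=
    ⟨Real.sqrt (l * a + a * a / 4), Real.sqrt_pos.2 (by positivity),
      Real.mul_self_sqrt (by positivity)⟩
  have hr2 : a < 2 * r := by nlinarith [mul_pos hl ha]
  obtain ⟨g, hg⟩ : ∃ g : ℝ, g = a / r := ⟨_, rfl⟩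
  have hg0 : 0 < g := by rw [hg]; exact div_pos ha hr
  have hgr : g * r = a := by rw [hg, div_mul_cancel₀ _ hr.ne']
  have hg1 : g < 2 := by
    rw [hg, div_lt_iff₀ hr]
    exact hr2
  have hc' : ∀ i, cx (k i) * cx s = cx s * cx (k i) := fun i => by
    rw [← map_mul, hc, map_mul]
  have hq' : ∀ i, cx (k i) * cx (k i) =
      ((l : ℂ) • (1 : Matrix N N ℂ) + (1 / 4 : ℂ) • cx s) * cx s := fun i => by
    rw [← map_mul, hq, map_mul, map_add, cx_smul, cx_smul, map_one]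
    push_cast
    rfl
  have hs' : ∑ i, cx (k i) = (-1 : ℂ) • cx s := by
    rw [← map_sum, hs, cx_smul]
    congr 1
    push_cast
    norm_num
  -- the eigenspace
  obtain ⟨E, hE⟩ : ∃ E : Submodule ℂ (N → ℂ), ∀ w, w ∈ E ↔ cx s *ᵥ w = (a : ℂ) • w :=
    ⟨LinearMap.ker (Matrix.toLin' (cx s) - (a : ℂ) • LinearMap.id), fun w => by
      rw [LinearMap.mem_ker, LinearMap.sub_apply, LinearMap.smul_apply, LinearMap.id_apply,
        Matrix.toLin'_apply, sub_eq_zero]⟩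
  have hkE : ∀ i, ∀ w ∈ E, Matrix.toLin' (cx (k i)) w ∈ E := by
    intro i w hw
    rw [hE] at hw ⊢
    rw [Matrix.toLin'_apply, Matrix.mulVec_mulVec, ← hc', ← Matrix.mulVec_mulVec, hw,
      Matrix.mulVec_smul]
  obtain ⟨K, hK⟩ : ∃ K : Fin 4 → E →ₗ[ℂ] E, ∀ i (w : E),
      ((K i w : E) : N → ℂ) = cx (k i) *ᵥ w.1 :=
    ⟨fun i => (Matrix.toLin' (cx (k i))).restrict (hkE i), fun i w => by
      rw [LinearMap.coe_restrict_apply, Matrix.toLin'_apply]⟩
  have hKK : ∀ i, K i * K i = ((r * r : ℝ) : ℂ) • (1 : E →ₗ[ℂ] E) := by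
    intro i
    refine LinearMap.ext fun w => Subtype.ext ?_
    rw [Module.End.mul_apply, hK, hK, Matrix.mulVec_mulVec, hq', ← Matrix.mulVec_mulVec,
      (hE w.1).1 w.2, Matrix.mulVec_smul, Matrix.add_mulVec, Matrix.smul_mulVec,
      Matrix.smul_mulVec, Matrix.one_mulVec, (hE w.1).1 w.2, hrr, LinearMap.smul_apply,
      Module.End.one_apply, Submodule.coe_smul, smul_smul, ← add_smul, smul_smul]
    congr 2
    push_cast
    ring
  have hKs : ∑ i, K i = (-(a : ℂ)) • (1 : E →ₗ[ℂ] E) := by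
    refine LinearMap.ext fun w => Subtype.ext ?_
    have h5 : (-(a : ℂ)) • w.1 = (∑ i, cx (k i)) *ᵥ w.1 := by
      rw [hs', Matrix.smul_mulVec, (hE w.1).1 w.2, smul_smul]
      congr 1
      ring
    rw [LinearMap.sum_apply, Submodule.coe_sum, LinearMap.smul_apply, Module.End.one_apply,
      Submodule.coe_smul, h5, Matrix.sum_mulVec]
    exact Finset.sum_congr rfl fun i _ => hK i w
  have hnt : Nontrivial E := by
    refine ⟨⟨⟨fun i => ((v i : ℝ) : ℂ), (hE _).2 ?_⟩, 0, fun h => hv ?_⟩⟩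
    · rw [cx_mulVec, hsv]
      ext i
      simp
    · ext i
      have h5 := congrFun (congrArg Subtype.val h) i
      simpa using h5
  have hrc : (r : ℂ) ≠ 0 := by exact_mod_cast hr.ne'
  obtain ⟨p, hp, hgp⟩ := four_inv (fun i => ((r : ℂ)⁻¹) • K i) hg0 hg1
    (fun i => by
      rw [smul_mul_smul_comm, hKK i, smul_smul]
      push_cast
      rw [show (r : ℂ)⁻¹ * (r : ℂ)⁻¹ * ((r : ℂ) * r) = 1 by field_simp, one_smul])
    (by
      rw [← Finset.smul_sum, hKs, smul_smul]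
      congr 1
      rw [hg]
      push_cast
      field_simp)
  refine ⟨p, hp, ?_⟩
  have h6 : a * a * (p : ℝ) ^ 2 = 16 * (l * a + a * a / 4) := by
    rw [← hrr]
    have h7 : a * p = 4 * r := by rw [← hgr, ← hgp]; ring
    have h8 : (a * p) ^ 2 = (4 * r) ^ 2 := by rw [h7]
    linear_combination h8
  have h9 : a * (a * ((p : ℝ) ^ 2 - 4)) = a * (16 * l) := by linear_combination h6
  exact mul_left_cancel₀ ha.ne' h9

end mat

section fin

variable {G : Type*} [Group G] [Fintype G] {k l : ℕ} {A : Fin 4 → Finset G}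

/-- Four sets: `A (p ^ 2 - 4) = 16 l`, `Y (p + 2) = 4 l`. -/
theorem ar4 {l A Y p : ℕ} (hp : 3 ≤ p) (h : Y ^ 2 + A * Y = l * A)
    (h1 : (A : ℝ) * ((p : ℝ) ^ 2 - 4) = 16 * l) :
    (p ^ 2 - 4) ∣ 16 * l ∧ (p + 2) ∣ 4 * l := by
  have h4 : 4 ≤ p ^ 2 := by nlinarith
  have h2 : A * (p ^ 2 - 4) = 16 * l := by
    zify [h4]
    exact_mod_cast h1
  refine ⟨⟨A, by rw [← h2]; ring⟩, ⟨Y, ?_⟩⟩
  have h2' : (A : ℤ) * ((p : ℤ) ^ 2 - 4) = 16 * l := by
    have := h2
    zify [h4] at this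
    exact this
  have h' : (Y : ℤ) ^ 2 + A * Y = l * A := by exact_mod_cast h
  have h5 : (4 * (Y : ℤ) + 2 * A) ^ 2 = (A * p) ^ 2 := by
    linear_combination 16 * h' - (A : ℤ) * h2'
  have h6 : 4 * (Y : ℤ) + 2 * A = A * p :=
    (pow_left_inj₀ (by positivity) (by positivity) two_ne_zero).1 h5
  have h7 : 4 * ((4 : ℤ) * l) = 4 * ((p + 2) * Y) := by
    linear_combination -h2' + ((p : ℤ) + 2) * h6 * (-1)
  have h8 := mul_left_cancel₀ (by norm_num : (4 : ℤ) ≠ 0) h7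
  exact_mod_cast h8

theorem four4 [DecidableEq G] (hA : IsSEDF 4 k l A) (hk : 1 < k) (hl : 1 ≤ l) :
    ∃ p : ℕ, 3 ≤ p ∧ (p ^ 2 - 4) ∣ 16 * l ∧ (p + 2) ∣ 4 * l := by
  by_cases h : ∃ a : ℝ, 0 < a ∧ ∃ v : G → ℝ, v ≠ 0 ∧ (SM k A * (SM k A)ᴴ) *ᵥ v = a • v
  · obtain ⟨a, ha, v, hv, hav⟩ := h
    obtain ⟨_, B, Y, hB, hY, hBa, hBY⟩ := eigs hA (by norm_num) hl ha hv hav
    obtain ⟨K, h1, h2, h3⟩ := frm hA (by norm_num) hl
    have hl0 : (0 : ℝ) < l := by exact_mod_cast hl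
    obtain ⟨p, hp, h4⟩ := eig4 hl0 _ K h1 h2 h3 ha hv hav
    rw [← hBa] at h4
    exact ⟨p, hp, ar4 hp hBY h4⟩
  · have h0 := sz hA (by norm_num) hk.le (zer _ h)
    have h1 := parN hA (by norm_num)
    rw [← h0] at h1
    have h2 := kk (by norm_num) hk.le h1
    omega

end fin

end Pool.Agent.Sedf.Fr
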