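import Mathlib

namespace Pool.Agent.Sedf

open Polynomial

/-- If a natural number that is not a square becomes a square in the `p`-th cyclotomic field,
`p` an odd prime, then `p` times it is a square. -/
theorem sq_of_cyclotomic {p : ℕ} [hp : Fact p.Prime] (hp2 : p ≠ 2) (n : ℕ)
    (hn : ¬ IsSquare n) (K : Type) [Field K] [Algebra ℚ K] [hcy : IsCyclotomicExtension {p} ℚ K]
    (y : K) (hy : y ^ 2 = (n : K)) :
    IsSquare (p * n) := by
  have hp0 : NeZero p := ⟨hp.out.ne_zero⟩
  have hch : CharZero K := algebraRat.charZero K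
  have hgal : IsGalois ℚ K := IsCyclotomicExtension.isGalois {p} ℚ K
  have hfin : FiniteDimensional ℚ K := IsCyclotomicExtension.finiteDimensional {p} ℚ K
  have hirr : Irreducible (cyclotomic p ℚ) := cyclotomic.irreducible_rat hp.out.pos
  have e := IsCyclotomicExtension.autEquivPow K hirr
  have hcyc : IsCyclic (ZMod p)ˣ := inferInstance
  have hcyc' : IsCyclic Gal(K/ℚ) := isCyclic_of_surjective e.symm e.symm.surjective
  obtain ⟨σ, hσ⟩ := hcyc'.exists_generator
  have hfix : ∀ z : K, σ z = z → ∃ q : ℚ, algebraMap ℚ K q = z := by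
    intro z hz
    have : z ∈ (⊥ : IntermediateField ℚ K) := by
      rw [IsGalois.mem_bot_iff_fixed]
      intro f
      obtain ⟨j, hj⟩ := Subgroup.mem_zpowers_iff.mp (hσ f)
      rw [← hj]
      have hmem : σ ∈ MulAction.stabilizer Gal(K/ℚ) z := by
        rw [MulAction.mem_stabilizer_iff]; exact hz
      have := (MulAction.stabilizer Gal(K/ℚ) z).zpow_mem hmem j
      rw [MulAction.mem_stabilizer_iff] at this
      exact this
    rwa [IntermediateField.mem_bot] at this
  have hinj : Function.Injective (algebraMap ℚ K) := (algebraMap ℚ K).injective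
  -- the element y
  have hσy : σ y = -y := by
    have h1 : (σ y) ^ 2 = y ^ 2 := by
      rw [← map_pow, hy, map_natCast]
    rcases sq_eq_sq_iff_eq_or_eq_neg.mp h1 with h | h
    · exfalso
      obtain ⟨q, hq⟩ := hfix y h
      have h2 : q * q = (n : ℚ) := by
        apply hinj
        rw [map_mul, hq, ← pow_two, hy, map_natCast]
      have : IsSquare ((n : ℕ) : ℚ) := ⟨q, h2.symm⟩
      rw [Rat.isSquare_natCast_iff] at this
      exact hn this
    · exact h
  -- the Gauss sum
  have hring : ringChar (ZMod p) ≠ 2 := by rw [ZMod.ringChar_zmod_n]; exact hp2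
  let χ : MulChar (ZMod p) K := (quadraticChar (ZMod p)).ringHomComp (Int.castRingHom K)
  have hχ1 : χ ≠ 1 := by
    intro h
    apply quadraticChar_ne_one hring
    apply MulChar.injective_ringHomComp (f := Int.castRingHom K) Int.cast_injective
    show (quadraticChar (ZMod p)).ringHomComp (Int.castRingHom K)
      = (1 : MulChar (ZMod p) ℤ).ringHomComp (Int.castRingHom K)
    rw [MulChar.ringHomComp_one]
    exact h
  have hχ2 : χ.IsQuadratic := (quadraticChar_isQuadratic (ZMod p)).comp _
  have hζ := IsCyclotomicExtension.zeta_spec p ℚ K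
  have hψ := AddChar.zmodChar_primitive_of_primitive_root p hζ
  set g := gaussSum χ (AddChar.zmodChar p hζ.pow_eq_one) with hg
  have hgsq : g ^ 2 = χ (-1) * (p : K) := by
    rw [hg, gaussSum_sq hχ1 hχ2 hψ, ZMod.card]
  obtain ⟨ε, hε, hgε⟩ : ∃ ε : ℚ, (ε = 1 ∨ ε = -1) ∧ g ^ 2 = algebraMap ℚ K (ε * p) := by
    have hne : χ (-1) ≠ 0 := by
      have : IsUnit (-1 : ZMod p) := isUnit_neg_one
      exact (this.map χ).ne_zero
    rcases hχ2 (-1) with h | h | h
    · exact absurd h hne
    · exact ⟨1, Or.inl rfl, by rw [hgsq, h]; simp⟩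
    · exact ⟨-1, Or.inr rfl, by rw [hgsq, h]; simp⟩
  have hσg : σ g = -g := by
    have h1 : (σ g) ^ 2 = g ^ 2 := by
      rw [← map_pow, hgε, AlgEquiv.commutes]
    rcases sq_eq_sq_iff_eq_or_eq_neg.mp h1 with h | h
    · exfalso
      obtain ⟨q, hq⟩ := hfix g h
      have h2 : q * q = ε * p := by
        apply hinj
        rw [map_mul, hq, ← pow_two, hgε]
      have hpp : (0 : ℚ) < p := by exact_mod_cast hp.out.pos
      rcases hε with rfl | rfl
      · rw [one_mul] at h2
        have : IsSquare ((p : ℕ) : ℚ) := ⟨q, h2.symm⟩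
        rw [Rat.isSquare_natCast_iff] at this
        exact hp.out.prime.irreducible.not_isSquare this
      · have := mul_self_nonneg q
        rw [h2] at this
        linarith
    · exact h
  obtain ⟨q, hq⟩ := hfix (y * g) (by rw [map_mul, hσy, hσg]; ring)
  have h2 : q * q = n * (ε * p) := by
    apply hinj
    rw [map_mul, hq]
    have : y * g * (y * g) = y ^ 2 * g ^ 2 := by ring
    rw [this, hy, hgε, map_mul (algebraMap ℚ K) (n : ℚ) (ε * p), map_natCast]
  have hn0 : n ≠ 0 := by
    rintro rfl; exact hn ⟨0, rfl⟩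
  have hpp : (0 : ℚ) < p := by exact_mod_cast hp.out.pos
  have hnn : (0 : ℚ) < n := by exact_mod_cast Nat.pos_of_ne_zero hn0
  rcases hε with rfl | rfl
  · have h3 : IsSquare (((p * n : ℕ)) : ℚ) := ⟨q, by rw [h2]; push_cast; ring⟩
    rw [Rat.isSquare_natCast_iff] at h3
    exact h3
  · exfalso
    have := mul_self_nonneg q
    rw [h2] at this
    nlinarith [mul_pos hnn hpp]

end Pool.Agent.Sedf
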