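import Pool.Agent.Sedf.Near
import Pool.Agent.Sedf.SqField

namespace Pool.Agent.Sedf

open Matrix

/-- A cyclic subgroup of prime order, as an injective homomorphism. -/
theorem exists_hom {G : Type*} [Group G] [Fintype G] {p : ℕ} (hp : p.Prime)
    (hpn : p ∣ Fintype.card G) :
    ∃ φ : Multiplicative (ZMod p) →* G, Function.Injective φ := by
  have : Fact p.Prime := ⟨hp⟩
  obtain ⟨g, hg⟩ := exists_prime_orderOf_dvd_card p hpn
  obtain rfl : Nat.card (Subgroup.zpowers g) = p := by rw [Nat.card_zpowers, hg]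
  refine ⟨(Subgroup.zpowers g).subtype.comp
    (zmodCyclicMulEquiv (G := Subgroup.zpowers g) inferInstance).toMonoidHom, ?_⟩
  exact (Subgroup.zpowers g).subtype_injective.comp
    (zmodCyclicMulEquiv (G := Subgroup.zpowers g) inferInstance).injective

/-- the character of `ZMod p` given by a primitive root of unity sums to zero -/
theorem char_sum {p : ℕ} [hp : Fact p.Prime] {K : Type*} [Field K] {ζ : K}
    (hζ : IsPrimitiveRoot ζ p) :
    ∑ c : Multiplicative (ZMod p),
      (AddChar.zmodChar p hζ.pow_eq_one).toMonoidHom c = 0 := by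
  have h1 : AddChar.zmodChar p hζ.pow_eq_one ≠ 1 := by
    have := AddChar.zmodChar_primitive_of_primitive_root p hζ
    have h2 := this (a := 1) one_ne_zero
    simpa using h2
  have := AddChar.sum_eq_zero_of_ne_one h1
  rw [← this]
  exact Fintype.sum_equiv Multiplicative.toAdd _ _ fun x => rfl

theorem near_two_square_aux {G : Type*} [Group G] [Fintype G] {k l : ℕ} {a : Fin 2 → G → ℤ}
    (ha : Near G 2 k l a) (hn : Fintype.card G = 4 * l + 1) {p : ℕ} [hp : Fact p.Prime]
    (hpn : p ∣ Fintype.card G) (hns : ¬ IsSquare (Fintype.card G)) (K : Type) [Field K]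
    [Algebra ℚ K] [hcy : IsCyclotomicExtension {p} ℚ K] :
    IsSquare (p * Fintype.card G) := by
  classical
  have hp2 : p ≠ 2 := by
    rintro rfl; omega
  have hp0 : NeZero p := ⟨hp.out.ne_zero⟩
  have hch : CharZero K := algebraRat.charZero K
  have hζ := IsCyclotomicExtension.zeta_spec p ℚ K
  obtain ⟨φ, hφ⟩ := exists_hom hp.out hpn
  let χ : Multiplicative (ZMod p) →* K := (AddChar.zmodChar p hζ.pow_eq_one).toMonoidHom
  have hχ : ∑ c, χ c = 0 := char_sum hζ
  have hsq := ha.cm_sq 0 φ hφ χ hχ
  set M := cm φ χ (a 0) with hM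
  set N : Matrix (G ⧸ φ.range) (G ⧸ φ.range) K := M + M + 1 with hN
  have h1 : N * N = ((Fintype.card G : ℕ) : K) • (1 : Matrix _ _ K) := by
    have e : N * N = (M * M + M) + (M * M + M) + (M * M + M) + (M * M + M) + 1 := by
      rw [hN]
      simp only [add_mul, mul_add, mul_one, one_mul]
      abel
    have e2 : M * M + M = (l : K) • 1 := by rw [hsq]; abel
    rw [e, e2, hn]
    push_cast
    rw [add_smul, one_smul, show (4 : K) * l = l + l + l + l by ring, add_smul, add_smul, add_smul]
  have h2 : N.det * N.det = ((Fintype.card G : ℕ) : K) ^ Fintype.card (G ⧸ φ.range) := by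
    rw [← Matrix.det_mul, h1, Matrix.det_smul, Matrix.det_one, mul_one]
  have hodd : Odd (Fintype.card (G ⧸ φ.range)) := by
    have h3 := card_quot φ hφ
    have : Odd (Fintype.card (G ⧸ φ.range) * Fintype.card (Multiplicative (ZMod p))) := by
      rw [h3, hn]; exact ⟨2 * l, by ring⟩
    exact (Nat.odd_mul.mp this).1
  obtain ⟨r, hr⟩ := hodd
  have hn0 : ((Fintype.card G : ℕ) : K) ≠ 0 := by
    exact_mod_cast Fintype.card_ne_zero
  have h4 : (N.det / ((Fintype.card G : ℕ) : K) ^ r) ^ 2 = ((Fintype.card G : ℕ) : K) := by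
    rw [div_pow, pow_two, h2, hr, div_eq_iff (pow_ne_zero _ (pow_ne_zero _ hn0))]
    ring
  exact sq_of_cyclotomic hp2 _ hns K _ h4

theorem near_two_square {G : Type*} [Group G] [Fintype G] {k l : ℕ} {a : Fin 2 → G → ℤ}
    (ha : Near G 2 k l a) (hn : Fintype.card G = 4 * l + 1) {p : ℕ} [hp : Fact p.Prime]
    (hpn : p ∣ Fintype.card G) (hns : ¬ IsSquare (Fintype.card G)) :
    IsSquare (p * Fintype.card G) := by
  have : NeZero ((p : ℕ) : ℚ) := ⟨by exact_mod_cast hp.out.ne_zero⟩
  exact @near_two_square_aux G _ _ k l a ha hn p hp hpn hns (CyclotomicField p ℚ) _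
    (CyclotomicField.algebra p ℚ) (CyclotomicField.isCyclotomicExtension p ℚ)

theorem near_two {G : Type*} [Group G] [Fintype G] {k l : ℕ} {a : Fin 2 → G → ℤ}
    (ha : Near G 2 k l a) (hn : Fintype.card G = 2 * k + 1) (hns : ¬ IsSquare (Fintype.card G)) :
    k = 2 * l ∧ ∃ p s : ℕ, p.Prime ∧ p % 4 = 1 ∧ Odd s ∧ Fintype.card G = p ^ s := by
  have hk : 1 ≤ k := by
    by_contra h
    have : k = 0 := by omega
    apply hns
    rw [hn, this]
    exact ⟨1, rfl⟩
  have hkl : k = 2 * l := by
    have h1 := ha.par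
    rw [hn] at h1
    push_cast at h1
    have h2 : (k : ℤ) * (k - 2 * l) = 0 := by linear_combination h1
    rcases mul_eq_zero.mp h2 with h | h
    · exfalso; have : k = 0 := by exact_mod_cast h
      omega
    · have : (k : ℤ) = 2 * l := by linarith
      exact_mod_cast this
  have hn4 : Fintype.card G = 4 * l + 1 := by rw [hn, hkl]; ring
  refine ⟨hkl, ?_⟩
  have hn1 : Fintype.card G ≠ 1 := by omega
  obtain ⟨p, hp, hpn⟩ := Nat.exists_prime_and_dvd hn1
  have hP : ∀ {q : ℕ}, q.Prime → q ∣ Fintype.card G → IsSquare (q * Fintype.card G) := by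
    intro q hq hqn
    have : Fact q.Prime := ⟨hq⟩
    exact near_two_square ha hn4 hqn hns
  have huniq : ∀ {d : ℕ}, d.Prime → d ∣ Fintype.card G → d = p := by
    intro d hd hdn
    by_contra hne
    obtain ⟨u, hu⟩ := hP hp hpn
    obtain ⟨v, hv⟩ := hP hd hdn
    have h1 : (p * d) * (Fintype.card G * Fintype.card G) = (u * v) * (u * v) := by
      calc (p * d) * (Fintype.card G * Fintype.card G)
          = (p * Fintype.card G) * (d * Fintype.card G) := by ring
        _ = (u * u) * (v * v) := by rw [hu, hv]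
        _ = _ := by ring
    have hdvd : Fintype.card G ∣ u * v := by
      rw [← Nat.pow_dvd_pow_iff two_ne_zero]
      exact ⟨p * d, by rw [pow_two, ← h1]; ring⟩
    obtain ⟨w, hw⟩ := hdvd
    have hc : 0 < Fintype.card G * Fintype.card G :=
      Nat.mul_pos Fintype.card_pos Fintype.card_pos
    have h2 : p * d = w * w := by
      rw [hw] at h1
      have : (p * d) * (Fintype.card G * Fintype.card G)
          = (w * w) * (Fintype.card G * Fintype.card G) := by rw [h1]; ring
      exact Nat.eq_of_mul_eq_mul_right hc this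
    have h3 : p ∣ w := by
      have : p ∣ w * w := ⟨d, h2.symm⟩
      exact (hp.dvd_mul.mp this).elim id id
    obtain ⟨w', rfl⟩ := h3
    have h4 : d = p * (w' * w') := by
      have : p * d = p * (p * (w' * w')) := by rw [h2]; ring
      exact Nat.eq_of_mul_eq_mul_left hp.pos this
    have h5 : p ∣ d := ⟨_, h4⟩
    exact hne ((Nat.prime_dvd_prime_iff_eq hp hd).mp h5).symm
  have hpow := Nat.eq_prime_pow_of_unique_prime_dvd (n := Fintype.card G) (p := p)
    Fintype.card_ne_zero huniq
  set s := (Fintype.card G).primeFactorsList.length with hs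
  refine ⟨p, s, hp, ?_, ?_, hpow⟩
  all_goals
    have hsodd : Odd s := by
      rcases Nat.even_or_odd s with he | ho
      · exfalso
        obtain ⟨r, hr⟩ := he
        apply hns
        rw [hpow, hr]
        exact ⟨p ^ r, by rw [pow_add]⟩
      · exact ho
  · obtain ⟨r, hr⟩ := hsodd
    have h5 : Fintype.card G % 4 = 1 := by omega
    rw [hpow, hr] at h5
    have hpodd : p % 2 = 1 := by
      rcases hp.eq_two_or_odd with h | h
      · exfalso
        rw [h] at h5
        have h8 : 2 ∣ 2 ^ (2 * r + 1) := dvd_pow_self 2 (by omega)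
        generalize 2 ^ (2 * r + 1) = x at h5 h8
        omega
      · exact h
    have h6 : p % 4 = 1 ∨ p % 4 = 3 := by omega
    rcases h6 with h | h
    · exact h
    · exfalso
      rw [Nat.pow_mod, h] at h5
      have h7 : 3 ^ (2 * r + 1) % 4 = 3 := by
        rw [pow_succ, pow_mul, Nat.mul_mod, Nat.pow_mod]
        norm_num
      rw [h7] at h5
      norm_num at h5
  · exact hsodd

end Pool.Agent.Sedf
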