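import Pool.Agent.Sedf.Delta
import Pool.Agent.Sedf.Two

namespace Pool.Agent.Sedf

open Polynomial

/-- the standard character -/
noncomputable def chr {q : ℕ} [Fact q.Prime] {ζ : ℂ} (hζ : IsPrimitiveRoot ζ q) :
    Multiplicative (ZMod q) →* ℂ := (AddChar.zmodChar q hζ.pow_eq_one).toMonoidHom

theorem chr_apply {q : ℕ} [Fact q.Prime] {ζ : ℂ} (hζ : IsPrimitiveRoot ζ q) (x : ZMod q) :
    chr hζ (Multiplicative.ofAdd x) = ζ ^ x.val := rfl

/-- Linear independence of the powers of `ζ`. -/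
theorem indep {q : ℕ} [hq : Fact q.Prime] {ζ : ℂ} (hζ : IsPrimitiveRoot ζ q)
    (r : Multiplicative (ZMod q) → ℤ) (z : ℤ) (h : ∑ c, chr hζ c * (r c : ℂ) = z) :
    ∃ c' : ℤ, (∀ c, c ≠ 1 → r c = c') ∧ r 1 = c' + z := by
  have hq0 : NeZero q := ⟨hq.out.ne_zero⟩
  have hq2 : 2 ≤ q := hq.out.two_le
  have h1 : ∑ j ∈ Finset.range q, ζ ^ j * (r (Multiplicative.ofAdd (j : ZMod q)) : ℂ) = z := by
    rw [← h]
    symm
    refine Finset.sum_nbij' (fun c => (Multiplicative.toAdd c).val)
      (fun j => Multiplicative.ofAdd (j : ZMod q)) ?_ ?_ ?_ ?_ ?_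
    · intro c _
      exact Finset.mem_range.mpr (ZMod.val_lt _)
    · intro j _
      exact Finset.mem_univ _
    · intro c _
      simp
    · intro j hj
      have := Finset.mem_range.mp hj
      simp [ZMod.val_cast_of_lt this]
    · intro c _
      simp only [ZMod.natCast_val, ZMod.cast_id', id_eq, ofAdd_toAdd]
      have : chr hζ c = ζ ^ (Multiplicative.toAdd c).val := chr_apply hζ (Multiplicative.toAdd c)
      rw [this]
  set P : ℚ[X] := ∑ j ∈ Finset.range q, C ((r (Multiplicative.ofAdd (j : ZMod q)) : ℤ) : ℚ) * X ^ j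
    - C (z : ℚ) with hP
  have hroot : aeval ζ P = 0 := by
    rw [hP, map_sub, map_sum]
    simp only [map_mul, aeval_C, map_pow, aeval_X]
    rw [sub_eq_zero]
    simp only [eq_ratCast, Rat.cast_intCast]
    rw [← h1]
    refine Finset.sum_congr rfl fun j _ => ?_
    ring
  have hdvd : cyclotomic q ℚ ∣ P := by
    rw [cyclotomic_eq_minpoly_rat hζ hq.out.pos]
    exact minpoly.dvd ℚ ζ hroot
  obtain ⟨Q, hQ⟩ := hdvd
  have hdeg : P.natDegree ≤ q - 1 := by
    rw [hP]
    refine (natDegree_sub_le _ _).trans ?_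
    rw [natDegree_C]
    refine max_le ?_ (Nat.zero_le _)
    refine natDegree_sum_le_of_forall_le _ _ fun j hj => ?_
    refine (natDegree_C_mul_X_pow_le _ _).trans ?_
    have := Finset.mem_range.mp hj
    omega
  have hQd : Q.natDegree = 0 := by
    by_cases hQ0 : Q = 0
    · rw [hQ0, natDegree_zero]
    · have h2 : P.natDegree = (cyclotomic q ℚ).natDegree + Q.natDegree := by
        rw [hQ, natDegree_mul (cyclotomic_ne_zero q ℚ) hQ0]
      rw [natDegree_cyclotomic, Nat.totient_prime hq.out] at h2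
      omega
  obtain ⟨c, hc⟩ := natDegree_eq_zero.mp hQd
  rw [← hc, cyclotomic_prime, Finset.sum_mul] at hQ
  have hcoef : ∀ j, j < q → P.coeff j = c := by
    intro j hj
    rw [hQ, finset_sum_coeff]
    rw [Finset.sum_eq_single j]
    · rw [coeff_mul_C, coeff_X_pow, if_pos rfl, one_mul]
    · intro i _ hij
      rw [coeff_mul_C, coeff_X_pow, if_neg (Ne.symm hij), zero_mul]
    · intro hj'
      exact absurd (Finset.mem_range.mpr hj) hj'
  have hcoef2 : ∀ j, j < q → P.coeff j
      = ((r (Multiplicative.ofAdd (j : ZMod q)) : ℤ) : ℚ) - if j = 0 then (z : ℚ) else 0 := by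
    intro j hj
    rw [hP, coeff_sub, finset_sum_coeff, coeff_C]
    rw [Finset.sum_eq_single j]
    · rw [coeff_C_mul, coeff_X_pow, if_pos rfl, mul_one]
    · intro i _ hij
      rw [coeff_C_mul, coeff_X_pow, if_neg (Ne.symm hij), mul_zero]
    · intro hj'
      exact absurd (Finset.mem_range.mpr hj) hj'
  have h1' : ((r (Multiplicative.ofAdd ((1 : ℕ) : ZMod q)) : ℤ) : ℚ) = c := by
    have e1 := hcoef 1 (by omega)
    rw [hcoef2 1 (by omega)] at e1
    simpa using e1
  refine ⟨r (Multiplicative.ofAdd ((1 : ℕ) : ZMod q)), fun x hx => ?_, ?_⟩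
  · have hv : (Multiplicative.toAdd x).val < q := ZMod.val_lt _
    have hv0 : (Multiplicative.toAdd x).val ≠ 0 := by
      intro h0
      apply hx
      have := (ZMod.val_eq_zero _).mp h0
      rw [← ofAdd_toAdd x, this]; rfl
    have e1 := hcoef _ hv
    rw [hcoef2 _ hv, if_neg hv0, sub_zero, ← h1'] at e1
    simp only [ZMod.natCast_val, ZMod.cast_id', id_eq, ofAdd_toAdd] at e1
    exact_mod_cast e1
  · have e1 := hcoef 0 (by omega)
    rw [hcoef2 0 (by omega), if_pos rfl, ← h1'] at e1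
    have e2 : r (Multiplicative.ofAdd ((0 : ℕ) : ZMod q)) = r 1 := by
      congr 1
      simp
    rw [e2] at e1
    have : ((r 1 : ℤ) : ℚ) = ((r (Multiplicative.ofAdd ((1 : ℕ) : ZMod q)) + z : ℤ) : ℚ) := by
      push_cast
      push_cast at e1
      linarith
    exact_mod_cast this

end Pool.Agent.Sedf
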