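import Pool.Agent.Sedf.Indep

namespace Pool.Agent.Sedf

variable {G : Type*} [Group G] [Fintype G] {m k l : ℕ} {a : Fin m → G → ℤ}

theorem exists_zeta {q : ℕ} (hq : q.Prime) : ∃ ζ : ℂ, IsPrimitiveRoot ζ q :=
  ⟨_, Complex.isPrimitiveRoot_exp q hq.ne_zero⟩

theorem Near.tau_const (ha : Near G m k l a) {q : ℕ} [hq : Fact q.Prime]
    (φ : Multiplicative (ZMod q) →* G) (hφ : Function.Injective φ) {D : ℕ} (hD : D * D = 1 + 4 * l)
    (i : Fin m) :
    ∃ t f : ℤ, (∀ c, c ≠ 1 → tau φ (a i) c = t) ∧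
      2 * t = (1 + D) * (Fintype.card (G ⧸ φ.range) : ℤ) - 2 * D * f := by
  obtain ⟨ζ, hζ⟩ := exists_zeta hq.out
  have hχ : ∑ c, chr hζ c = 0 := char_sum hζ
  have hD0 : (D : ℂ) ≠ 0 := by
    have : D ≠ 0 := by rintro rfl; omega
    exact_mod_cast this
  have hDD : (D : ℂ) * D = 1 + 4 * l := by exact_mod_cast hD
  obtain ⟨f, hf⟩ := ha.trace_ne i φ hφ (chr hζ) hχ D hDD hD0
  rw [cm_trace'] at hf
  have h1 : ∑ c, chr hζ c * (((2 * tau φ (a i) c : ℤ)) : ℂ)
      = ((2 * D * f - (1 + D) * (Fintype.card (G ⧸ φ.range) : ℤ) : ℤ) : ℂ) := by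
    push_cast
    rw [← hf, Finset.mul_sum]
    rw [add_sub_cancel_right]
    refine Finset.sum_congr rfl fun c _ => ?_
    ring
  obtain ⟨c', hc1, hc2⟩ := indep hζ _ _ h1
  rw [ha.tau_one i φ] at hc2
  have hne : (Multiplicative.ofAdd (1 : ZMod q)) ≠ 1 := by
    intro h
    have h2 : (1 : ZMod q) = 0 := congrArg Multiplicative.toAdd h
    exact one_ne_zero h2
  refine ⟨tau φ (a i) (Multiplicative.ofAdd (1 : ZMod q)), f, fun c hc => ?_, ?_⟩
  · have e1 := hc1 c hc
    have e2 := hc1 _ hne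
    linarith
  · have e2 := hc1 _ hne
    linarith

theorem sum_tau_eq {q : ℕ} [hq : Fact q.Prime] (r : Multiplicative (ZMod q) → ℤ) (t : ℤ)
    (h0 : r 1 = 0) (h : ∀ c, c ≠ 1 → r c = t) : ∑ c, r c = (q - 1) * t := by
  classical
  rw [← Finset.add_sum_erase _ _ (Finset.mem_univ (1 : Multiplicative (ZMod q))), h0, zero_add,
    Finset.sum_congr rfl (fun x hx => h x (Finset.ne_of_mem_erase hx)), Finset.sum_const,
    Finset.card_erase_of_mem (Finset.mem_univ _), Finset.card_univ, nsmul_eq_mul]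
  have : Fintype.card (Multiplicative (ZMod q)) = q := by
    rw [Fintype.card_multiplicative, ZMod.card]
  rw [this, Nat.cast_sub hq.out.one_le]
  simp

theorem Near.tr_one (ha : Near G m k l a) {q : ℕ} [hq : Fact q.Prime]
    (φ : Multiplicative (ZMod q) →* G) (hφ : Function.Injective φ) {D : ℕ} (hD : D * D = 1 + 4 * l)
    (i : Fin m) (t : ℤ) (ht : ∀ c, c ≠ 1 → tau φ (a i) c = t) :
    ∃ f : ℤ, 2 * ((q - 1) * t) + (Fintype.card (G ⧸ φ.range) : ℤ) - 2 * k - 1
      = D * (2 * f - (Fintype.card (G ⧸ φ.range) : ℤ) + 1) := by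
  have hD0 : (D : ℂ) ≠ 0 := by
    have : D ≠ 0 := by rintro rfl; omega
    exact_mod_cast this
  have hDD : (D : ℂ) * D = 1 + 4 * l := by exact_mod_cast hD
  obtain ⟨f, hf⟩ := ha.trace_one i φ hφ D hDD hD0
  rw [cm_trace'] at hf
  have h1 : ∑ c, (1 : Multiplicative (ZMod q) →* ℂ) c * (tau φ (a i) c : ℂ)
      = (((q - 1) * t : ℤ) : ℂ) := by
    rw [← sum_tau_eq _ t (ha.tau_one i φ) ht]
    push_cast
    refine Finset.sum_congr rfl fun c _ => ?_
    simp
  rw [h1] at hf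
  refine ⟨f, ?_⟩
  exact_mod_cast hf

theorem Near.mod_two (ha : Near G m k l a) (hn : m * k + 1 = Fintype.card G) {q : ℕ}
    [hq : Fact q.Prime]
    (hqn : q ∣ Fintype.card G) {D : ℕ} (hD : D * D = 1 + 4 * l) :
    (D : ℤ) ∣ (m : ℤ) - 2 := by
  obtain ⟨φ, hφ⟩ := exists_hom hq.out hqn
  choose t f ht hf using fun i => ha.tau_const φ hφ hD i
  choose g hg using fun i => ha.tr_one φ hφ hD i (t i) (ht i)
  set N : ℤ := (Fintype.card (G ⧸ φ.range) : ℤ) with hN
  have hNq : N * q = (m : ℤ) * k + 1 := by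
    have h1 := card_quot φ hφ
    have h2 : Fintype.card (Multiplicative (ZMod q)) = q := by
      rw [Fintype.card_multiplicative, ZMod.card]
    rw [h2, ← hn] at h1
    rw [hN]
    exact_mod_cast h1
  have hne : (Multiplicative.ofAdd (1 : ZMod q)) ≠ 1 := by
    intro h
    have h2 : (1 : ZMod q) = 0 := congrArg Multiplicative.toAdd h
    exact one_ne_zero h2
  have hst : ∑ i, t i = N := by
    rw [hN, ← ha.sum_tau φ hφ _ hne]
    refine Finset.sum_congr rfl fun i _ => ?_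
    rw [ht i _ hne]
  have s1 : 2 * N = (m : ℤ) * ((1 + D) * N) - 2 * D * ∑ i, f i := by
    rw [← hst, Finset.mul_sum, Finset.sum_congr rfl (fun i _ => hf i), Finset.sum_sub_distrib,
      ← Finset.mul_sum (f := f), Finset.sum_const, Finset.card_univ, Fintype.card_fin,
      nsmul_eq_mul, hst]
  have s2 : 2 * ((q - 1) * N) + m * (N - 2 * k - 1) = D * (2 * ∑ i, g i + m * (1 - N)) := by
    have h3 : ∑ i : Fin m, (2 * ((q - 1) * t i) + N - 2 * k - 1)
        = ∑ i : Fin m, (D * (2 * g i - N + 1) : ℤ) :=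
      Finset.sum_congr rfl fun i _ => hg i
    have h4 : ∑ i : Fin m, (2 * ((q - 1) * t i) + N - 2 * k - 1 : ℤ)
        = 2 * ((q - 1) * ∑ i, t i) + m * (N - 2 * k - 1) := by
      have : ∀ i : Fin m, (2 * ((q - 1) * t i) + N - 2 * k - 1 : ℤ)
          = (2 * (q - 1)) * t i + (N - 2 * k - 1) := fun i => by ring
      rw [Finset.sum_congr rfl (fun i _ => this i), Finset.sum_add_distrib, ← Finset.mul_sum]
      simp
      ring
    have h5 : ∑ i : Fin m, (D * (2 * g i - N + 1) : ℤ) = D * (2 * ∑ i, g i + m * (1 - N)) := by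
      rw [← Finset.mul_sum]
      congr 1
      have : ∀ i : Fin m, (2 * g i - N + 1 : ℤ) = 2 * g i + (1 - N) := fun i => by ring
      rw [Finset.sum_congr rfl (fun i _ => this i), Finset.sum_add_distrib, ← Finset.mul_sum]
      simp
      ring
    rw [h4, h5, hst] at h3
    exact h3
  refine ⟨-(2 * ∑ i, g i + m * (1 - N) + (m * N - 2 * ∑ i, f i)), ?_⟩
  linear_combination (-1) * s2 - s1 + 2 * hNq

end Pool.Agent.Sedf
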