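import Pool.Agent.Sedf.Defs
import Pool.Agent.Sedf.Coset

namespace Pool.Agent.Sedf

section
variable {G : Type*} [Group G] [Fintype G] {m k l : ℕ}

open Classical in
/-- Normalised near-complete family, as integer functions. -/
structure Near (G : Type*) [Group G] [Fintype G] (m k l : ℕ) (a : Fin m → G → ℤ) : Prop where
  zo : ∀ i y, a i y = 0 ∨ a i y = 1
  one : ∀ i, a i 1 = 0
  uniq : ∀ y, y ≠ 1 → ∑ i, a i y = 1
  tot : ∀ i, ∑ y, a i y = k
  sq : ∀ i x, conv (a i) (a i) x = (l : ℤ) * dlt x - a i x + (k - l)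
  inv : ∀ i x, a i x⁻¹ = a i x
  par : (k : ℤ) * (m * k - k) = l * (Fintype.card G - 1)

open Classical in
theorem near_of_sedf {A : Fin m → Finset G} (hA : IsSEDF m k l A) (hm : 1 ≤ m)
    (hn : m * k + 1 = Fintype.card G) : ∃ a : Fin m → G → ℤ, Near G m k l a := by
  -- the union has card n - 1
  set U : Finset G := Finset.univ.biUnion A with hU
  have hUc : U.card = m * k := by
    rw [hU, Finset.card_biUnion (fun i _ j _ hij => hA.2.1 i j hij)]
    simp [hA.1]
  have hcompl : (Uᶜ).card = 1 := by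
    rw [Finset.card_compl, hUc]; omega
  obtain ⟨g0, hg0⟩ := Finset.card_eq_one.mp hcompl
  have hmem : ∀ y, y ∈ U ↔ y ≠ g0 := by
    intro y
    have : y ∈ Uᶜ ↔ y = g0 := by rw [hg0, Finset.mem_singleton]
    rw [Finset.mem_compl] at this
    constructor
    · intro h1 h2; exact (this.mpr h2) h1
    · intro h1; by_contra h2; exact h1 (this.mp h2)
  have hS : ∀ y, ∑ i, ind (A i) y = if y = g0 then 0 else 1 := by
    intro y
    by_cases h : y = g0
    · rw [if_pos h]
      refine Finset.sum_eq_zero fun i _ => ?_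
      have : y ∉ A i := by
        intro h1
        have : y ∈ U := by rw [hU, Finset.mem_biUnion]; exact ⟨i, Finset.mem_univ _, h1⟩
        exact (hmem y).mp this h
      simp [ind, this]
    · rw [if_neg h]
      have h1 : y ∈ U := (hmem y).mpr h
      rw [hU, Finset.mem_biUnion] at h1
      obtain ⟨i, _, hi⟩ := h1
      rw [Finset.sum_eq_single i]
      · simp [ind, hi]
      · intro j _ hj
        have : y ∉ A j := Finset.disjoint_left.mp (hA.2.1 i j hj.symm) hi
        simp [ind, this]
      · simp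
  -- the translated functions
  let a : Fin m → G → ℤ := fun i y => ind (A i) (y * g0)
  have htot : ∀ i, ∑ y, a i y = k := by
    intro i
    rw [← hA.1 i, ← sum_ind (A i)]
    exact Fintype.sum_equiv (Equiv.mulRight g0) _ _ fun y => rfl
  have hSa : ∀ y, ∑ i, a i y = if y = 1 then 0 else 1 := by
    intro y
    have := hS (y * g0)
    simp only [mul_eq_right] at this
    exact this
  have hR : ∀ i x, ∑ y, a i y * a i (x⁻¹ * y) = (l : ℤ) * dlt x - a i x + (k - l) := by
    intro i x
    have h1 := conv_eq hA i x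
    have h2 : ∑ y, ind (A i) y * (∑ j, ind (A j) (x⁻¹ * y) - ind (A i) (x⁻¹ * y))
        = ∑ y, a i y * (∑ j, a j (x⁻¹ * y) - a i (x⁻¹ * y)) := by
      symm
      refine Fintype.sum_equiv (Equiv.mulRight g0) _ _ fun y => ?_
      simp only [a, Equiv.coe_mulRight, mul_assoc]
    rw [h2] at h1
    have h3 : ∑ y, a i y * (∑ j, a j (x⁻¹ * y) - a i (x⁻¹ * y))
        = ∑ y, a i y - ∑ y, a i y * (if y = x then 1 else 0) - ∑ y, a i y * a i (x⁻¹ * y) := by
      rw [← Finset.sum_sub_distrib, ← Finset.sum_sub_distrib]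
      refine Finset.sum_congr rfl fun y _ => ?_
      rw [hSa]
      have : x⁻¹ * y = 1 ↔ y = x := by
        rw [inv_mul_eq_one]; exact eq_comm
      by_cases c : y = x
      · simp [c]
      · simp [this, c]
        ring
    rw [h3, htot] at h1
    simp only [mul_ite, mul_one, mul_zero, Finset.sum_ite_eq', Finset.mem_univ, if_true] at h1
    unfold dlt
    by_cases c : x = 1
    · rw [if_pos c] at h1 ⊢
      linarith
    · rw [if_neg c] at h1 ⊢
      linarith
  have hinv : ∀ i x, a i x⁻¹ = a i x := by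
    intro i x
    have h1 := hR i x
    have h2 := hR i x⁻¹
    have h3 : ∑ y, a i y * a i (x⁻¹⁻¹ * y) = ∑ y, a i y * a i (x⁻¹ * y) := by
      refine Fintype.sum_equiv (Equiv.mulLeft x) _ _ fun y => ?_
      simp only [Equiv.coe_mulLeft, inv_inv, inv_mul_cancel_left]
      ring
    have h4 : (dlt x⁻¹ : ℤ) = dlt x := by simp [dlt]
    rw [h3, h1, h4] at h2
    linarith
  refine ⟨a, ⟨fun i y => ?_, fun i => ?_, fun y hy => ?_, htot, fun i x => ?_, hinv, ?_⟩⟩
  · simp only [a, ind]; split_ifs <;> simp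
  · have h1 := hS g0
    rw [if_pos rfl] at h1
    have h2 : ∀ j ∈ Finset.univ, 0 ≤ ind (A j) g0 := fun j _ => by
      unfold ind; split_ifs <;> simp
    have := (Finset.sum_eq_zero_iff_of_nonneg h2).mp h1 i (Finset.mem_univ _)
    simpa [a] using this
  · rw [hSa, if_neg hy]
  · rw [← hR]
    unfold conv
    refine Finset.sum_congr rfl fun w _ => ?_
    have : w⁻¹ * x = (x⁻¹ * w)⁻¹ := by group
    rw [this, hinv]
  · exact param hA ⟨0, hm⟩

variable {C : Type*} [Group C] [Fintype C]

/-- The quadratic relation for the coset matrices. -/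
theorem Near.cm_sq {a : Fin m → G → ℤ} (ha : Near G m k l a) (i : Fin m) (φ : C →* G)
    (hφ : Function.Injective φ) {R : Type*} [CommRing R] (χ : C →* R) (hχ : ∑ c, χ c = 0) :
    cm φ χ (a i) * cm φ χ (a i) = (l : R) • (1 : Matrix _ _ R) - cm φ χ (a i) := by
  rw [cm_mul φ hφ]
  have h1 : conv (a i) (a i) = (l : ℤ) • (dlt : G → ℤ) + ((-1 : ℤ) • a i
      + ((k : ℤ) - l) • (fun _ : G => 1)) := by
    ext x
    simp only [ha.sq, Pi.add_apply, Pi.smul_apply, smul_eq_mul]
    ring
  rw [h1, cm_add, cm_add, cm_smul, cm_smul, cm_smul, cm_dlt φ hφ, cm_const φ χ hχ]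
  simp
  abel

end

end Pool.Agent.Sedf
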