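import Pool.Agent.Sedf.PrimeDvd

namespace Pool.Agent.Sedf

variable {G : Type*} [Group G] [Fintype G] {m k l u : ℕ} {a : Fin m → G → ℤ}

open Classical in
/-- number of elements of `A_i` in `K` -/
noncomputable def alp (K : Subgroup G) (f : G → ℤ) : ℤ := ∑ c : K, f c

theorem Near.normal_dvd (ha : Near G m k l a) (hm : m = 4 * u + 3) (hk : k = m * u)
    (hl : l = (m - 1) * u) (K : Subgroup G) [hK : K.Normal] (i : Fin m) :
    (4 * (u : ℤ) + 1) ∣ (K.index : ℤ) * (2 * alp K (a i) + 1) := by
  classical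
  have hD : (4 * u + 1) * (4 * u + 1) = 1 + 4 * l := by
    rw [hl, hm]
    have : 4 * u + 3 - 1 = 4 * u + 2 := by omega
    rw [this]; ring
  have hDD : (((4 * u + 1 : ℕ) : ℂ)) * ((4 * u + 1 : ℕ) : ℂ) = 1 + 4 * l := by exact_mod_cast hD
  have hD0 : (((4 * u + 1 : ℕ) : ℂ)) ≠ 0 := by exact_mod_cast (by omega : 4 * u + 1 ≠ 0)
  obtain ⟨f, hf⟩ := ha.trace_one i K.subtype K.subtype_injective _ hDD hD0
  set N := Fintype.card (G ⧸ K.subtype.range) with hN
  have hNi : K.index = N := by
    have h1 : K.index * Nat.card K = Nat.card G := K.index_mul_card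
    have h2 := card_quot K.subtype K.subtype_injective
    rw [Nat.card_eq_fintype_card, Nat.card_eq_fintype_card, ← h2] at h1
    exact Nat.eq_of_mul_eq_mul_right Fintype.card_pos h1
  have htau : ∑ c : K, tau K.subtype (a i) c = (N : ℤ) * alp K (a i) := by
    unfold tau
    rw [Finset.sum_comm]
    have : ∀ t : G ⧸ K.subtype.range, ∑ c : K, a i (t.out * K.subtype c * t.out⁻¹)
        = alp K (a i) := by
      intro t
      unfold alp
      exact Fintype.sum_equiv (MulAut.conjNormal (H := K) t.out).toEquiv _ _ fun c => rfl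
    rw [Finset.sum_congr rfl (fun t _ => this t), Finset.sum_const, Finset.card_univ, nsmul_eq_mul]
  have htr : (cm K.subtype (1 : K →* ℂ) (a i)).trace = (((N : ℤ) * alp K (a i) : ℤ) : ℂ) := by
    rw [cm_trace', ← htau]
    push_cast
    refine Finset.sum_congr rfl fun c _ => ?_
    simp
  rw [htr] at hf
  have hf' : 2 * ((N : ℤ) * alp K (a i)) + N - 2 * k - 1
      = ((4 * u + 1 : ℕ) : ℤ) * (2 * f - N + 1) := by exact_mod_cast hf
  have hk' : (k : ℤ) = (4 * u + 3) * u := by
    rw [hk, hm]; push_cast; ring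
  rw [hNi]
  refine ⟨2 * f - N + 1 + (2 * u + 1), ?_⟩
  rw [hk'] at hf'
  push_cast at hf'
  linear_combination hf'

theorem Near.sum_alp (ha : Near G m k l a) (K : Subgroup G) :
    ∑ i, alp K (a i) = (Nat.card K : ℤ) - 1 := by
  classical
  unfold alp
  rw [Finset.sum_comm, ← Finset.add_sum_erase _ _ (Finset.mem_univ (1 : K))]
  have h1 : ∑ i, a i ((1 : K) : G) = 0 := by
    refine Finset.sum_eq_zero fun i _ => ?_
    exact ha.one i
  have h2 : ∀ c ∈ Finset.univ.erase (1 : K), ∑ i, a i (c : G) = 1 := by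
    intro c hc
    apply ha.uniq
    intro h
    exact Finset.ne_of_mem_erase hc (Subtype.ext h)
  rw [h1, zero_add, Finset.sum_congr rfl h2, Finset.sum_const,
    Finset.card_erase_of_mem (Finset.mem_univ _), Finset.card_univ, Nat.card_eq_fintype_card,
    nsmul_eq_mul, Nat.cast_sub Fintype.card_pos]
  simp

theorem Near.alp_nonneg (ha : Near G m k l a) (K : Subgroup G) (i : Fin m) :
    0 ≤ alp K (a i) := by
  classical
  unfold alp
  refine Finset.sum_nonneg fun c _ => ?_
  rcases ha.zo i c with h | h <;> rw [h] <;> norm_num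

theorem Near.alp_even (ha : Near G m k l a) (K : Subgroup G) (hK : Odd (Nat.card K)) (i : Fin m) :
    2 ∣ alp K (a i) := by
  classical
  rw [← Nat.cast_ofNat (n := 2), ← ZMod.intCast_zmod_eq_zero_iff_dvd]
  unfold alp
  push_cast
  refine Finset.sum_involution (fun c _ => c⁻¹) ?_ ?_ ?_ ?_
  · intro c _
    have h1 : a i ((c⁻¹ : K) : G) = a i c := by
      rw [Subgroup.coe_inv]; exact ha.inv i c
    rw [h1]
    rw [← two_mul]
    have : (2 : ZMod 2) = 0 := rfl
    rw [this, zero_mul]
  · intro c _ hne heq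
    apply hne
    have h2 : c * c = 1 := by
      nth_rewrite 1 [← heq]
      exact inv_mul_cancel c
    have h3 : orderOf c ∣ 2 := orderOf_dvd_of_pow_eq_one (by rw [pow_two, h2])
    have h4 : orderOf c ∣ Nat.card K := orderOf_dvd_natCard c
    have h5 : orderOf c = 1 := by
      have h6 : orderOf c ∣ Nat.gcd 2 (Nat.card K) := Nat.dvd_gcd h3 h4
      have h7 : Nat.gcd 2 (Nat.card K) = 1 := (Nat.coprime_two_left.mpr hK)
      rw [h7] at h6
      exact Nat.dvd_one.mp h6
    have h8 : c = 1 := orderOf_eq_one_iff.mp h5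
    rw [h8]
    have h9 : a i ((1 : K) : G) = 0 := ha.one i
    rw [h9]; simp
  · intro c _
    exact Finset.mem_univ _
  · intro c _
    exact inv_inv c

end Pool.Agent.Sedf
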