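import Pool.Agent.Sedf.Modular

namespace Pool.Agent.Sedf

theorem params {m k l D : ℕ} (hm : 3 ≤ m) (hk : 1 ≤ k)
    (hpar : (k : ℤ) * (m * k - k) = l * (m * k)) (hD : D * D = 1 + 4 * l)
    (hdvd : (D : ℤ) ∣ (m : ℤ) - 2) :
    ∃ u : ℕ, 1 ≤ u ∧ k = m * u ∧ l = (m - 1) * u ∧ D = 4 * u + 1 ∧ m = 4 * u + 3 := by
  have hk0 : (k : ℤ) ≠ 0 := by exact_mod_cast (by omega : k ≠ 0)
  have h1 : (k : ℤ) * (m - 1) = l * m := by
    apply mul_left_cancel₀ hk0
    linear_combination hpar
  have h2 : k * (m - 1) = l * m := by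
    have : ((k * (m - 1) : ℕ) : ℤ) = ((l * m : ℕ) : ℤ) := by
      push_cast [Nat.cast_sub (by omega : 1 ≤ m)]
      exact h1
    exact_mod_cast this
  have hcop : Nat.Coprime m (m - 1) := by
    rw [Nat.coprime_self_sub_right (by omega)]
    exact Nat.coprime_one_right m
  have h3 : m ∣ k := hcop.dvd_of_dvd_mul_right ⟨l, by rw [h2]; ring⟩
  obtain ⟨u, rfl⟩ := h3
  have hu : 1 ≤ u := by
    rcases Nat.eq_zero_or_pos u with h | h
    · subst h; omega
    · exact h
  have h4 : l = (m - 1) * u := by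
    have : m * l = m * ((m - 1) * u) := by
      calc m * l = l * m := by ring
        _ = m * u * (m - 1) := h2.symm
        _ = _ := by ring
    exact Nat.eq_of_mul_eq_mul_left (by omega) this
  obtain ⟨w, hw⟩ := hdvd
  have hDpos : (0 : ℤ) < D := by
    have : D ≠ 0 := by rintro rfl; omega
    exact_mod_cast Nat.pos_of_ne_zero this
  have hw1 : 1 ≤ w := by
    by_contra hlt
    have hw0 : w ≤ 0 := by omega
    have : (D : ℤ) * w ≤ 0 := mul_nonpos_of_nonneg_of_nonpos hDpos.le hw0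
    have h5 : (3 : ℤ) ≤ m := by exact_mod_cast hm
    linarith
  have h5 : (D : ℤ) * D = 1 + 4 * ((D * w + 1) * u) := by
    have e1 : ((m - 1 : ℕ) : ℤ) = D * w + 1 := by
      rw [Nat.cast_sub (by omega), ← hw]; push_cast; ring
    have e2 : (l : ℤ) = (D * w + 1) * u := by
      rw [h4, Nat.cast_mul, e1]
    rw [← e2]
    exact_mod_cast hD
  set y : ℤ := D - 4 * w * u with hy
  have h6 : (D : ℤ) * y = 4 * u + 1 := by rw [hy]; linear_combination h5
  have hup : (1 : ℤ) ≤ u := by exact_mod_cast hu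
  have hy1 : 1 ≤ y := by
    by_contra hlt
    have hy0 : y ≤ 0 := by omega
    have : (D : ℤ) * y ≤ 0 := mul_nonpos_of_nonneg_of_nonpos hDpos.le hy0
    linarith
  have h7 : 4 * (u : ℤ) * (w * y - 1) + (y * y - 1) = 0 := by
    have e : (D : ℤ) = y + 4 * w * u := by rw [hy]; ring
    rw [e] at h6
    linear_combination h6
  have h8 : 0 ≤ w * y - 1 := by nlinarith
  have h9 : y = 1 := by nlinarith [mul_nonneg (by linarith : (0 : ℤ) ≤ 4 * u) h8]
  have h10 : w = 1 := by
    rw [h9] at h7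
    have : 4 * (u : ℤ) * (w - 1) = 0 := by linear_combination h7
    rcases mul_eq_zero.mp this with h | h
    · exfalso; linarith
    · linarith
  have hD4 : (D : ℤ) = 4 * u + 1 := by rw [h9] at h6; linarith
  have hD4' : D = 4 * u + 1 := by exact_mod_cast hD4
  refine ⟨u, hu, rfl, h4, hD4', ?_⟩
  have : (m : ℤ) = 4 * u + 3 := by rw [h10] at hw; linarith
  exact_mod_cast this

end Pool.Agent.Sedf
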