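import Pool.Agent.Sedf.Charp

namespace Pool.Agent.Sedf

variable {G : Type*} [Group G] [Fintype G] {m k l u : ℕ} {a : Fin m → G → ℤ}

theorem sum_dlt : ∑ x : G, (dlt x : ℤ) = 1 := by
  classical
  simp [dlt]

/-- the integer multiple of the idempotent attached to `a i` -/
noncomputable def FF (u : ℕ) (a : Fin m → G → ℤ) (i : Fin m) : G → ℤ :=
  (4 * (u : ℤ) + 1) • a i + ((4 * (u : ℤ) + 1) * (2 * u + 1)) • dlt + (-1 : ℤ) • (fun _ => 1)

theorem Near.FF_sq (ha : Near G m k l a) (hm : m = 4 * u + 3) (hk : k = m * u)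
    (hl : l = (m - 1) * u) (hn : m * k + 1 = Fintype.card G) (i : Fin m) :
    conv (FF u a i) (FF u a i) = ((4 * (u : ℤ) + 1) * (4 * u + 1)) • FF u a i := by
  have h1 : conv (a i) (a i) = (l : ℤ) • (dlt : G → ℤ) + ((-1 : ℤ) • a i
      + ((k : ℤ) - l) • (fun _ : G => 1)) := by
    ext x
    simp only [ha.sq, Pi.add_apply, Pi.smul_apply, smul_eq_mul]
    ring
  have hl' : (l : ℤ) = (4 * u + 2) * u := by
    rw [hl, hm]; push_cast; ring
  have hk' : (k : ℤ) = (4 * u + 3) * u := by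
    rw [hk, hm]; push_cast; ring
  have hn' : (Fintype.card G : ℤ) = (4 * u + 3) * ((4 * u + 3) * u) + 1 := by
    rw [← hn, hk, hm]; push_cast; ring
  have hs1 : ∑ _y : G, (1 : ℤ) = (4 * u + 3) * ((4 * u + 3) * u) + 1 := by
    rw [← hn']; simp
  unfold FF
  simp only [conv_add_left, conv_add_right, conv_smul_left, conv_smul_right]
  simp only [dlt_conv, conv_dlt, conv_const, const_conv, h1, ha.tot, hs1, sum_dlt]
  ext x
  simp only [Pi.add_apply, Pi.smul_apply, smul_eq_mul]
  rw [hk', hl']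
  ring

theorem Near.prime_dvd (ha : Near G m k l a) (hm : m = 4 * u + 3) (hk : k = m * u)
    (hl : l = (m - 1) * u) (hn : m * k + 1 = Fintype.card G) {q : ℕ} (hq : q.Prime)
    (hqn : q ∣ Fintype.card G) : q ∣ 4 * u + 1 := by
  by_contra hcon
  have : Fact q.Prime := ⟨hq⟩
  have hD : (4 * u + 1) * (4 * u + 1) = 1 + 4 * l := by
    rw [hl, hm]
    have : 4 * u + 3 - 1 = 4 * u + 2 := by omega
    rw [this]; ring
  obtain ⟨φ, hφ⟩ := exists_hom hq hqn
  obtain ⟨ζ, hζ⟩ := exists_zeta hq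
  have hχ : ∑ c, chr hζ c = 0 := char_sum hζ
  choose t f ht hf using fun i => ha.tau_const φ hφ hD i
  set N : ℤ := (Fintype.card (G ⧸ φ.range) : ℤ) with hN
  have hNpos : 0 < N := by rw [hN]; exact_mod_cast Fintype.card_pos
  have hne : (Multiplicative.ofAdd (1 : ZMod q)) ≠ 1 := by
    intro h
    have h2 : (1 : ZMod q) = 0 := congrArg Multiplicative.toAdd h
    exact one_ne_zero h2
  have hst : ∑ i, t i = N := by
    rw [hN, ← ha.sum_tau φ hφ _ hne]
    refine Finset.sum_congr rfl fun i _ => ?_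
    rw [ht i _ hne]
  have hE : ¬ (q : ℤ) ∣ (4 * (u : ℤ) + 1) * (4 * u + 1) := by
    intro h
    apply hcon
    have h1 : (q : ℤ) ∣ ((4 * u + 1) * (4 * u + 1) : ℕ) := by push_cast; exact h
    have h2 : q ∣ (4 * u + 1) * (4 * u + 1) := by exact_mod_cast h1
    exact (hq.dvd_mul.mp h2).elim id id
  have key : ∀ i, (4 * (u : ℤ) + 1) * t i = N := by
    intro i
    have hr := rank_eq hζ φ hφ (FF u a i) _ hE (ha.FF_sq hm hk hl hn i)
    rw [cm_trace', cm_trace'] at hr
    have htau1 : tau φ (FF u a i) 1 = (4 * (u : ℤ) + 1) * (2 * u + 1) * N - N := by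
      unfold FF
      rw [tau_add, tau_add, tau_smul, tau_smul, tau_smul, ha.tau_one, tau_dlt_one, tau_ones]
      ring
    have htaune : ∀ c, c ≠ 1 → tau φ (FF u a i) c = (4 * (u : ℤ) + 1) * t i - N := by
      intro c hc
      unfold FF
      rw [tau_add, tau_add, tau_smul, tau_smul, tau_smul, ht i c hc, tau_dlt_ne φ hφ hc, tau_ones]
      ring
    classical
    have hgen : ∀ χ : Multiplicative (ZMod q) →* ℂ, ∑ c, χ c * (tau φ (FF u a i) c : ℂ)
        = (((4 * (u : ℤ) + 1) * (2 * u + 1) * N - N : ℤ) : ℂ)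
          + (((4 * (u : ℤ) + 1) * t i - N : ℤ) : ℂ) * (∑ c, χ c - 1) := by
      intro χ
      rw [← Finset.add_sum_erase _ _ (Finset.mem_univ (1 : Multiplicative (ZMod q))), htau1,
        map_one, one_mul]
      congr 1
      rw [← Finset.add_sum_erase _ _ (Finset.mem_univ (1 : Multiplicative (ZMod q))), map_one,
        add_sub_cancel_left, Finset.mul_sum]
      refine Finset.sum_congr rfl fun c hc => ?_
      rw [htaune c (Finset.ne_of_mem_erase hc), mul_comm]
    rw [hgen, hgen, hχ] at hr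
    have hone : ∑ c : Multiplicative (ZMod q), (1 : Multiplicative (ZMod q) →* ℂ) c = q := by
      simp [ZMod.card]
    rw [hone] at hr
    have h3 : ((((4 * (u : ℤ) + 1) * t i - N : ℤ)) : ℂ) * (q : ℂ) = 0 := by
      linear_combination -hr
    have hq0 : (q : ℂ) ≠ 0 := by exact_mod_cast hq.ne_zero
    have h4 := (mul_eq_zero.mp h3).resolve_right hq0
    have h5 : (4 * (u : ℤ) + 1) * t i - N = 0 := by exact_mod_cast h4
    linarith
  have hsum : (4 * (u : ℤ) + 1) * N = m * N := by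
    rw [← hst, Finset.mul_sum, Finset.sum_congr rfl (fun i _ => key i)]
    simp [hst]
  have h6 := mul_right_cancel₀ hNpos.ne' hsum
  rw [hm] at h6
  push_cast at h6
  linarith

end Pool.Agent.Sedf
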