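import Pool.Agent.Sedf.Near

namespace Pool.Agent.Sedf

open Matrix

/-- Trace of a solution of `M² = l - M + c J`, `M J = J M = k J`. -/
theorem quadr {T : Type*} [Fintype T] [DecidableEq T] (M J : Matrix T T ℂ) (N l c k d : ℂ)
    (hN : (Fintype.card T : ℂ) = N) (hN0 : N ≠ 0) (hJ0 : J ≠ 0)
    (hM : M * M = l • (1 : Matrix T T ℂ) - M + c • J) (hMJ : M * J = k • J) (hJM : J * M = k • J)
    (hJJ : J * J = N • J) (htr : J.trace = N) (hd : d * d = 1 + 4 * l) (hd0 : d ≠ 0) :
    ∃ f : ℕ, 2 * M.trace + N - 2 * k - 1 = d * (2 * f - N + 1) := by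
  have hk : k * k = l - k + c * N := by
    have h1 : (k * k) • J = (l - k + c * N) • J := by
      calc (k * k) • J = M * M * J := by
            rw [Matrix.mul_assoc, hMJ, Matrix.mul_smul, hMJ, smul_smul]
        _ = (l - k + c * N) • J := by
            rw [hM, Matrix.add_mul, Matrix.sub_mul, Matrix.smul_mul, Matrix.smul_mul,
              Matrix.one_mul, hMJ, hJJ, smul_smul, add_smul, sub_smul]
    by_contra hne
    apply hJ0
    have h2 : (k * k - (l - k + c * N)) • J = 0 := by rw [sub_smul, h1, sub_self]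
    exact (smul_eq_zero.mp h2).resolve_left (sub_ne_zero.mpr hne)
  set B : Matrix T T ℂ := (2 * N) • M + (N * (1 + d)) • (1 : Matrix T T ℂ)
    + (-(2 * k + 1 + d)) • J with hB
  have hBB : B * B = (2 * d * N) • B := by
    have e : B * B = (2 * N * (2 * N)) • (M * M) + (2 * (2 * N) * (N * (1 + d))) • M
        + (N * (1 + d) * (N * (1 + d))) • (1 : Matrix T T ℂ)
        + (2 * N * (-(2 * k + 1 + d))) • (M * J) + (2 * N * (-(2 * k + 1 + d))) • (J * M)
        + (2 * (N * (1 + d)) * (-(2 * k + 1 + d))) • J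
        + ((2 * k + 1 + d) * (2 * k + 1 + d)) • (J * J) := by
      rw [hB]
      simp only [Matrix.add_mul, Matrix.mul_add, Matrix.smul_mul, Matrix.mul_smul, Matrix.one_mul,
        Matrix.mul_one, smul_smul]
      module
    rw [e, hM, hMJ, hJM, hJJ, hB]
    have hl : l = (d * d - 1) / 4 := by rw [hd]; ring
    have hc : c * N = k * k - l + k := by rw [hk]; ring
    have hc' : c = (k * k - (d * d - 1) / 4 + k) / N := by
      rw [eq_div_iff hN0, hc, hl]
    subst hl
    rw [hc']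
    match_scalars <;> field_simp <;> ring
  obtain ⟨f, _, hf, _⟩ := charpoly_of_sq B (2 * d * N)
    (mul_ne_zero (mul_ne_zero two_ne_zero hd0) hN0) hBB
  refine ⟨f, ?_⟩
  have h3 : B.trace = (2 * N) * M.trace + N * (1 + d) * N - (2 * k + 1 + d) * N := by
    rw [hB, Matrix.trace_add, Matrix.trace_add, Matrix.trace_smul, Matrix.trace_smul,
      Matrix.trace_smul, Matrix.trace_one, hN, htr]
    simp only [smul_eq_mul]
    ring
  rw [h3] at hf
  have h4 : N * (2 * M.trace + N - 2 * k - 1) = N * (d * (2 * f - N + 1)) := by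
    linear_combination hf
  exact mul_left_cancel₀ hN0 h4

section
variable {G C : Type*} [Group G] [Fintype G] [Group C] [Fintype C]

theorem conv_const (f : G → ℤ) : conv f (fun _ => 1) = (∑ y, f y) • (fun _ : G => (1 : ℤ)) := by
  ext z
  simp [conv]

theorem const_conv (f : G → ℤ) : conv (fun _ => 1) f = (∑ y, f y) • (fun _ : G => (1 : ℤ)) := by
  ext z
  simp only [conv, one_mul, Pi.smul_apply, smul_eq_mul, mul_one]
  exact Fintype.sum_equiv ((Equiv.inv G).trans (Equiv.mulRight z)) _ _ fun y => rfl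

/-- all ones -/
def ones (T : Type*) (R : Type*) [One R] : Matrix T T R := fun _ _ => 1

theorem cm_one_const (φ : C →* G) {R : Type*} [CommRing R] :
    cm φ (1 : C →* R) (fun _ : G => 1) = (Fintype.card C : R) • ones (G ⧸ φ.range) R := by
  ext s t
  simp [cm, ones]

theorem cm_one_mul_ones (φ : C →* G) (hφ : Function.Injective φ) (f : G → ℤ) :
    cm φ (1 : C →* ℂ) f * ones (G ⧸ φ.range) ℂ
      = ((∑ y, f y : ℤ) : ℂ) • ones (G ⧸ φ.range) ℂ := by
  have h := cm_mul φ hφ (1 : C →* ℂ) f (fun _ => 1)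
  rw [conv_const, cm_smul, cm_one_const, Matrix.mul_smul, smul_smul, mul_comm, ← smul_smul] at h
  have hC : (Fintype.card C : ℂ) ≠ 0 := by exact_mod_cast Fintype.card_ne_zero
  exact smul_right_injective _ hC h

theorem ones_mul_cm_one (φ : C →* G) (hφ : Function.Injective φ) (f : G → ℤ) :
    ones (G ⧸ φ.range) ℂ * cm φ (1 : C →* ℂ) f
      = ((∑ y, f y : ℤ) : ℂ) • ones (G ⧸ φ.range) ℂ := by
  have h := cm_mul φ hφ (1 : C →* ℂ) (fun _ => 1) f
  rw [const_conv, cm_smul, cm_one_const, Matrix.smul_mul, smul_smul, mul_comm, ← smul_smul] at h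
  have hC : (Fintype.card C : ℂ) ≠ 0 := by exact_mod_cast Fintype.card_ne_zero
  exact smul_right_injective _ hC h

variable {m k l : ℕ}

/-- T1: trace relation for the trivial character. -/
theorem Near.trace_one {a : Fin m → G → ℤ} (ha : Near G m k l a) (i : Fin m) (φ : C →* G)
    (hφ : Function.Injective φ) (d : ℂ) (hd : d * d = 1 + 4 * l) (hd0 : d ≠ 0) :
    ∃ f : ℕ, 2 * (cm φ (1 : C →* ℂ) (a i)).trace + (Fintype.card (G ⧸ φ.range) : ℂ) - 2 * k - 1
      = d * (2 * f - (Fintype.card (G ⧸ φ.range) : ℂ) + 1) := by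
  have hT : (Fintype.card (G ⧸ φ.range) : ℂ) ≠ 0 := by exact_mod_cast Fintype.card_ne_zero
  have h1 : conv (a i) (a i) = (l : ℤ) • (dlt : G → ℤ) + ((-1 : ℤ) • a i
      + ((k : ℤ) - l) • (fun _ : G => 1)) := by
    ext x
    simp only [ha.sq, Pi.add_apply, Pi.smul_apply, smul_eq_mul]
    ring
  refine quadr (cm φ (1 : C →* ℂ) (a i)) (ones _ ℂ) (Fintype.card (G ⧸ φ.range)) l
    (((k : ℂ) - l) * Fintype.card C) k d rfl hT ?_ ?_ ?_ ?_ ?_ ?_ hd hd0
  · intro h
    have := congrFun (congrFun h (QuotientGroup.mk 1)) (QuotientGroup.mk 1)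
    simp [ones] at this
  · rw [cm_mul φ hφ, h1, cm_add, cm_add, cm_smul, cm_smul, cm_smul, cm_dlt φ hφ, cm_one_const]
    push_cast
    rw [smul_smul]
    module
  · rw [cm_one_mul_ones φ hφ, ha.tot]; simp
  · rw [ones_mul_cm_one φ hφ, ha.tot]; simp
  · ext s t
    simp [ones, Matrix.mul_apply]
  · simp [ones, Matrix.trace]

/-- T2: trace relation for a nontrivial character. -/
theorem Near.trace_ne {a : Fin m → G → ℤ} (ha : Near G m k l a) (i : Fin m) (φ : C →* G)
    (hφ : Function.Injective φ) (χ : C →* ℂ) (hχ : ∑ c, χ c = 0)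
    (d : ℂ) (hd : d * d = 1 + 4 * l) (hd0 : d ≠ 0) :
    ∃ f : ℕ, 2 * (cm φ χ (a i)).trace + (1 + d) * (Fintype.card (G ⧸ φ.range) : ℂ)
      = 2 * d * f := by
  have h := ha.cm_sq i φ hφ χ hχ
  set M := cm φ χ (a i) with hM
  set B : Matrix (G ⧸ φ.range) (G ⧸ φ.range) ℂ := (2 : ℂ) • M + (1 + d) • 1 with hB
  have hBB : B * B = (2 * d) • B := by
    have e : B * B = (4 : ℂ) • (M * M) + (4 * (1 + d)) • M + ((1 + d) * (1 + d)) • 1 := by
      rw [hB]
      simp only [Matrix.add_mul, Matrix.mul_add, Matrix.smul_mul, Matrix.mul_smul, Matrix.one_mul,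
        Matrix.mul_one, smul_smul]
      module
    rw [e, h, hB]
    have hl : (l : ℂ) = (d * d - 1) / 4 := by rw [hd]; ring
    rw [hl]
    match_scalars <;> ring
  obtain ⟨f, _, hf, _⟩ := charpoly_of_sq B (2 * d) (mul_ne_zero two_ne_zero hd0) hBB
  refine ⟨f, ?_⟩
  rw [hB, Matrix.trace_add, Matrix.trace_smul, Matrix.trace_smul, Matrix.trace_one] at hf
  simp only [smul_eq_mul] at hf
  rw [hf]; ring

end

end Pool.Agent.Sedf
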