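import Mathlib

set_option autoImplicit false

namespace Pool.Agent.Sedf.Spc

/-- The sequence `R_0 = x`, `R_(j+1) = (m - 2) ^ 2 R_j / (R_j + 1) - 1`. -/
noncomputable def rt (m : ℕ) (x : ℝ) : ℕ → ℝ
  | 0 => x
  | j + 1 => ((m : ℝ) - 2) ^ 2 * rt m x j / (rt m x j + 1) - 1

end Pool.Agent.Sedf.Spc
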