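import Pool.Agent.Sedf.Eqw
import Pool.Agent.Sedf.Seqr

set_option autoImplicit false

/-!
Idempotents whose sum is a scalar (MP_4124fc_co)
-/

namespace Pool.Agent.Sedf.Spc

open Module Matrix Pool.Agent.Sedf.Abx

universe u

section abs

/-- idempotents with scalar sum `c`, `c` not `0` and not `1`: then `1 < c` -/
theorem small {E : Type*} [AddCommGroup E] [Module ℝ E] [FiniteDimensional ℝ E]
    {m : ℕ} (hm : 1 ≤ m) (P : Fin m → E →ₗ[ℝ] E) (hP : ∀ i, P i * P i = P i) {c : ℝ}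
    (hc0 : c ≠ 0) (hc1 : c ≠ 1)
    (hs : ∑ i, P i = c • (1 : E →ₗ[ℝ] E)) (he : 0 < finrank ℝ E) : 1 < c := by
  classical
  have he' : (0 : ℝ) < (finrank ℝ E : ℝ) := by exact_mod_cast he
  have htr : ∑ i, (finrank ℝ (LinearMap.range (P i)) : ℝ) = c * (finrank ℝ E : ℝ) := by
    have h1 := congrArg (LinearMap.trace ℝ E) hs
    rw [map_sum, map_smul, LinearMap.trace_one, smul_eq_mul] at h1
    rw [← h1]
    exact Finset.sum_congr rfl fun i _ => (ptr (P i) (hP i)).symm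
  have hinv : ∀ i, LinearMap.range (c • (1 : E →ₗ[ℝ] E) - P i) = ⊤ := by
    intro i
    rw [LinearMap.range_eq_top]
    intro x
    have hPP : ∀ y, P i (P i y) = P i y := fun y => by
      have := LinearMap.congr_fun (hP i) y
      simpa using this
    have hcc : c * (c - 1) ≠ 0 := mul_ne_zero hc0 (sub_ne_zero.2 hc1)
    refine ⟨(c * (c - 1))⁻¹ • ((c - 1) • x + P i x), ?_⟩
    have key : (c • (1 : E →ₗ[ℝ] E) - P i) ((c - 1) • x + P i x) = (c * (c - 1)) • x := by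
      simp only [LinearMap.sub_apply, LinearMap.smul_apply, Module.End.one_apply, map_add, map_smul,
        hPP]
      module
    rw [map_smul, key, smul_smul, inv_mul_cancel₀ hcc, one_smul]
  obtain ⟨i⟩ : Nonempty (Fin m) := ⟨⟨0, by omega⟩⟩
  have h1 : ∑ j ∈ Finset.univ.erase i, P j = c • (1 : E →ₗ[ℝ] E) - P i := by
    rw [← hs, ← Finset.add_sum_erase _ _ (Finset.mem_univ i)]
    abel
  have h2 := prk P (Finset.univ.erase i)
  rw [h1, hinv i, finrank_top] at h2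
  have h3 : (finrank ℝ E : ℝ) ≤
      ∑ j ∈ Finset.univ.erase i, (finrank ℝ (LinearMap.range (P j)) : ℝ) := by
    exact_mod_cast h2
  have h4 := Finset.add_sum_erase Finset.univ
    (fun j => (finrank ℝ (LinearMap.range (P j)) : ℝ)) (Finset.mem_univ i)
  rw [htr] at h4
  have h5 : (0 : ℝ) ≤ (finrank ℝ (LinearMap.range (P i)) : ℝ) := by positivity
  have h6 : 1 * (finrank ℝ E : ℝ) ≤ c * (finrank ℝ E : ℝ) := by linarith
  have h7 := le_of_mul_le_mul_right h6 he'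
  exact lt_of_le_of_ne h7 hc1.symm

/-- the reduction: from `c` to `m - c / (c - 1)` -/
theorem red {E : Type*} [AddCommGroup E] [Module ℝ E] [FiniteDimensional ℝ E]
    {m : ℕ} (P : Fin m → E →ₗ[ℝ] E) (hP : ∀ i, P i * P i = P i) {c : ℝ}
    (hc : 1 < c) (hs : ∑ i, P i = c • (1 : E →ₗ[ℝ] E)) (he : 0 < finrank ℝ E) :
    ∃ (W : Submodule ℝ (Fin m → E)) (Q : Fin m → W →ₗ[ℝ] W), (∀ i, Q i * Q i = Q i) ∧
      ∑ i, Q i = ((m : ℝ) - c / (c - 1)) • (1 : W →ₗ[ℝ] W) ∧ 0 < finrank ℝ W ∧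
      (finrank ℝ W : ℝ) = (c - 1) * finrank ℝ E := by
  classical
  have he' : (0 : ℝ) < (finrank ℝ E : ℝ) := by exact_mod_cast he
  have hPP : ∀ i y, P i (P i y) = P i y := fun i y => by
    have := LinearMap.congr_fun (hP i) y
    simpa using this
  have hsx : ∀ x, ∑ i, P i x = c • x := fun x => by
    have := LinearMap.congr_fun hs x
    rw [LinearMap.sum_apply] at this
    simpa using this
  have htr : ∑ i, (finrank ℝ (LinearMap.range (P i)) : ℝ) = c * (finrank ℝ E : ℝ) := by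
    have h1 := congrArg (LinearMap.trace ℝ E) hs
    rw [map_sum, map_smul, LinearMap.trace_one, smul_eq_mul] at h1
    rw [← h1]
    exact Finset.sum_congr rfl fun i _ => (ptr (P i) (hP i)).symm
  have hc1 : c - 1 ≠ 0 := by linarith
  -- the space
  obtain ⟨W, hW⟩ : ∃ W : Submodule ℝ (Fin m → E), ∀ w, w ∈ W ↔
      (∀ i, P i (w i) = w i) ∧ ∑ i, w i = 0 := by
    refine ⟨{ carrier := {w | (∀ i, P i (w i) = w i) ∧ ∑ i, w i = 0}
              add_mem' := ?_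
              zero_mem' := ?_
              smul_mem' := ?_ }, fun w => Iff.rfl⟩
    · rintro a b ⟨h1, h2⟩ ⟨h3, h4⟩
      refine ⟨fun i => ?_, ?_⟩
      · rw [Pi.add_apply, map_add, h1, h3]
      · simp only [Pi.add_apply]
        rw [Finset.sum_add_distrib, h2, h4, add_zero]
    · exact ⟨fun i => by simp, by simp⟩
    · rintro r a ⟨h1, h2⟩
      refine ⟨fun i => ?_, ?_⟩
      · rw [Pi.smul_apply, map_smul, h1]
      · simp only [Pi.smul_apply]
        rw [← Finset.smul_sum, h2, smul_zero]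
  -- its dimension
  have hdim : (finrank ℝ W : ℝ) = (c - 1) * finrank ℝ E := by
    obtain ⟨f, hf⟩ : ∃ f : (∀ i, LinearMap.range (P i)) →ₗ[ℝ] E, ∀ w, f w = ∑ i, (w i : E) :=
      ⟨{ toFun := fun w => ∑ i, (w i : E)
         map_add' := fun a b => by simp [Finset.sum_add_distrib]
         map_smul' := fun r a => by simp [Finset.smul_sum] }, fun w => rfl⟩
    have hsurj : LinearMap.range f = ⊤ := by
      rw [LinearMap.range_eq_top]
      intro x
      refine ⟨c⁻¹ • fun i => ⟨P i x, LinearMap.mem_range_self _ _⟩, ?_⟩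
      rw [map_smul, hf]
      simp only
      rw [hsx, smul_smul, inv_mul_cancel₀ (by linarith), one_smul]
    have hrn := LinearMap.finrank_range_add_finrank_ker f
    rw [hsurj, finrank_top, Module.finrank_pi_fintype] at hrn
    have hker : finrank ℝ (LinearMap.ker f) = finrank ℝ W := by
      refine LinearEquiv.finrank_eq
        { toFun := fun w => ⟨fun i => (w.1 i : E), (hW _).2 ⟨fun i => ?_, ?_⟩⟩
          map_add' := fun a b => rfl
          map_smul' := fun r a => rfl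
          invFun := fun w => ⟨fun i => ⟨w.1 i, ⟨w.1 i, ((hW _).1 w.2).1 i⟩⟩, ?_⟩
          left_inv := fun w => rfl
          right_inv := fun w => rfl }
      · obtain ⟨y, hy⟩ := (w.1 i).2
        rw [← hy, hPP]
      · rw [← hf]
        exact w.2
      · rw [LinearMap.mem_ker, hf]
        exact ((hW _).1 w.2).2
    rw [hker] at hrn
    have hrn' : (finrank ℝ E : ℝ) + finrank ℝ W = ∑ i, (finrank ℝ (LinearMap.range (P i)) : ℝ) := by
      exact_mod_cast hrn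
    rw [htr] at hrn'
    linarith
  -- the idempotents
  obtain ⟨T, hT⟩ : ∃ T : Fin m → W →ₗ[ℝ] W, ∀ i (w : W) j, (T i w).1 j =
      (c - 1)⁻¹ • ((if j = i then c • w.1 i else 0) - P j (w.1 i)) := by
    refine ⟨fun i =>
      { toFun := fun w => ⟨fun j => (c - 1)⁻¹ • ((if j = i then c • w.1 i else 0) - P j (w.1 i)),
          (hW _).2 ⟨fun j => ?_, ?_⟩⟩
        map_add' := fun a b => ?_
        map_smul' := fun r a => ?_ }, fun i w j => rfl⟩
    · rw [map_smul, map_sub, hPP]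
      congr 2
      split_ifs with h
      · rw [h, map_smul, ((hW _).1 w.2).1 i]
      · rw [map_zero]
    · rw [← Finset.smul_sum, Finset.sum_sub_distrib, hsx, Finset.sum_ite_eq' Finset.univ i]
      simp
    · apply Subtype.ext
      funext j
      simp only [Submodule.coe_add, Pi.add_apply, map_add]
      split_ifs <;> module
    · apply Subtype.ext
      funext j
      simp only [Submodule.coe_smul, Pi.smul_apply, map_smul, RingHom.id_apply]
      split_ifs <;> module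
  have hTi : ∀ i (w : W), (T i w).1 i = w.1 i := by
    intro i w
    rw [hT, if_pos rfl, ((hW _).1 w.2).1 i,
      show c • w.1 i - w.1 i = (c - 1) • w.1 i by module, smul_smul, inv_mul_cancel₀ hc1,
      one_smul]
  have hTT : ∀ i, T i * T i = T i := by
    intro i
    refine LinearMap.ext fun w => Subtype.ext (funext fun j => ?_)
    rw [Module.End.mul_apply, hT, hTi, hT]
  have hTs : ∑ i, T i = (c / (c - 1)) • (1 : W →ₗ[ℝ] W) := by
    refine LinearMap.ext fun w => Subtype.ext (funext fun j => ?_)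
    rw [LinearMap.sum_apply, Submodule.coe_sum, Finset.sum_apply, LinearMap.smul_apply,
      Module.End.one_apply, Submodule.coe_smul, Pi.smul_apply]
    simp only [hT]
    rw [← Finset.smul_sum, Finset.sum_sub_distrib, ← map_sum, ((hW _).1 w.2).2, map_zero, sub_zero,
      Finset.sum_ite_eq Finset.univ j]
    simp only [Finset.mem_univ, if_true]
    rw [smul_smul]
    congr 1
    field_simp
  have hTTw : ∀ i w, T i (T i w) = T i w := fun i w => LinearMap.congr_fun (hTT i) w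
  have hTsw : ∀ w, ∑ i, T i w = (c / (c - 1)) • w := fun w => by
    have h := LinearMap.congr_fun hTs w
    rw [LinearMap.sum_apply] at h
    exact h
  obtain ⟨Q, hQ⟩ : ∃ Q : Fin m → W →ₗ[ℝ] W, ∀ i w, Q i w = w - T i w :=
    ⟨fun i =>
      { toFun := fun w => w - T i w
        map_add' := fun a b => by
          change a + b - T i (a + b) = (a - T i a) + (b - T i b)
          rw [map_add]
          abel
        map_smul' := fun r a => by
          change r • a - T i (r • a) = r • (a - T i a)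
          rw [map_smul, smul_sub] }, fun i w => rfl⟩
  refine ⟨W, Q, fun i => ?_, ?_, ?_, hdim⟩
  · refine LinearMap.ext fun w => ?_
    rw [Module.End.mul_apply, hQ, hQ, map_sub, hTTw, sub_self, sub_zero]
  · refine LinearMap.ext fun w => ?_
    rw [LinearMap.sum_apply]
    simp only [hQ]
    rw [Finset.sum_sub_distrib, hTsw, Finset.sum_const, Finset.card_univ, Fintype.card_fin,
      ← Nat.cast_smul_eq_nsmul ℝ, ← sub_smul]
    rfl
  · have h : (0 : ℝ) < finrank ℝ W := by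
      rw [hdim]
      exact mul_pos (by linarith) he'
    exact_mod_cast h

/-- the ratio `R` of `c` : `R + 1 = (m - 2) / (c - 1)` -/
noncomputable def rc (m : ℕ) (c : ℝ) : ℝ := ((m : ℝ) - 2) / (c - 1) - 1

/-- the discrete values -/
def Dsc (m : ℕ) (R : ℝ) : Prop :=
  ∃ j, R = rt m ((m : ℝ) ^ 2 - 3 * m + 1) j ∨ R = rt m (((m : ℝ) - 1) * (m - 3)) j

theorem dsc_zero {m : ℕ} {c : ℝ} (hc : 1 < c) (h : (m : ℝ) - c / (c - 1) = 0) :
    Dsc m (rc m c) := by
  refine ⟨0, Or.inl ?_⟩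
  have hc1 : c - 1 ≠ 0 := by linarith
  rw [rt, rc]
  have h1 : c = m * (c - 1) := by
    field_simp at h
    linarith
  have h2 : ((m : ℝ) - 2) / (c - 1) = ((m : ℝ) - 2) * (m - 1) := by
    rw [div_eq_iff hc1]
    linear_combination ((m : ℝ) - 2) * h1
  rw [h2]
  ring

theorem dsc_one {m : ℕ} {c : ℝ} (hc : 1 < c) (h : (m : ℝ) - c / (c - 1) = 1) :
    Dsc m (rc m c) := by
  refine ⟨0, Or.inr ?_⟩
  have hc1 : c - 1 ≠ 0 := by linarith
  rw [rt, rc]
  have h1 : c = (m - 1) * (c - 1) := by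
    field_simp at h
    linarith
  have h2 : ((m : ℝ) - 2) / (c - 1) = ((m : ℝ) - 2) * (m - 2) := by
    rw [div_eq_iff hc1]
    linear_combination ((m : ℝ) - 2) * h1
  rw [h2]
  ring

theorem rc_step {m : ℕ} (hm : 3 ≤ m) {c : ℝ} (hc : 1 < c) (h : 1 < (m : ℝ) - c / (c - 1)) :
    rc m c = ((m : ℝ) - 2) ^ 2 * rc m ((m : ℝ) - c / (c - 1)) /
      (rc m ((m : ℝ) - c / (c - 1)) + 1) - 1 := by
  have hc1 : c - 1 ≠ 0 := by linarith
  have hm2 : (m : ℝ) - 2 ≠ 0 := by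
    have : (3 : ℝ) ≤ m := by exact_mod_cast hm
    linarith
  obtain ⟨x, hx⟩ : ∃ x : ℝ, x = 1 / (c - 1) := ⟨_, rfl⟩
  have hx1 : c / (c - 1) = x + 1 := by rw [hx]; field_simp; ring
  have hx2 : ((m : ℝ) - 2) / (c - 1) = ((m : ℝ) - 2) * x := by rw [hx]; field_simp
  rw [hx1] at h ⊢
  have h3 : (m : ℝ) - (x + 1) - 1 ≠ 0 := by linarith
  unfold rc
  rw [hx2]
  have h4 : ((m : ℝ) - 2) / ((m : ℝ) - (x + 1) - 1) ≠ 0 := div_ne_zero hm2 h3
  rw [sub_add_cancel]
  field_simp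
  ring

theorem dsc_step {m : ℕ} (hm : 3 ≤ m) {c : ℝ} (hc : 1 < c) (h : 1 < (m : ℝ) - c / (c - 1))
    (hd : Dsc m (rc m ((m : ℝ) - c / (c - 1)))) : Dsc m (rc m c) := by
  obtain ⟨j, hj⟩ := hd
  refine ⟨j + 1, ?_⟩
  rw [rc_step hm hc h]
  rcases hj with hj | hj
  · left
    rw [hj, rt]
  · right
    rw [hj, rt]

/-- Idempotents whose sum is a scalar `c > 1`. -/
theorem spec {m : ℕ} (hm : 3 ≤ m) (n : ℕ) :
    ∀ {E : Type u} [AddCommGroup E] [Module ℝ E] [FiniteDimensional ℝ E]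
      (P : Fin m → E →ₗ[ℝ] E) (_ : ∀ i, P i * P i = P i) {c : ℝ} (_ : 1 < c)
      (_ : ∑ i, P i = c • (1 : E →ₗ[ℝ] E)) (_ : 0 < finrank ℝ E) (_ : finrank ℝ E ≤ n),
      Dsc m (rc m c) ∨ 2 ≤ c ∨ c ^ 2 - m * c + m ≤ 0 := by
  induction n with
  | zero =>
    intro E _ _ _ P hP c hc hs he hn
    omega
  | succ n ih =>
    intro E _ _ _ P hP c hc hs he hn
    by_cases h2 : 2 ≤ c
    · exact Or.inr (Or.inl h2)
    have hc2 : c < 2 := not_le.1 h2
    have hc1 : 0 < c - 1 := by linarith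
    obtain ⟨W, Q, hQ, hQs, hW, hWd⟩ := red P hP hc hs he
    have he' : (0 : ℝ) < (finrank ℝ E : ℝ) := by exact_mod_cast he
    have hlt : finrank ℝ W < finrank ℝ E := by
      have h : (finrank ℝ W : ℝ) < finrank ℝ E := by
        rw [hWd]
        nlinarith
      exact_mod_cast h
    by_cases h0 : (m : ℝ) - c / (c - 1) = 0
    · exact Or.inl (dsc_zero hc h0)
    by_cases h1 : (m : ℝ) - c / (c - 1) = 1
    · exact Or.inl (dsc_one hc h1)
    have hgt := small (by omega) Q hQ h0 h1 hQs hW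
    obtain ⟨x, hx⟩ : ∃ x : ℝ, x = 1 / (c - 1) := ⟨_, rfl⟩
    have hx1 : c / (c - 1) = x + 1 := by rw [hx]; field_simp; ring
    have hx0 : 0 < x := by rw [hx]; positivity
    have hxc : x * (c - 1) = 1 := by rw [hx]; field_simp
    rcases ih Q hQ hgt hQs hW (by omega) with h | h | h
    · exact Or.inl (dsc_step hm hc hgt h)
    · right; right
      rw [hx1] at h
      nlinarith
    · right; right
      rw [hx1] at h hgt
      by_contra hcon
      have hcon' : 0 < c ^ 2 - m * c + m := not_le.1 hcon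
      -- y = m - (x + 1) < c
      obtain ⟨y, hy⟩ : ∃ y : ℝ, y = (m : ℝ) - (x + 1) := ⟨_, rfl⟩
      rw [← hy] at h hgt
      have hyc : y < c := by
        by_contra hge
        have hge' : c ≤ y := not_lt.1 hge
        have h5 : c * (c - 1) ≤ y * (c - 1) := mul_le_mul_of_nonneg_right hge' hc1.le
        have h6 : y * (c - 1) = (m : ℝ) * (c - 1) - 1 - (c - 1) := by
          rw [hy]
          linear_combination -hxc
        nlinarith
      -- (m - y) (y - 1) ≥ y, that is y - 1 ≥ 1 / (m - 1 - y) = 1 / x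
      have h7 : 1 ≤ x * (y - 1) := by
        have h8 : (m : ℝ) = y + x + 1 := by rw [hy]; ring
        rw [h8] at h
        nlinarith
      have h9 : x * (y - 1) < x * (c - 1) := mul_lt_mul_of_pos_left (by linarith) hx0
      linarith

/-- after one reduction the sum is `0` or at least `1` -/
theorem gap {E : Type*} [AddCommGroup E] [Module ℝ E] [FiniteDimensional ℝ E]
    {m : ℕ} (hm : 1 ≤ m) (P : Fin m → E →ₗ[ℝ] E) (hP : ∀ i, P i * P i = P i) {c : ℝ}
    (hc : 1 < c) (hs : ∑ i, P i = c • (1 : E →ₗ[ℝ] E)) (he : 0 < finrank ℝ E) :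
    (m : ℝ) - c / (c - 1) = 0 ∨ 1 ≤ (m : ℝ) - c / (c - 1) := by
  obtain ⟨W, Q, hQ, hQs, hW, -⟩ := red P hP hc hs he
  by_cases h0 : (m : ℝ) - c / (c - 1) = 0
  · exact Or.inl h0
  by_cases h1 : (m : ℝ) - c / (c - 1) = 1
  · exact Or.inr h1.ge
  exact Or.inr (small hm Q hQ h0 h1 hQs hW).le

end abs

section mat

variable {N : Type*} [Fintype N] [DecidableEq N]

theorem eigd {m : ℕ} (hm : 3 ≤ m) {l : ℝ} (hl : 0 < l) (s : Matrix N N ℝ)
    (k : Fin m → Matrix N N ℝ) (hc : ∀ i, k i * s = s * k i)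
    (hq : ∀ i, k i * k i = (l • (1 : Matrix N N ℝ) + (1 / 4 : ℝ) • s) * s)
    (hs : ∑ i, k i = (-(((m : ℝ) - 2) / 2)) • s) {a : ℝ} (ha : 0 < a) {v : N → ℝ} (hv : v ≠ 0)
    (hsv : s *ᵥ v = a • v) :
    ∃ g r : ℝ, 0 < g ∧ 0 < r ∧ g < m - 2 ∧ r * r = l * a + a * a / 4 ∧
      g * (2 * r) = (m - 2) * a ∧ g ^ 2 * (4 * l + a) = ((m : ℝ) - 2) ^ 2 * a ∧
      (Dsc m (rc m ((m - g) / 2)) ∨ 2 ≤ (m - g) / 2 ∨
        ((m - g) / 2) ^ 2 - m * ((m - g) / 2) + m ≤ 0) ∧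
      ((m : ℝ) - (m - g) / 2 / ((m - g) / 2 - 1) = 0 ∨
        1 ≤ (m : ℝ) - (m - g) / 2 / ((m - g) / 2 - 1)) := by
  have hm3 : (3 : ℝ) ≤ m := by exact_mod_cast hm
  obtain ⟨r, hr, hrr⟩ : ∃ r : ℝ, 0 < r ∧ r * r = l * a + a * a / 4 :=
    ⟨Real.sqrt (l * a + a * a / 4), Real.sqrt_pos.2 (by positivity),
      Real.mul_self_sqrt (by positivity)⟩
  have hr2 : a < 2 * r := by nlinarith [mul_pos hl ha]
  obtain ⟨g, hg⟩ : ∃ g : ℝ, g = (m - 2) * a / (2 * r) := ⟨_, rfl⟩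
  have hg0 : 0 < g := by
    rw [hg]
    exact div_pos (mul_pos (by linarith) ha) (by linarith)
  have hgr : g * (2 * r) = (m - 2) * a := by
    rw [hg, div_mul_cancel₀]
    linarith
  have hg1 : g < m - 2 := by
    rw [hg, div_lt_iff₀ (by linarith)]
    exact mul_lt_mul_of_pos_left hr2 (by linarith)
  have h1 : g ^ 2 * (4 * l + a) = ((m : ℝ) - 2) ^ 2 * a := by
    have h2 : (g * (2 * r)) ^ 2 = ((m - 2) * a) ^ 2 := by rw [hgr]
    have h3 : g ^ 2 * (4 * l + a) * a = (((m : ℝ) - 2) ^ 2 * a) * a := by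
      linear_combination h2 - 4 * g ^ 2 * hrr
    exact mul_right_cancel₀ ha.ne' h3
  -- the eigenspace
  obtain ⟨E, hE⟩ : ∃ E : Submodule ℝ (N → ℝ), ∀ w, w ∈ E ↔ s *ᵥ w = a • w :=
    ⟨LinearMap.ker (Matrix.toLin' s - a • LinearMap.id), fun w => by
      rw [LinearMap.mem_ker, LinearMap.sub_apply, LinearMap.smul_apply, LinearMap.id_apply,
        Matrix.toLin'_apply, sub_eq_zero]⟩
  have hkE : ∀ i, ∀ w ∈ E, Matrix.toLin' (k i) w ∈ E := by
    intro i w hw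
    rw [hE] at hw ⊢
    rw [Matrix.toLin'_apply, Matrix.mulVec_mulVec, ← hc, ← Matrix.mulVec_mulVec, hw,
      Matrix.mulVec_smul]
  obtain ⟨K, hK⟩ : ∃ K : Fin m → E →ₗ[ℝ] E, ∀ i (w : E), ((K i w : E) : N → ℝ) = k i *ᵥ w.1 :=
    ⟨fun i => (Matrix.toLin' (k i)).restrict (hkE i), fun i w => by
      rw [LinearMap.coe_restrict_apply, Matrix.toLin'_apply]⟩
  have hKK : ∀ i, K i * K i = (r * r) • (1 : E →ₗ[ℝ] E) := by
    intro i
    refine LinearMap.ext fun w => Subtype.ext ?_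
    rw [Module.End.mul_apply, hK, hK, Matrix.mulVec_mulVec, hq, ← Matrix.mulVec_mulVec,
      (hE w.1).1 w.2, Matrix.mulVec_smul, Matrix.add_mulVec, Matrix.smul_mulVec,
      Matrix.smul_mulVec, Matrix.one_mulVec, (hE w.1).1 w.2, hrr, LinearMap.smul_apply,
      Module.End.one_apply, Submodule.coe_smul, smul_smul, ← add_smul, smul_smul]
    congr 2
    ring
  have hKs : ∑ i, K i = (-(((m : ℝ) - 2) / 2) * a) • (1 : E →ₗ[ℝ] E) := by
    refine LinearMap.ext fun w => Subtype.ext ?_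
    rw [LinearMap.sum_apply, Submodule.coe_sum, LinearMap.smul_apply, Module.End.one_apply,
      Submodule.coe_smul, mul_smul, ← (hE w.1).1 w.2, ← Matrix.smul_mulVec, ← hs,
      Matrix.sum_mulVec]
    exact Finset.sum_congr rfl fun i _ => hK i w
  have he : 0 < finrank ℝ E := by
    rw [Module.finrank_pos_iff]
    refine ⟨⟨⟨v, (hE v).2 hsv⟩, 0, fun h => hv ?_⟩⟩
    exact congrArg Subtype.val h
  have hP : ∀ i, ((1 / 2 : ℝ) • ((1 : E →ₗ[ℝ] E) + r⁻¹ • K i)) *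
      ((1 / 2 : ℝ) • ((1 : E →ₗ[ℝ] E) + r⁻¹ • K i)) =
      (1 / 2 : ℝ) • ((1 : E →ₗ[ℝ] E) + r⁻¹ • K i) := by
    intro i
    simp only [smul_mul_smul_comm, mul_add, add_mul, mul_one, one_mul]
    rw [hKK i, smul_smul]
    have h3 : r⁻¹ * r⁻¹ * (r * r) = 1 := by field_simp
    rw [h3]
    module
  have hsum : ∑ i, ((1 / 2 : ℝ) • ((1 : E →ₗ[ℝ] E) + r⁻¹ • K i)) =
      ((m - g) / 2) • (1 : E →ₗ[ℝ] E) := by
    rw [← Finset.smul_sum, Finset.sum_add_distrib, ← Finset.smul_sum, hKs, Finset.sum_const,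
      Finset.card_univ, Fintype.card_fin, ← Nat.cast_smul_eq_nsmul ℝ, smul_smul, ← add_smul,
      smul_smul]
    congr 1
    rw [hg]
    field_simp
    ring
  exact ⟨g, r, hg0, hr, hg1, hrr, hgr, h1,
    spec hm _ _ hP (by linarith : 1 < (m - g) / 2) hsum he le_rfl,
    gap (by omega) _ hP (by linarith : 1 < (m - g) / 2) hsum he⟩

end mat

section fin

/-- from the eigenvalue to `l` and `d = l - Y` -/
theorem conv {m : ℕ} (hm : 3 ≤ m) {l B Y : ℕ} (hB : 0 < B) (hY : 0 < Y) (hYl : Y < l)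
    (h : Y ^ 2 + B * Y = l * B) {g r : ℝ} (hg : 0 < g) (hr : 0 < r) (hg1 : g < m - 2)
    (hrr : r * r = l * B + B * B / 4) (hgr : g * (2 * r) = (m - 2) * B)
    (h1 : g ^ 2 * (4 * l + B) = ((m : ℝ) - 2) ^ 2 * B)
    (h2 : Dsc m (rc m ((m - g) / 2)) ∨ 2 ≤ (m - g) / 2 ∨
        ((m - g) / 2) ^ 2 - m * ((m - g) / 2) + m ≤ 0) :
    ((l : ℤ) - (l - Y : ℕ)) ^ 2 ≤ (m : ℤ) * (m - 4) * l * (l - Y : ℕ) ∨
      Dsc m ((l : ℝ) / (l - Y : ℕ)) := by
  have hm3 : (3 : ℝ) ≤ m := by exact_mod_cast hm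
  have hB' : (0 : ℝ) < B := by exact_mod_cast hB
  have hY' : (0 : ℝ) < Y := by exact_mod_cast hY
  have hl' : (0 : ℝ) < (l : ℝ) - Y := by
    have : (Y : ℝ) < l := by exact_mod_cast hYl
    linarith
  have hR : (Y : ℝ) ^ 2 + B * Y = l * B := by exact_mod_cast h
  have hrY : r = Y + B / 2 := by
    have h3 : r ^ 2 = (Y + (B : ℝ) / 2) ^ 2 := by linear_combination hrr - hR
    exact (pow_left_inj₀ hr.le (by positivity) two_ne_zero).1 h3
  have hq : (m : ℝ) - 4 ≤ 0 ∨ 0 ≤ (m : ℝ) - 4 := le_total _ _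
  have hquad : ((m - g) / 2) ^ 2 - m * ((m - g) / 2) + m ≤ 0 →
      ((l : ℤ) - (l - Y : ℕ)) ^ 2 ≤ (m : ℤ) * (m - 4) * l * (l - Y : ℕ) := by
    intro h3
    have h4 : g ^ 2 ≤ (m : ℝ) * (m - 4) := by nlinarith
    have h5 : (B : ℝ) ≤ l * (m * (m - 4)) := by
      have h6 : ((m : ℝ) - 2) ^ 2 * B ≤ (m * (m - 4)) * (4 * l + B) := by
        rw [← h1]
        exact mul_le_mul_of_nonneg_right h4 (by positivity)
      nlinarith
    have h7 : (Y : ℝ) ^ 2 ≤ m * (m - 4) * l * (l - Y) := by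
      have h8 : (Y : ℝ) ^ 2 = B * (l - Y) := by linear_combination hR
      rw [h8]
      have h9 := mul_le_mul_of_nonneg_right h5 hl'.le
      linarith
    rw [Nat.cast_sub hYl.le]
    have h10 : ((l : ℤ) - (l - Y)) = Y := by ring
    rw [h10]
    exact_mod_cast h7
  rcases h2 with h2 | h2 | h2
  · right
    have h3 : rc m ((m - g) / 2) = (l : ℝ) / (l - Y : ℕ) := by
      rw [Nat.cast_sub hYl.le, rc]
      have h4 : ((m : ℝ) - g) / 2 - 1 = (m - 2) * Y / (2 * r) := by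
        rw [eq_div_iff (by positivity)]
        rw [hrY] at hgr ⊢
        linear_combination (-1 / 2 : ℝ) * hgr
      have hm2 : (m : ℝ) - 2 ≠ 0 := by linarith
      rw [h4, hrY]
      have h5 : (2 * (Y + (B : ℝ) / 2)) ≠ 0 := by positivity
      field_simp
      linear_combination hR * (-1)
    rwa [h3] at h2
  · left
    apply hquad
    nlinarith
  · exact Or.inl (hquad h2)

/-- the gap in terms of the eigenvalue -/
theorem gapa {m : ℕ} (hm : 3 ≤ m) {l a g : ℝ} (hl : 0 < l) (ha : 0 < a) (hg : 0 < g)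
    (hg1 : g < m - 2) (h1 : g ^ 2 * (4 * l + a) = ((m : ℝ) - 2) ^ 2 * a)
    (h2 : (m : ℝ) - (m - g) / 2 / ((m - g) / 2 - 1) = 0 ∨
      1 ≤ (m : ℝ) - (m - g) / 2 / ((m - g) / 2 - 1)) :
    ((m : ℝ) ^ 2 - 3 * m + 1) * a = l * (m * (m - 3)) ^ 2 ∨
      (((m : ℝ) - 1) * (m - 3)) * a ≤ l * ((m : ℝ) ^ 2 - 4 * m + 2) ^ 2 := by
  have hm3 : (3 : ℝ) ≤ m := by exact_mod_cast hm
  have hc : 0 < (m - g) / 2 - 1 := by linarith
  rcases h2 with h2 | h2
  · left
    have h3 : (m - g) / 2 = m * ((m - g) / 2 - 1) := by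
      have h4 : (m - g) / 2 / ((m - g) / 2 - 1) = m := by linarith
      rwa [div_eq_iff hc.ne'] at h4
    have h5 : ((m : ℝ) - 1) * g = m * (m - 3) := by linarith
    have h6 : (((m : ℝ) - 1) * g) ^ 2 * (4 * l + a) = ((m - 1) * (m - 2)) ^ 2 * a := by
      linear_combination ((m : ℝ) - 1) ^ 2 * h1
    rw [h5] at h6
    linear_combination (-1 / 4 : ℝ) * h6
  · right
    have h3 : (m - g) / 2 ≤ (m - 1) * ((m - g) / 2 - 1) := by
      have h4 : (m - g) / 2 / ((m - g) / 2 - 1) ≤ m - 1 := by linarith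
      rwa [div_le_iff₀ hc] at h4
    have h5 : ((m : ℝ) - 2) * g ≤ m ^ 2 - 4 * m + 2 := by linarith
    have h50 : 0 < ((m : ℝ) - 2) * g := mul_pos (by linarith) hg
    have h6 : (((m : ℝ) - 2) * g) ^ 2 ≤ (m ^ 2 - 4 * m + 2) ^ 2 := pow_le_pow_left₀ h50.le h5 2
    have h7 : (((m : ℝ) - 2) * g) ^ 2 * (4 * l + a) = ((m - 2) ^ 2) ^ 2 * a := by
      linear_combination ((m : ℝ) - 2) ^ 2 * h1
    have h8 := mul_le_mul_of_nonneg_right h6 (by positivity : 0 ≤ 4 * l + a)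
    rw [h7] at h8
    linarith

end fin

section fin2

variable {G : Type*} [Group G] [Fintype G] {m k l : ℕ} {A : Fin m → Finset G}

theorem bndg [DecidableEq G] (hA : IsSEDF m k l A) (hm : 3 ≤ m) (hk : 1 ≤ k) (hl : 1 ≤ l)
    (hd : ¬ (m ^ 2 - 3 * m + 1) ∣ l) :
    m * (m - 3) * (Fintype.card G - m * k) ≤ (m ^ 2 - 4 * m + 2) ^ 2 * k := by
  have hm4 : 4 ≤ m := by
    by_contra h
    have h3 : m = 3 := by omega
    subst h3
    exact hd ⟨l, by norm_num⟩
  have hn := mkn hA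
  have h3 : 3 * m ≤ m ^ 2 := by nlinarith
  have h4 : 4 * m ≤ m ^ 2 := by nlinarith
  have hcard : 1 ≤ Fintype.card G := Fintype.card_pos
  have hM : (4 : ℝ) ≤ m := by exact_mod_cast hm4
  have hK : (1 : ℝ) ≤ k := by exact_mod_cast hk
  have hl0 : (0 : ℝ) < l := by exact_mod_cast hl
  have hU : (0 : ℝ) < ((m : ℝ) - 1) * (m - 3) := mul_pos (by linarith) (by linarith)
  have hall : ∀ a : ℝ, 0 < a → ∀ v : G → ℝ, v ≠ 0 → (SM k A * (SM k A)ᴴ) *ᵥ v = a • v →
      (((m : ℝ) - 1) * (m - 3)) * a ≤ l * ((m : ℝ) ^ 2 - 4 * m + 2) ^ 2 := by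
    intro a ha v hv hav
    obtain ⟨-, B, Y, hB, hY, hBa, hBY⟩ := eigs hA hm hl ha hv hav
    obtain ⟨K, k1, k2, k3⟩ := frm hA hm hl
    obtain ⟨g, r, hg, hr, hg1, hrr, hgr, g1, -, g3⟩ := eigd hm hl0 _ K k1 k2 k3 ha hv hav
    rcases gapa hm hl0 ha hg hg1 g1 g3 with h | h
    · exfalso
      apply hd
      rw [← hBa] at h
      have h5 : (((m ^ 2 - 3 * m + 1) * B : ℕ) : ℝ) = ((l * (m * (m - 3)) ^ 2 : ℕ) : ℝ) := by
        push_cast [Nat.cast_sub h3, Nat.cast_sub hm]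
        exact h
      have h6 : (m ^ 2 - 3 * m + 1) * B = l * (m * (m - 3)) ^ 2 := by exact_mod_cast h5
      have h7 : (m ^ 2 - 3 * m + 1) = m * (m - 3) + 1 := by
        zify [h3, hm]
        ring
      have h8 : Nat.Coprime (m ^ 2 - 3 * m + 1) ((m * (m - 3)) ^ 2) := by
        rw [h7]
        exact Nat.Coprime.pow_right 2 (by simp)
      exact h8.dvd_of_dvd_mul_right ⟨B, h6.symm⟩
    · exact h
  have ht := trc (SM k A) (B := (l : ℝ) * ((m : ℝ) ^ 2 - 4 * m + 2) ^ 2 / (((m : ℝ) - 1) * (m - 3)))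
    (by positivity) (fun a ha v hv h => by
      rw [le_div_iff₀ hU]
      have h4 := hall a ha v hv h
      linarith) (w := fun _ => 1) (fun h => one_ne_zero (congrFun h 1)) (sone hA)
  rw [trs hA, ← mul_div_assoc, le_div_iff₀ hU] at ht
  have hp : (k : ℝ) * (((m : ℝ) - 1) * k) = l * ((Fintype.card G : ℝ) - 1) := by
    have h5 := congrArg (Nat.cast (R := ℝ)) (parN hA hm)
    push_cast [Nat.cast_sub hcard, Nat.cast_sub (show 1 ≤ m by omega)] at h5
    exact h5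
  have hmk : (0 : ℝ) < ((m : ℝ) - 1) * k := mul_pos (by linarith) (by linarith)
  have key : (m : ℝ) * (m - 3) * ((Fintype.card G : ℝ) - m * k) ≤
      ((m : ℝ) ^ 2 - 4 * m + 2) ^ 2 * k := by
    refine le_of_mul_le_mul_left ?_ hmk
    have e : ((m : ℝ) - 1) * k * (((m : ℝ) ^ 2 - 4 * m + 2) ^ 2 * k) =
        (k * (((m : ℝ) - 1) * k)) * ((m : ℝ) ^ 2 - 4 * m + 2) ^ 2 := by ring
    rw [e, hp]
    linarith
  have hfin : ((m * (m - 3) * (Fintype.card G - m * k) : ℕ) : ℝ) ≤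
      (((m ^ 2 - 4 * m + 2) ^ 2 * k : ℕ) : ℝ) := by
    push_cast [Nat.cast_sub h4, Nat.cast_sub hn, Nat.cast_sub hm]
    exact key
  exact_mod_cast hfin

theorem everyz [DecidableEq G] (hA : IsSEDF m k l A) (hm : 3 ≤ m) (hk : 1 ≤ k) (hl : 1 ≤ l) :
    (m ^ 2 - 3 * m + 1) * (Fintype.card G - m * k) ≤ m * (m - 1) * (m - 3) ^ 2 * k ∧
      Fintype.card G < (m - 1) ^ 2 * k ∧ k < (m - 1) * l ∧
      (∀ D : ℕ, IrrLe G D →
        (D * (m - 2) - 1) * (m * (Fintype.card G - m * k)) ≤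
          (m - 1) * (D * (m - 2) - 2) ^ 2 * k) ∧
      (¬ (m ^ 2 - 3 * m + 1) ∣ l →
        m * (m - 3) * (Fintype.card G - m * k) ≤ (m ^ 2 - 4 * m + 2) ^ 2 * k) ∧
      (1 < k → ∃ d : ℕ, d ∣ l ^ 2 ∧ d < l ∧ l ≤ (m ^ 2 - 3 * m + 1) * d ∧
        (∀ D : ℕ, IrrLe G D → l ≤ (D * (m - 2) - 1) * d ∧
          ∃ w j : ℕ, 1 ≤ w ∧ w ≤ D ∧ 1 ≤ j ∧ j * (l + d) = w * (m - 2) * d) ∧
        (((l : ℤ) - d) ^ 2 ≤ (m : ℤ) * (m - 4) * l * d ∨ Dsc m ((l : ℝ) / d))) := by
  have hb := bnd hA hm hk hl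
  have hc := cor hm hk hl (mkn hA) hb (parN hA hm)
  refine ⟨hb, hc.1, hc.2, fun D hD => bndx hA hm hk hl hD, bndg hA hm hk hl, fun hk1 => ?_⟩
  by_cases h : ∃ a : ℝ, 0 < a ∧ ∃ v : G → ℝ, v ≠ 0 ∧ (SM k A * (SM k A)ᴴ) *ᵥ v = a • v
  · obtain ⟨a, ha, v, hv, hav⟩ := h
    obtain ⟨h1, B, Y, hB, hY, hBa, hBY⟩ := eigs hA hm hl ha hv hav
    rw [← hBa] at h1
    have h3 : 3 * m ≤ m ^ 2 := by nlinarith
    have hd1 : (((m ^ 2 - 3 * m + 1 : ℕ) : ℤ)) * B ≤ l * ((((m ^ 2 - 3 * m + 1 : ℕ) : ℤ)) - 1) ^ 2 := by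
      push_cast [Nat.cast_sub h3]
      have h4 : ((m : ℤ) ^ 2 - 3 * m + 1) * B ≤ l * (m * (m - 3)) ^ 2 := by exact_mod_cast h1
      have e : ((m : ℤ) ^ 2 - 3 * m + 1 - 1) ^ 2 = (m * (m - 3)) ^ 2 := by ring
      rw [e]
      exact h4
    have r1 := dvk (by omega) hY hBY hd1
    have hl0 : (0 : ℝ) < l := by exact_mod_cast hl
    obtain ⟨K, k1, k2, k3⟩ := frm hA hm hl
    obtain ⟨g, r, hg, hr, hg1, hrr, hgr, g1, g2, -⟩ := eigd hm hl0 _ K k1 k2 k3 ha hv hav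
    rw [← hBa] at hrr hgr g1
    exact ⟨l - Y, r1.2.1, by omega, r1.2.2,
      fun D hD => Eqw.eqd hA hm hl ha hv hav hB hY hBa hBY hD,
      conv hm hB hY r1.1 hBY hg hr hg1 hrr hgr g1 g2⟩
  · have h0 := sz hA hm hk (zer _ h)
    have h1 := parN hA hm
    rw [← h0] at h1
    have h2 := kk hm hk h1
    omega

end fin2

end Pool.Agent.Sedf.Spc
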