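import Pool.Agent.Sedf.Defs
import Pool.Agent.Sedf.Core

namespace Pool.Agent.Sedf

open Matrix

section
variable {G : Type*} [Group G] [Fintype G] {m k l : ℕ} {A : Fin m → Finset G}

/-- matrix of right convolution by an integer function -/
noncomputable def rmat (f : G → ℤ) : Matrix G G ℝ := fun h y => (f (h⁻¹ * y) : ℝ)

theorem rmat_mul_conjTranspose (f g : G → ℤ) (h z : G) :
    (rmat f * (rmat g)ᴴ) h z = ((∑ u, f u * g ((h⁻¹ * z)⁻¹ * u) : ℤ) : ℝ) := by
  rw [Matrix.mul_apply]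
  push_cast
  refine Fintype.sum_equiv (Equiv.mulLeft h⁻¹) _ _ fun y => ?_
  simp only [rmat, Matrix.conjTranspose_apply, star_trivial, Equiv.coe_mulLeft]
  congr 3
  group

theorem rmat_sum_row (f : G → ℤ) (h : G) : ∑ y, rmat f h y = ((∑ u, f u : ℤ) : ℝ) := by
  push_cast
  exact Fintype.sum_equiv (Equiv.mulLeft h⁻¹) _ _ fun y => rfl

theorem rmat_sum_col (f : G → ℤ) (y : G) : ∑ h, rmat f h y = ((∑ u, f u : ℤ) : ℝ) := by
  push_cast
  exact Fintype.sum_equiv ((Equiv.inv G).trans (Equiv.mulRight y)) _ _ fun h => rfl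

/-- the all-one matrix divided by `n` -/
noncomputable def PP (G : Type*) [Fintype G] : Matrix G G ℝ := fun _ _ => (Fintype.card G : ℝ)⁻¹

theorem card_ne : (Fintype.card G : ℝ) ≠ 0 := by
  have : 0 < Fintype.card G := Fintype.card_pos
  positivity

theorem PP_mul_PP : PP G * PP G = PP G := by
  ext h y
  rw [Matrix.mul_apply]
  simp only [PP, Finset.sum_const, Finset.card_univ, nsmul_eq_mul]
  have := card_ne (G := G)
  field_simp

theorem PP_conjTranspose : (PP G)ᴴ = PP G := by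
  ext h y; simp [PP]

theorem rmat_mul_PP (f : G → ℤ) : rmat f * PP G = ((∑ u, f u : ℤ) : ℝ) • PP G := by
  ext h y
  rw [Matrix.mul_apply, Matrix.smul_apply, ← rmat_sum_row f h, smul_eq_mul, Finset.sum_mul]
  rfl

theorem PP_mul_rmat (f : G → ℤ) : PP G * rmat f = ((∑ u, f u : ℤ) : ℝ) • PP G := by
  ext h y
  rw [Matrix.mul_apply, Matrix.smul_apply, ← rmat_sum_col f y, smul_eq_mul, Finset.sum_mul]
  refine Finset.sum_congr rfl fun u _ => ?_
  simp only [PP]; ring

theorem main_identity [DecidableEq G] (hA : IsSEDF m k l A) (i : Fin m) :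
    rmat (ind (A i)) * (rmat (fun g => ∑ j, ind (A j) g))ᴴ
      = rmat (ind (A i)) * (rmat (ind (A i)))ᴴ
        + (l : ℝ) • ((Fintype.card G : ℝ) • PP G - 1) := by
  ext h z
  rw [Matrix.add_apply, rmat_mul_conjTranspose, rmat_mul_conjTranspose]
  have h1 := conv_eq hA i (h⁻¹ * z)
  have h2 : (∑ u, ind (A i) u * (∑ j, ind (A j) ((h⁻¹ * z)⁻¹ * u)) : ℤ)
      = ∑ u, ind (A i) u * ind (A i) ((h⁻¹ * z)⁻¹ * u)
        + ∑ y, ind (A i) y * (∑ j, ind (A j) ((h⁻¹ * z)⁻¹ * y)
          - ind (A i) ((h⁻¹ * z)⁻¹ * y)) := by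
    rw [← Finset.sum_add_distrib]
    refine Finset.sum_congr rfl fun u _ => ?_
    ring
  rw [h2, h1, Int.cast_add]
  congr 1
  have e : (h⁻¹ * z = 1) ↔ h = z := by
    constructor
    · intro hh; exact (inv_mul_eq_one.mp hh)
    · intro hh; rw [hh]; simp
  by_cases c : h = z
  · have hn := card_ne (G := G)
    simp [c, PP, hn]
  · have hn := card_ne (G := G)
    simp [e, c, PP, hn]

theorem three_sets {k l : ℕ} {A : Fin 3 → Finset G} (hk : 1 ≤ k) (hl : 1 ≤ l)
    (hA : IsSEDF 3 k l A) : Nat.card G = 3 ∧ k = 1 ∧ l = 1 := by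
  classical
  set n : ℝ := (Fintype.card G : ℝ) with hn
  have hn0 : n ≠ 0 := card_ne
  have hlpos : (0 : ℝ) < l := by exact_mod_cast hl
  obtain ⟨M, hM⟩ : ∃ M : Fin 3 → Matrix G G ℝ, ∀ i, M i = rmat (ind (A i)) :=
    ⟨_, fun i => rfl⟩
  obtain ⟨T, hT⟩ : ∃ T : Matrix G G ℝ, T = rmat (fun g => ∑ j, ind (A j) g) := ⟨_, rfl⟩
  have hsumM : ∑ i, M i = T := by
    ext h y
    simp only [hM, hT, Matrix.sum_apply, rmat]
    push_cast; rfl
  have hMP : ∀ i, M i * PP G = (k : ℝ) • PP G := by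
    intro i; rw [hM]; simp only [rmat_mul_PP, sum_ind, hA.1]; simp
  have hPM : ∀ i, PP G * M i = (k : ℝ) • PP G := by
    intro i; rw [hM]; simp only [PP_mul_rmat, sum_ind, hA.1]; simp
  have hTs : ((∑ u : G, ∑ j, ind (A j) u : ℤ) : ℝ) = 3 * k := by
    rw [Finset.sum_comm]
    simp only [sum_ind, hA.1]
    simp
  have hTP : T * PP G = (3 * k : ℝ) • PP G := by rw [hT, rmat_mul_PP, hTs]
  have hPT : PP G * T = (3 * k : ℝ) • PP G := by rw [hT, PP_mul_rmat, hTs]
  have hPMH : ∀ i, PP G * (M i)ᴴ = (k : ℝ) • PP G := by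
    intro i
    have := congrArg Matrix.conjTranspose (hMP i)
    rw [Matrix.conjTranspose_mul, PP_conjTranspose, Matrix.conjTranspose_smul,
      PP_conjTranspose] at this
    simpa using this
  have hPTH : PP G * Tᴴ = (3 * k : ℝ) • PP G := by
    have := congrArg Matrix.conjTranspose hTP
    rw [Matrix.conjTranspose_mul, PP_conjTranspose, Matrix.conjTranspose_smul,
      PP_conjTranspose] at this
    simpa using this
  have hpar : (k : ℝ) * (3 * k - k) = l * (n - 1) := by
    have := param hA 0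
    rw [hn]
    exact_mod_cast this
  have hmain : ∀ i, M i * Tᴴ = M i * (M i)ᴴ + (l : ℝ) • (n • PP G - 1) := by
    intro i; rw [hM, hT, hn]; exact main_identity hA i
  obtain ⟨S', hS'⟩ : ∃ S' : Matrix G G ℝ, S' = T - (3 * k : ℝ) • PP G := ⟨_, rfl⟩
  obtain ⟨al, hal⟩ : ∃ al : Fin 3 → Matrix G G ℝ, ∀ i, al i = M i - (k : ℝ) • PP G :=
    ⟨_, fun i => rfl⟩
  have hS'P : S' * PP G = 0 := by
    rw [hS', Matrix.sub_mul, hTP, Matrix.smul_mul, PP_mul_PP, sub_self]
  have halP : ∀ i, al i * PP G = 0 := by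
    intro i
    simp only [hal, Matrix.sub_mul, hMP, Matrix.smul_mul, PP_mul_PP, sub_self]
  have hPS' : PP G * S'ᴴ = 0 := by
    have := congrArg Matrix.conjTranspose hS'P
    rw [Matrix.conjTranspose_mul, PP_conjTranspose, Matrix.conjTranspose_zero] at this
    exact this
  have hPal : ∀ i, PP G * (al i)ᴴ = 0 := by
    intro i
    have := congrArg Matrix.conjTranspose (halP i)
    rw [Matrix.conjTranspose_mul, PP_conjTranspose, Matrix.conjTranspose_zero] at this
    exact this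
  have hS'H : S'ᴴ = Tᴴ - (3 * k : ℝ) • PP G := by
    rw [hS', Matrix.conjTranspose_sub, Matrix.conjTranspose_smul, PP_conjTranspose]; simp
  have halH : ∀ i, (al i)ᴴ = (M i)ᴴ - (k : ℝ) • PP G := by
    intro i
    simp only [hal, Matrix.conjTranspose_sub, Matrix.conjTranspose_smul, PP_conjTranspose]
    simp
  have key : ∀ i, al i * S'ᴴ = al i * (al i)ᴴ - (l : ℝ) • (1 - PP G) := by
    intro i
    have e1 : al i * S'ᴴ = M i * Tᴴ - (3 * k * k : ℝ) • PP G := by
      have : al i * S'ᴴ = M i * S'ᴴ := by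
        rw [hal]; simp only [Matrix.sub_mul, Matrix.smul_mul, hPS', smul_zero, sub_zero]
      rw [this, hS'H, Matrix.mul_sub, Matrix.mul_smul, hMP, smul_smul]
    have e2 : al i * (al i)ᴴ = M i * (M i)ᴴ - (k * k : ℝ) • PP G := by
      have : al i * (al i)ᴴ = M i * (al i)ᴴ := by
        have h0 : al i * (al i)ᴴ = (M i - (k : ℝ) • PP G) * (al i)ᴴ := by rw [← hal]
        rw [h0]
        simp only [Matrix.sub_mul, Matrix.smul_mul, hPal, smul_zero, sub_zero]
      rw [this, halH, Matrix.mul_sub, Matrix.mul_smul, hMP, smul_smul]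
    rw [e1, e2, hmain]
    have hc : (3 * k * k : ℝ) = l * (n - 1) + k * k := by rw [← hpar]; ring
    rw [hc]
    module
  have key' : ∀ i, S' * (al i)ᴴ = al i * (al i)ᴴ - (l : ℝ) • (1 - PP G) := by
    intro i
    have := congrArg Matrix.conjTranspose (key i)
    rw [Matrix.conjTranspose_mul, Matrix.conjTranspose_conjTranspose, Matrix.conjTranspose_sub,
      Matrix.conjTranspose_mul, Matrix.conjTranspose_conjTranspose, Matrix.conjTranspose_smul,
      Matrix.conjTranspose_sub, PP_conjTranspose] at this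
    simpa using this
  set r : ℝ := Real.sqrt l with hr
  have hrr : r * r = l := Real.mul_self_sqrt hlpos.le
  obtain ⟨b, hb⟩ : ∃ b : Fin 3 → Matrix G G ℝ,
      ∀ i, b i = al i - (1 / 2 : ℝ) • S' + r • PP G := ⟨_, fun i => rfl⟩
  have hbH : ∀ i, (b i)ᴴ = (al i)ᴴ - (1 / 2 : ℝ) • S'ᴴ + r • PP G := by
    intro i
    rw [hb]
    simp only [Matrix.conjTranspose_add, Matrix.conjTranspose_sub, Matrix.conjTranspose_smul,
      PP_conjTranspose]
    simp
  have hPalr : ∀ i, PP G * S' = 0 ∧ PP G * al i = 0 := by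
    intro i
    constructor
    · rw [hS', Matrix.mul_sub, hPT, Matrix.mul_smul, PP_mul_PP, sub_self]
    · rw [hal]; simp only [Matrix.mul_sub, hPM, Matrix.mul_smul, PP_mul_PP, sub_self]
  have hbS : ∀ i, b i * S'ᴴ = al i * S'ᴴ - (1 / 2 : ℝ) • (S' * S'ᴴ) := by
    intro i
    rw [hb]
    simp only [Matrix.add_mul, Matrix.sub_mul, Matrix.smul_mul, hPS', smul_zero, add_zero]
  have hSb : ∀ i, S' * (b i)ᴴ = S' * (al i)ᴴ - (1 / 2 : ℝ) • (S' * S'ᴴ) := by
    intro i
    rw [hbH]
    simp only [Matrix.mul_add, Matrix.mul_sub, Matrix.mul_smul, hS'P, smul_zero, add_zero]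
  have hQ : ∀ i, b i * (b i)ᴴ = (l : ℝ) • (1 : Matrix G G ℝ) + (1 / 4 : ℝ) • (S' * S'ᴴ) := by
    intro i
    have e1 : b i * (b i)ᴴ = al i * (al i)ᴴ - (1 / 2 : ℝ) • (al i * S'ᴴ)
        - (1 / 2 : ℝ) • (S' * (al i)ᴴ) + (1 / 4 : ℝ) • (S' * S'ᴴ) + (r * r) • PP G := by
      have f1 : b i * (b i)ᴴ = b i * (al i)ᴴ - (1 / 2 : ℝ) • (b i * S'ᴴ) + r • (b i * PP G) := by
        rw [hbH]; simp only [Matrix.mul_add, Matrix.mul_sub, Matrix.mul_smul]
      have f2 : b i * (al i)ᴴ = al i * (al i)ᴴ - (1 / 2 : ℝ) • (S' * (al i)ᴴ) := by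
        rw [hb]
        simp only [Matrix.add_mul, Matrix.sub_mul, Matrix.smul_mul, hPal, smul_zero, add_zero]
      have f3 : b i * PP G = r • PP G := by
        rw [hb]
        simp only [Matrix.add_mul, Matrix.sub_mul, Matrix.smul_mul, halP, hS'P, PP_mul_PP,
          smul_zero, sub_zero, zero_add]
      rw [f1, f2, f3, hbS]
      module
    rw [e1, key, key', hrr]
    module
  have hH : ∀ i, b i * S'ᴴ = S' * (b i)ᴴ := by
    intro i; rw [hbS, hSb, key, key']
  have hsal : ∑ i, al i = S' := by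
    simp only [hal]
    rw [hS', ← hsumM, Finset.sum_sub_distrib]
    congr 1
    rw [Finset.sum_const, Finset.card_univ, Fintype.card_fin, ← Nat.cast_smul_eq_nsmul ℝ, smul_smul]
    norm_num
  have hs : (∑ i, b i) * S'ᴴ = -((1 / 2 : ℝ) • (S' * S'ᴴ)) := by
    rw [Finset.sum_mul]
    simp only [hbS]
    rw [Finset.sum_sub_distrib, ← Finset.sum_mul, hsal, Finset.sum_const, Finset.card_univ,
      Fintype.card_fin, ← Nat.cast_smul_eq_nsmul ℝ, smul_smul]
    push_cast
    module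
  have hzero : S' = 0 := three_core (l : ℝ) hlpos S' b hQ hH hs
  -- hence the union of the three sets is everything
  have hval : ∀ g : G, ((∑ j, ind (A j) g : ℤ) : ℝ) = 3 * k * n⁻¹ := by
    intro g
    have := congrFun (congrFun hzero 1) g
    rw [hS', hT] at this
    simp only [Matrix.sub_apply, Matrix.smul_apply, rmat, PP, smul_eq_mul, Matrix.zero_apply,
      inv_one, one_mul] at this
    linarith
  -- some element lies in A 0
  obtain ⟨g0, hg0⟩ : (A 0).Nonempty := by
    rw [← Finset.card_pos, hA.1]; omega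
  have h1 : (∑ j, ind (A j) g0 : ℤ) = 1 := by
    rw [Finset.sum_eq_single 0]
    · simp [ind, hg0]
    · intro j _ hj
      have : g0 ∉ A j := Finset.disjoint_left.mp (hA.2.1 0 j hj.symm) hg0
      simp [ind, this]
    · simp
  have h2 : (3 * k : ℝ) = n := by
    have := hval g0
    rw [h1] at this
    push_cast at this
    field_simp at this
    linarith
  have h3 : 3 * k = Fintype.card G := by
    rw [hn] at h2; exact_mod_cast h2
  have h4 : k * (2 * k) = l * (3 * k - 1) := by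
    have := param hA 0
    rw [← h3] at this
    zify [show 1 ≤ 3 * k by omega]
    push_cast at this ⊢
    linarith
  have h5 : (3 * k - 1) ∣ 2 := by
    have hd : (3 * k - 1) ∣ k * (2 * k) := ⟨l, by rw [h4, mul_comm]⟩
    have hc : Nat.Coprime (3 * k - 1) k := by
      have h6 : Nat.gcd (3 * k - 1) k ∣ 1 := by
        have g1 := Nat.gcd_dvd_left (3 * k - 1) k
        have g2 := Nat.gcd_dvd_right (3 * k - 1) k
        have g3 : Nat.gcd (3 * k - 1) k ∣ 3 * k := Dvd.dvd.mul_left g2 3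
        have := Nat.dvd_sub g3 g1
        rwa [show 3 * k - (3 * k - 1) = 1 by omega] at this
      exact Nat.dvd_one.mp h6
    have h6 := hc.dvd_of_dvd_mul_left hd
    exact hc.dvd_of_dvd_mul_right h6
  have h6 : 3 * k - 1 ≤ 2 := Nat.le_of_dvd (by norm_num) h5
  have hk1 : k = 1 := by omega
  subst hk1
  refine ⟨by rw [Nat.card_eq_fintype_card]; omega, rfl, by omega⟩

end

end Pool.Agent.Sedf
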